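import Pool.Agent.Lib.MP_570070_gt.An.DivA

/-! The lemma of Poincare on a cube, with an L2 bound. -/

open MeasureTheory Filter Topology Set Metric
open scoped ContDiff
open Pool.Agent.Lib.MP_570070_gt.An

namespace Pool.Agent.Lib.MP_75c153_gt.Dc

variable {n k : ℕ}

/-- The cone operator with vertex a. -/
noncomputable def cone (a : Eu n) (α : Eu n → Alt n (k + 1)) (y : Eu n) : Alt n k :=
  ∫ t in (0 : ℝ)..1, t ^ k • (α (a + t • (y - a))).curryLeft (y - a)

/-- The formula of Cartan. Evaluate on a tuple `v`, `alternatizeUncurryFin_apply`,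
`Fin.sum_univ_succ`; `(succ i).removeNth (vecCons w v) = vecCons w (i.removeNth v)`. -/
theorem cartan (L : Eu n →L[ℝ] Alt n (k + 1)) (M : Eu n →L[ℝ] Alt n k) (w : Eu n)
    (h : ∀ v, M v = (L v).curryLeft w) :
    (ContinuousAlternatingMap.alternatizeUncurryFin L).curryLeft w =
      L w - ContinuousAlternatingMap.alternatizeUncurryFin M := by
  ext v
  have h1 : ∀ i : Fin (k + 1), i.succ.removeNth (Matrix.vecCons w v) =
      Matrix.vecCons w (i.removeNth v) := by
    intro i
    funext j
    cases j using Fin.cases <;> simp [Fin.removeNth]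
  have h2 : (0 : Fin (k + 2)).removeNth (Matrix.vecCons w v) = v := by
    funext j
    simp [Fin.removeNth]
  rw [ContinuousAlternatingMap.curryLeft_apply_apply,
    ContinuousAlternatingMap.alternatizeUncurryFin_apply, Fin.sum_univ_succ,
    ContinuousAlternatingMap.sub_apply, ContinuousAlternatingMap.alternatizeUncurryFin_apply,
    sub_eq_add_neg, ← Finset.sum_neg_distrib, h2]
  simp only [h1, h, ContinuousAlternatingMap.curryLeft_apply_apply, Fin.val_succ, pow_succ]
  simp

section

variable {E F : Type} [NormedAddCommGroup E] [NormedSpace ℝ E] [FiniteDimensional ℝ E]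
  [NormedAddCommGroup F] [NormedSpace ℝ F] {K : Set ℝ}

theorem dpoin_fderiv {G : E × ℝ → F} (hK : IsCompact K) (hG : ContDiff ℝ 1 G) (y : E) :
    DifferentiableAt ℝ (fun y => ∫ p in K, G (y, p)) y ∧
      ∀ v, fderiv ℝ (fun y => ∫ p in K, G (y, p)) y v = ∫ p in K, fderiv ℝ G (y, p) (v, 0) := by
  have hc := hG.continuous
  have hd : Continuous fun q => (fderiv ℝ G q).comp (ContinuousLinearMap.inl ℝ E ℝ) :=
    (hG.continuous_fderiv one_ne_zero).clm_comp continuous_const
  have hd2 : Continuous fun p => (fderiv ℝ G (y, p)).comp (ContinuousLinearMap.inl ℝ E ℝ) :=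
    hd.comp (f := fun p : ℝ => (y, p)) (by fun_prop)
  obtain ⟨C, hC⟩ := ((isCompact_closedBall y 1).prod hK).exists_bound_of_continuousOn
    hd.continuousOn
  have key := hasFDerivAt_integral_of_dominated_of_fderiv_le (𝕜 := ℝ) (μ := volume.restrict K)
    (F := fun x p => G (x, p))
    (F' := fun x p => (fderiv ℝ G (x, p)).comp (ContinuousLinearMap.inl ℝ E ℝ))
    (bound := fun _ => C) (Metric.closedBall_mem_nhds y one_pos)
    (Filter.Eventually.of_forall fun x => Continuous.aestronglyMeasurable (by fun_prop))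
    (ContinuousOn.integrableOn_compact hK (by fun_prop)) hd2.aestronglyMeasurable
    ((ae_restrict_mem hK.measurableSet).mono fun p hp x hx => hC (x, p) ⟨hx, hp⟩)
    (continuousOn_const.integrableOn_compact hK)
    (Filter.Eventually.of_forall fun p x _ =>
      (hG.differentiable one_ne_zero (x, p)).hasFDerivAt.comp x (hasFDerivAt_prodMk_left x p))
  refine ⟨key.differentiableAt, fun v => ?_⟩
  rw [key.fderiv, ContinuousLinearMap.integral_apply (hd2.continuousOn.integrableOn_compact hK)]
  rfl

theorem dpoin_setInt {k : ℕ} {G : E × ℝ → F} (hK : IsCompact K) (hG : ContDiff ℝ k G) :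
    ContDiff ℝ k fun y => ∫ p in K, G (y, p) := by
  induction k generalizing G with
  | zero =>
    exact contDiff_zero.2 (continuous_parametric_integral_of_continuous
      (f := fun y p => G (y, p)) hG.continuous hK)
  | succ k ih =>
    have h1 : ContDiff ℝ 1 G := hG.of_le (by exact_mod_cast Nat.le_add_left 1 k)
    rw [Nat.cast_succ, contDiff_succ_iff_fderiv] at hG ⊢
    refine ⟨fun y => (dpoin_fderiv hK h1 y).1, by simp, contDiff_clm_apply_iff.2 fun v => ?_⟩
    rw [funext fun y => (dpoin_fderiv hK h1 y).2 v]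
    exact ih (G := fun q => fderiv ℝ G q (v, 0)) (hG.2.2.clm_apply contDiff_const)

end

/-- Smooth dependence on parameters for vector valued integrals, and the derivative. Follow
`diva_fderiv` and `contDiff_integral_param` in An/DivA (the same proof with values in a complete
space; the induction on the order only uses `contDiff_succ_iff_fderiv_apply`). -/
theorem contDiff_param {E F : Type} [NormedAddCommGroup E] [NormedSpace ℝ E]
    [FiniteDimensional ℝ E] [NormedAddCommGroup F] [NormedSpace ℝ F] [CompleteSpace F]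
    {G : E × ℝ → F} (hG : ContDiff ℝ ∞ G) (a b : ℝ) :
    ContDiff ℝ ∞ (fun y => ∫ t in a..b, G (y, t)) ∧
      ∀ y v, fderiv ℝ (fun y => ∫ t in a..b, G (y, t)) y v =
        ∫ t in a..b, fderiv ℝ G (y, t) (v, 0) := by
  have key : ∀ a b : ℝ, ContDiff ℝ ∞ fun y => ∫ t in Ioc a b, G (y, t) := fun a b => by
    simp only [← integral_Icc_eq_integral_Ioc]
    exact contDiff_infty.2 fun k => dpoin_setInt isCompact_Icc (contDiff_infty.1 hG k)
  have key2 : ∀ (a b : ℝ) y v, fderiv ℝ (fun y => ∫ t in Ioc a b, G (y, t)) y v =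
      ∫ t in Ioc a b, fderiv ℝ G (y, t) (v, 0) := fun a b y v => by
    simp only [← integral_Icc_eq_integral_Ioc]
    exact (dpoin_fderiv isCompact_Icc (hG.of_le (by simp)) y).2 v
  refine ⟨(key a b).sub (key b a), fun y v => ?_⟩
  simp only [intervalIntegral]
  rw [fderiv_fun_sub ((key a b).differentiable (by simp) y) ((key b a).differentiable (by simp) y),
    sub_apply, key2, key2]

section

variable {E A F : Type} [NormedAddCommGroup E] [NormedSpace ℝ E] [NormedAddCommGroup A]
  [NormedSpace ℝ A] [NormedAddCommGroup F] [NormedSpace ℝ F]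

theorem dpoin_comm [FiniteDimensional ℝ E] [CompleteSpace A] [CompleteSpace F]
    (L : (E →L[ℝ] F) →L[ℝ] A) {G : E × ℝ → F} (hG : ContDiff ℝ ∞ G) (y : E) :
    L (fderiv ℝ (fun y => ∫ t in (0 : ℝ)..1, G (y, t)) y) =
      ∫ t in (0 : ℝ)..1, L (fderiv ℝ (fun y => G (y, t)) y) ∧
    Continuous fun t => L (fderiv ℝ (fun y => G (y, t)) y) := by
  have e1 : ∀ t, fderiv ℝ (fun y => G (y, t)) y =
      (fderiv ℝ G (y, t)).comp (ContinuousLinearMap.inl ℝ E ℝ) := fun t =>
    (HasFDerivAt.comp (g := G) (f := fun y : E => (y, t)) y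
      (hG.differentiable (by simp) (y, t)).hasFDerivAt (hasFDerivAt_prodMk_left y t)).fderiv
  have hc : Continuous fun t : ℝ => (fderiv ℝ G (y, t)).comp (ContinuousLinearMap.inl ℝ E ℝ) :=
    ((hG.continuous_fderiv (by simp)).comp (f := fun p : ℝ => (y, p)) (by fun_prop)).clm_comp
      continuous_const
  simp only [e1]
  refine ⟨?_, L.continuous.comp hc⟩
  rw [L.intervalIntegral_comp_comm (hc.intervalIntegrable _ _)]
  congr 1
  ext1 v
  rw [ContinuousLinearMap.intervalIntegral_apply (hc.intervalIntegrable _ _)]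
  exact (contDiff_param hG 0 1).2 y v

theorem dpoin_der (C : A →L[ℝ] E →L[ℝ] F) {α : E → A} (hα : Differentiable ℝ α) (a y : E)
    (c t : ℝ) : fderiv ℝ (fun y => c • C (α (a + t • (y - a))) (y - a)) y =
      c • (C (α (a + t • (y - a))) +
        t • (C.flip (y - a)).comp (fderiv ℝ α (a + t • (y - a)))) := by
  have e2 : HasFDerivAt (fun y : E => a + t • (y - a)) (t • ContinuousLinearMap.id ℝ E) y :=
    (((hasFDerivAt_id y).sub_const a).const_smul t).const_add a
  have e3 := C.hasFDerivAt.comp y ((hα _).hasFDerivAt.comp y e2)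
  have e4 := (e3.clm_apply ((hasFDerivAt_id y).sub_const a)).const_smul c
  refine e4.fderiv.trans ?_
  ext1 v
  simp [add_comm]

theorem dpoin_sm (C : A →L[ℝ] E →L[ℝ] F) {α : E → A} (hα : ContDiff ℝ ∞ α) (a : E) (k : ℕ) :
    ContDiff ℝ ∞ fun q : E × ℝ => q.2 ^ k • C (α (a + q.2 • (q.1 - a))) (q.1 - a) := by
  have h1 : ContDiff ℝ ∞ fun q : E × ℝ => C (α (a + q.2 • (q.1 - a))) :=
    C.contDiff.comp (hα.comp (f := fun q : E × ℝ => a + q.2 • (q.1 - a)) (by fun_prop))
  exact (contDiff_snd.pow k).smul (h1.clm_apply (by fun_prop))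

end

theorem dpoin_cur (n k : ℕ) : ∃ C : Alt n (k + 1) →L[ℝ] Eu n →L[ℝ] Alt n k,
    (∀ β, C β = β.curryLeft) ∧ ∀ (a : Eu n) (α : Eu n → Alt n (k + 1)), cone a α =
      fun y => ∫ t in (0 : ℝ)..1, t ^ k • C (α (a + t • (y - a))) (y - a) :=
  ⟨(ContinuousAlternatingMap.curryLeftLI (𝕜 := ℝ) (E := Eu n) (F := ℝ)
    (n := k)).toContinuousLinearMap, fun _ => rfl, fun _ _ => rfl⟩

theorem contDiff_cone (a : Eu n) {α : Eu n → Alt n (k + 1)} (hα : ContDiff ℝ ∞ α) :
    ContDiff ℝ ∞ (cone a α) := by
  obtain ⟨C, -, hC⟩ := dpoin_cur n k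
  rw [hC]
  exact (contDiff_param (dpoin_sm (E := Eu n) (A := Alt n (k + 1)) (F := Alt n k) C hα a k) 0 1).1

/-- With z = a + t (y - a): the derivative of the integrand in the direction v is
t^k ((α z).curryLeft v + t (Dα z v).curryLeft (y - a)); its alternatization is
(k+1) t^k α z + t^(k+1) Dα z (y - a) by `alternatizeUncurryFin_curryLeft`, `cartan` and
dα z = 0; this is the derivative in t of t^(k+1) α z. -/
theorem extDeriv_cone (a : Eu n) {α : Eu n → Alt n (k + 1)} (hα : ContDiff ℝ ∞ α) {y : Eu n}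
    (h : ∀ t ∈ Icc (0 : ℝ) 1, extDeriv α (a + t • (y - a)) = 0) :
    extDeriv (cone a α) y = α y := by
  have hαd : Differentiable ℝ α := hα.differentiable (by simp)
  obtain ⟨C, hC, hC'⟩ := dpoin_cur n k
  obtain ⟨h1, h2⟩ := dpoin_comm (ContinuousAlternatingMap.alternatizeUncurryFinCLM ℝ (Eu n) ℝ)
    (dpoin_sm (E := Eu n) (A := Alt n (k + 1)) (F := Alt n k) C hα a k) y
  simp only [dpoin_der (E := Eu n) (A := Alt n (k + 1)) (F := Alt n k) C hαd] at h1 h2
  rw [intervalIntegral.integral_eq_sub_of_hasDerivAt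
    (f := fun t : ℝ => t ^ (k + 1) • α (a + t • (y - a))) ?_ (h2.intervalIntegrable _ _)] at h1
  · rw [hC', extDeriv, ← ContinuousAlternatingMap.alternatizeUncurryFinCLM_apply, h1]
    simp
  intro t ht
  rw [uIcc_of_le zero_le_one] at ht
  have e1 : HasDerivAt (fun t : ℝ => a + t • (y - a)) (y - a) t := by
    simpa using ((hasDerivAt_id t).smul_const (y - a)).const_add a
  have e2 := (hαd _).hasFDerivAt.comp_hasDerivAt t e1
  have e3 := (hasDerivAt_pow (k + 1) t).smul e2
  have e4 := cartan (fderiv ℝ α (a + t • (y - a)))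
    ((C.flip (y - a)).comp (fderiv ℝ α (a + t • (y - a)))) (y - a) fun v => by simp [hC]
  have e5 := h t ht
  rw [extDeriv] at e5
  rw [e5, ContinuousAlternatingMap.curryLeft_zero, zero_apply, eq_comm, sub_eq_zero] at e4
  refine e3.congr_deriv ?_
  rw [map_smul, map_add, map_smul]
  simp only [ContinuousAlternatingMap.alternatizeUncurryFinCLM_apply, hC, ← e4,
    ContinuousAlternatingMap.alternatizeUncurryFin_curryLeft,
    Function.comp_apply, Nat.add_sub_cancel, smul_add, smul_smul, ← pow_succ]
  rw [← Nat.cast_smul_eq_nsmul ℝ, smul_smul, mul_comm (t ^ k)]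
  exact add_comm _ _

theorem dpoin_scale {B : Set (Eu n)} (hB : MeasurableSet B) (hc : Convex ℝ B)
    {g : Eu n → ENNReal} (hg : Measurable g) {a : Eu n} (ha : a ∈ B) {s : ℝ} (h1 : 1 / 2 ≤ s)
    (h2 : s ≤ 1) : ∫⁻ y in B, g (a + s • (y - a)) ≤ 2 ^ n * ∫⁻ y in B, g y := by
  have hs : 0 < s := by linarith
  have hi : Measurable (B.indicator g) := hg.indicator hB
  calc ∫⁻ y in B, g (a + s • (y - a)) ≤ ∫⁻ y, B.indicator g ((a - s • a) + s • y) := by
        rw [← lintegral_indicator hB]
        refine lintegral_mono fun y => ?_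
        by_cases hy : y ∈ B
        · have e : (a - s • a) + s • y = a + s • (y - a) := by rw [smul_sub]; abel
          rw [indicator_of_mem hy, e, indicator_of_mem (hc.add_smul_sub_mem ha hy ⟨hs.le, h2⟩)]
        · simp [hy]
    _ = ∫⁻ z, B.indicator g ((a - s • a) + z) ∂(Measure.map (s • ·) volume) := by
        exact (lintegral_map (f := fun z => B.indicator g ((a - s • a) + z))
          (hi.comp (measurable_const_add _)) (measurable_const_smul s)).symm
    _ = ENNReal.ofReal |(s ^ n)⁻¹| * ∫⁻ y in B, g y := by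
        rw [Measure.map_addHaar_smul _ hs.ne', lintegral_smul_measure,
          lintegral_add_left_eq_self (B.indicator g), lintegral_indicator hB]
        simp
    _ ≤ _ := by
        gcongr
        have e : |(s ^ n)⁻¹| ≤ 2 ^ n := by
          rw [abs_of_pos (by positivity), ← inv_pow]
          gcongr
          rw [inv_le_comm₀ hs two_pos]
          linarith
        calc _ ≤ ENNReal.ofReal (2 ^ n) := ENNReal.ofReal_le_ofReal e
          _ = _ := by rw [ENNReal.ofReal_pow two_pos.le]; simp

theorem dpoin_pair {B : Set (Eu n)} (hB : MeasurableSet B) (hc : Convex ℝ B)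
    {g : Eu n → ENNReal} (hg : Measurable g) {t : ℝ} (ht : t ∈ Ioc (0 : ℝ) 1) :
    ∫⁻ a in B, ∫⁻ y in B, g (a + t • (y - a)) ≤ (2 ^ n * ∫⁻ y in B, g y) * volume B := by
  rcases le_total (1 / 2) t with h | h
  · rw [← setLIntegral_const]
    exact setLIntegral_mono' hB fun a ha => dpoin_scale hB hc hg ha h ht.2
  · rw [lintegral_lintegral_swap (f := fun a y : Eu n => g (a + t • (y - a)))
      (Measurable.aemeasurable (hg.comp (f := fun z : Eu n × Eu n => z.1 + t • (z.2 - z.1))
        (by fun_prop))), ← setLIntegral_const]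
    refine setLIntegral_mono' hB fun y hy => ?_
    have e : ∀ a : Eu n, a + t • (y - a) = y + (1 - t) • (a - y) := fun a => by
      rw [sub_smul, one_smul, smul_sub, smul_sub]; abel
    simp only [e]
    exact dpoin_scale hB hc hg hy (by linarith) (by linarith [ht.1])

/-- A good vertex. For each t the integral of f (a + t (y - a)) over (a, y) in B × B is at most
2^n vol(B) times the integral of f over B: for t ≥ 1/2 substitute in y, for t ≤ 1/2 in a
(B is convex; use lower integrals, `lintegral_lintegral_swap`, `Measure.map_addHaar_smul` or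
`lintegral_add_left_eq_self` and `Measure.lintegral_comp_smul`-like lemmas). Then take a point
below the average (`exists_le_setLAverage`). -/
theorem exists_vertex (x : Eu n) {r : ℝ} (hr : 0 < r) {f : Eu n → ℝ} (hf : Continuous f)
    (h0 : ∀ y, 0 ≤ f y) : ∃ a ∈ ball x r,
      ∫ y in ball x r, ∫ t in (0 : ℝ)..1, f (a + t • (y - a)) ≤ 2 ^ n * ∫ y in ball x r, f y := by
  set B := ball x r with hBd
  have hB : MeasurableSet B := measurableSet_ball
  have hc : Convex ℝ B := convex_ball x r
  have hv0 : volume B ≠ 0 := (measure_ball_pos _ x hr).ne'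
  have hv1 : volume B ≠ ⊤ := measure_ball_lt_top.ne
  set g : Eu n → ENNReal := fun y => ENNReal.ofReal (f y) with hgd
  have hg : Measurable g := hf.measurable.ennreal_ofReal
  have hm : Measurable fun q : Eu n × ℝ => ∫⁻ y in B, g (q.1 + q.2 • (y - q.1)) :=
    Measurable.lintegral_prod_right' (f := fun z : (Eu n × ℝ) × Eu n =>
      g (z.1.1 + z.1.2 • (z.2 - z.1.1))) (hg.comp (by fun_prop))
  obtain ⟨a, ha, hle⟩ := exists_le_setLAverage (μ := volume) (s := B)
    (f := fun a => ∫⁻ t in Ioc (0 : ℝ) 1, ∫⁻ y in B, g (a + t • (y - a))) hv0 hv1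
    (Measurable.lintegral_prod_right' hm).aemeasurable
  refine ⟨a, ha, ?_⟩
  have h1 : ∫⁻ t in Ioc (0 : ℝ) 1, ∫⁻ y in B, g (a + t • (y - a)) ≤ 2 ^ n * ∫⁻ y in B, g y := by
    refine hle.trans ?_
    rw [setLAverage_eq, lintegral_lintegral_swap hm.aemeasurable]
    refine ENNReal.div_le_of_le_mul ?_
    refine (setLIntegral_mono' measurableSet_Ioc fun t ht => dpoin_pair hB hc hg ht).trans ?_
    simp
  rw [lintegral_lintegral_swap (f := fun (t : ℝ) (y : Eu n) => g (a + t • (y - a)))
    (Measurable.aemeasurable (hg.comp (f := fun z : ℝ × Eu n => a + z.1 • (z.2 - a))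
      (by fun_prop)))] at h1
  have hint : ∀ {F : Eu n → ℝ}, Continuous F → IntegrableOn F B := fun hF =>
    (hF.continuousOn.integrableOn_compact (isCompact_closedBall x r)).mono_set
      ball_subset_closedBall
  have hF : Continuous fun y : Eu n => ∫ t in (0 : ℝ)..1, f (a + t • (y - a)) :=
    intervalIntegral.continuous_parametric_intervalIntegral_of_continuous'
      (f := fun (y : Eu n) (t : ℝ) => f (a + t • (y - a))) (hf.comp (by fun_prop)) 0 1
  have hin : ∀ y : Eu n, ENNReal.ofReal (∫ t in (0 : ℝ)..1, f (a + t • (y - a))) =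
      ∫⁻ t in Ioc (0 : ℝ) 1, g (a + t • (y - a)) := fun y => by
    rw [intervalIntegral.integral_of_le zero_le_one]
    exact ofReal_integral_eq_lintegral_ofReal
      (Continuous.integrableOn_Ioc (hf.comp (by fun_prop))) (ae_of_all _ fun t => h0 _)
  rw [← ENNReal.ofReal_le_ofReal_iff (mul_nonneg (by positivity) (integral_nonneg h0)),
    ofReal_integral_eq_lintegral_ofReal (hint hF)
      (ae_of_all _ fun y => intervalIntegral.integral_nonneg zero_le_one fun t _ => h0 _),
    ENNReal.ofReal_mul (by positivity), ofReal_integral_eq_lintegral_ofReal (hint hf)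
      (ae_of_all _ h0), ENNReal.ofReal_pow two_pos.le]
  simpa [hin] using h1

theorem dpoin_cs {h : ℝ → ℝ} (hh : Continuous h) :
    (∫ t in (0 : ℝ)..1, h t) ^ 2 ≤ ∫ t in (0 : ℝ)..1, h t ^ 2 := by
  set m := ∫ t in (0 : ℝ)..1, h t with hm
  have h1 : ∫ t in (0 : ℝ)..1, (2 * m * h t - m ^ 2) ≤ ∫ t in (0 : ℝ)..1, h t ^ 2 :=
    intervalIntegral.integral_mono_on zero_le_one (Continuous.intervalIntegrable (by fun_prop) _ _)
      (Continuous.intervalIntegrable (by fun_prop) _ _) fun t _ => by nlinarith [sq_nonneg (h t - m)]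
  rw [intervalIntegral.integral_sub (Continuous.intervalIntegrable (by fun_prop) _ _)
    (Continuous.intervalIntegrable (by fun_prop) _ _), intervalIntegral.integral_const_mul,
    intervalIntegral.integral_const, ← hm] at h1
  simp only [sub_zero, smul_eq_mul, one_mul] at h1
  linarith

/-- The norm of `cone a α y` is at most 2 r times the integral of the norm of α on the segment;
Cauchy-Schwarz (or Jensen) on [0, 1]; `exists_vertex` for the square of the norm of α. -/
theorem poincare (x : Eu n) {r : ℝ} (hr : 0 < r) {α : Eu n → Alt n (k + 1)}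
    (hα : ContDiff ℝ ∞ α) (h : ∀ y ∈ ball x r, extDeriv α y = 0) :
    ∃ κ : Eu n → Alt n k, ContDiff ℝ ∞ κ ∧ (∀ y ∈ ball x r, extDeriv κ y = α y) ∧
      ∫ y in ball x r, ‖κ y‖ ^ 2 ≤ 4 * r ^ 2 * 2 ^ n * ∫ y in ball x r, ‖α y‖ ^ 2 := by
  have hc := hα.continuous
  obtain ⟨a, ha, hle⟩ := exists_vertex x hr (f := fun y => ‖α y‖ ^ 2) (by fun_prop)
    fun y => by positivity
  refine ⟨cone a α, contDiff_cone a hα, fun y hy => extDeriv_cone a hα fun t ht =>
    h _ ((convex_ball x r).add_smul_sub_mem ha hy ht), ?_⟩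
  have hint : ∀ {F : Eu n → ℝ}, Continuous F → IntegrableOn F (ball x r) := fun hF =>
    (hF.continuousOn.integrableOn_compact (isCompact_closedBall x r)).mono_set
      ball_subset_closedBall
  have hF : Continuous fun y : Eu n => ∫ t in (0 : ℝ)..1, ‖α (a + t • (y - a))‖ ^ 2 :=
    intervalIntegral.continuous_parametric_intervalIntegral_of_continuous'
      (f := fun (y : Eu n) (t : ℝ) => ‖α (a + t • (y - a))‖ ^ 2)
      (((hc.comp (by fun_prop)).norm).pow 2) 0 1
  have hκ := (contDiff_cone a hα).continuous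
  calc ∫ y in ball x r, ‖cone a α y‖ ^ 2
      ≤ ∫ y in ball x r, 4 * r ^ 2 * ∫ t in (0 : ℝ)..1, ‖α (a + t • (y - a))‖ ^ 2 := by
        refine setIntegral_mono_on (hint (by fun_prop)) (hint (continuous_const.mul hF))
          measurableSet_ball fun y hy => ?_
        have hya : ‖y - a‖ ≤ 2 * r := by
          rw [← dist_eq_norm]
          linarith [dist_triangle_right y a x, mem_ball.1 hy, mem_ball.1 ha]
        have h1 : ‖cone a α y‖ ≤ ∫ t in (0 : ℝ)..1, 2 * r * ‖α (a + t • (y - a))‖ := by
          refine intervalIntegral.norm_integral_le_of_norm_le zero_le_one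
            (ae_of_all _ fun t ht => ?_) (Continuous.intervalIntegrable (by fun_prop) _ _)
          rw [norm_smul, norm_pow, Real.norm_of_nonneg ht.1.le]
          have h2 := (α (a + t • (y - a))).curryLeft.le_opNorm (y - a)
          rw [ContinuousAlternatingMap.norm_curryLeft] at h2
          calc _ ≤ 1 * (‖α (a + t • (y - a))‖ * (2 * r)) := by
                gcongr
                · exact pow_le_one₀ ht.1.le ht.2
                · exact h2.trans (by gcongr)
            _ = _ := by ring
        rw [intervalIntegral.integral_const_mul] at h1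
        have h3 := dpoin_cs (h := fun t : ℝ => ‖α (a + t • (y - a))‖) (by fun_prop)
        calc _ ≤ (2 * r * ∫ t in (0 : ℝ)..1, ‖α (a + t • (y - a))‖) ^ 2 := by gcongr
          _ = 4 * r ^ 2 * (∫ t in (0 : ℝ)..1, ‖α (a + t • (y - a))‖) ^ 2 := by ring
          _ ≤ _ := by gcongr
    _ ≤ _ := by
        rw [integral_const_mul, mul_assoc (4 * r ^ 2)]
        gcongr

/-- Degree zero: a closed 0-form is constant on a ball (`extDeriv_apply`, the derivative
vanishes, `IsOpen.exists_is_const_of_fderiv_eq_zero` or the convex version). -/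
theorem const_of_closed (x : Eu n) (r : ℝ) {α : Eu n → Alt n 0}
    (hα : DifferentiableOn ℝ α (ball x r)) (h : ∀ y ∈ ball x r, extDeriv α y = 0) :
    ∃ v, ∀ y ∈ ball x r, α y = v := by
  refine isOpen_ball.exists_is_const_of_fderiv_eq_zero (convex_ball x r).isPreconnected hα
    fun y hy => ?_
  ext w v
  have h1 := congrArg (fun β : Alt n 1 => β ![w]) (h y hy)
  simp only [extDeriv, ContinuousAlternatingMap.alternatizeUncurryFin_apply] at h1
  rw [Subsingleton.elim v (Fin.removeNth 0 ![w])]
  simpa using h1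

end Pool.Agent.Lib.MP_75c153_gt.Dc
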