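import Mathlib

/-! From uniform sums along a geometric sequence of times to the large time integral. -/

open MeasureTheory Filter Topology Set

namespace Pool.Agent.Lib.MP_75c153_gt.Dc

/-- On the interval from 2 * 4^j + 2 to 2 * 4^(j+1) + 2 the integrand is at most
(θ (2 * 4^j + 2) - b) / (2 * 4^j + 2) and the length is at most 3 (2 * 4^j + 2); θ - b ≥ 0 by
monotonicity. Use `integrableOn_Ioi_of_intervalIntegral_norm_bounded`,
`intervalIntegral.sum_integral_adjacent_intervals`, and `AntitoneOn.intervalIntegrable`. -/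
theorem integrable_of_sum {θ : ℝ → ℝ} (m : AntitoneOn θ (Ioi 0)) {b : ℝ}
    (hb : Tendsto θ atTop (𝓝 b)) {C : ℝ}
    (h : ∀ M, ∑ j ∈ Finset.range M, (θ (2 * 4 ^ j + 2) - b) ≤ C) :
    IntegrableOn (fun t => t⁻¹ * (θ t - b)) (Ioi 1) := by
  have h0 : ∀ t, 0 < t → 0 ≤ θ t - b := fun t ht => sub_nonneg.2 (le_of_tendsto hb (by
    filter_upwards [eventually_ge_atTop t] with u hu
    exact m ht (ht.trans_le hu) hu))
  have h1 : AntitoneOn (fun t => t⁻¹ * (θ t - b)) (Ioi 0) := fun u hu v hv huv =>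
    mul_le_mul (inv_anti₀ hu huv) (sub_le_sub_right (m hu hv huv) b) (h0 v hv)
      (inv_nonneg.2 (le_of_lt hu))
  have h2 : ∀ u v : ℝ, 0 < u → IntegrableOn (fun t => t⁻¹ * (θ t - b)) (Ioc u v) := fun u v hu =>
    ((h1.mono fun t ht => hu.trans_le ht.1).integrableOn_isCompact isCompact_Icc).mono_set
      Ioc_subset_Icc_self
  have ha : ∀ j : ℕ, (0 : ℝ) < 2 * 4 ^ j + 2 := fun j => by positivity
  have h3 := integrableOn_iUnion_of_summable_integral_norm
    (s := fun j : ℕ => Ioc (2 * 4 ^ j + 2 : ℝ) (2 * 4 ^ (j + 1) + 2)) (fun j => h2 _ _ (ha j))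
    (Summable.of_norm_bounded ((summable_of_sum_range_le (fun j => h0 _ (ha j)) h).mul_left 3)
      fun j => by
        have h4 : (0 : ℝ) < 4 ^ j := by positivity
        refine (norm_setIntegral_le_of_norm_le_const (C := (2 * 4 ^ j + 2)⁻¹ *
          (θ (2 * 4 ^ j + 2) - b)) measure_Ioc_lt_top fun t ht => ?_).trans ?_
        · have h5 := (ha j).trans ht.1
          rw [norm_norm, Real.norm_of_nonneg (mul_nonneg (inv_nonneg.2 h5.le) (h0 t h5))]
          exact h1 (ha j) h5 ht.1.le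
        · rw [Real.volume_real_Ioc_of_le (by rw [pow_succ]; linarith), mul_right_comm]
          refine mul_le_mul_of_nonneg_right ?_ (h0 _ (ha j))
          rw [inv_mul_le_iff₀ (ha j), pow_succ]
          linarith)
  refine ((h2 1 4 one_pos).union h3).mono_set fun t ht => ?_
  by_cases h4 : t ≤ 4
  · exact Or.inl ⟨ht, h4⟩
  obtain ⟨j, h5, h6⟩ := exists_nat_pow_near (x := (t - 2) / 2) (y := 4) (by linarith) (by norm_num)
  rcases h5.eq_or_lt with h5 | h5
  · cases j with
    | zero => exact absurd (by rw [pow_zero] at h5; linarith) h4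
    | succ j =>
      have h7 : (0 : ℝ) < 4 ^ j := by positivity
      exact Or.inr (mem_iUnion.2 ⟨j, by rw [pow_succ] at h5; linarith, by linarith⟩)
  · exact Or.inr (mem_iUnion.2 ⟨j, by linarith, by linarith⟩)

/-- Each φ i has a limit b i ≤ φ i S (antitone and bounded below). Fix M and ε, take S with
θ S ≤ b + ε and i such that φ i is close to θ at S, at 2 and at the M times of the sum. -/
theorem det_limit {θ : ℝ → ℝ} {φ : ℕ → ℝ → ℝ} (m : AntitoneOn θ (Ioi 0))
    (n : ∀ i, AntitoneOn (φ i) (Ioi 0)) (n0 : ∀ i t, 0 ≤ φ i t)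
    (l : ∀ T ε : ℝ, 0 < ε → ∀ᶠ i in atTop, ∀ t ∈ Ioc (0 : ℝ) T, |φ i t - θ t| ≤ ε * t) {C : ℝ}
    (hC : 0 ≤ C) (h : ∀ i b, Tendsto (φ i) atTop (𝓝 b) → ∀ M,
      ∑ j ∈ Finset.range M, (φ i (2 * 4 ^ j + 2) - b) ≤ C * (1 + φ i 2))
    {b : ℝ} (hb : Tendsto θ atTop (𝓝 b)) :
    IntegrableOn (fun t => t⁻¹ * (θ t - b)) (Ioi 1) := by
  have hl : ∀ t, 0 < t → Tendsto (fun i => φ i t) atTop (𝓝 (θ t)) := fun t ht =>
    Metric.tendsto_nhds.2 fun ε hε => by
      filter_upwards [l t (ε / 2 / t) (by positivity)] with i hi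
      have := hi t ⟨ht, le_rfl⟩
      rw [div_mul_cancel₀ _ ht.ne'] at this
      rw [Real.dist_eq]
      linarith
  have key : ∀ i S, 0 < S → ∀ M,
      ∑ j ∈ Finset.range M, (φ i (2 * 4 ^ j + 2) - φ i S) ≤ C * (1 + φ i 2) := fun i S hS M => by
    have h1 : Antitone fun t => φ i (max t S) := fun u v huv =>
      n i (lt_max_of_lt_right hS) (lt_max_of_lt_right hS) (max_le_max_right S huv)
    have h2 : BddBelow (range fun t => φ i (max t S)) := ⟨0, forall_mem_range.2 fun t => n0 i _⟩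
    have h3 : Tendsto (φ i) atTop (𝓝 (⨅ t, φ i (max t S))) :=
      (tendsto_atTop_ciInf h1 h2).congr' (by
        filter_upwards [eventually_ge_atTop S] with t ht
        rw [max_eq_left ht])
    refine le_trans (Finset.sum_le_sum fun j _ => sub_le_sub_left ?_ _) (h i _ h3 M)
    exact (ciInf_le h2 S).trans_eq (by rw [max_self])
  refine integrable_of_sum m hb (C := C * (1 + θ 2)) fun M => ?_
  refine le_of_tendsto (tendsto_finsetSum _ fun j _ => hb.const_sub (θ (2 * 4 ^ j + 2))) ?_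
  filter_upwards [eventually_gt_atTop 0] with S hS
  exact le_of_tendsto_of_tendsto' (tendsto_finsetSum _ fun j _ =>
    (hl _ (by positivity)).sub (hl S hS)) (((hl 2 two_pos).const_add 1).const_mul C)
    fun i => key i S hS M

end Pool.Agent.Lib.MP_75c153_gt.Dc
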