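import Pool.Agent.Lib.MP_75c153_gt.Ft.MT
import Pool.Agent.Lib.MP_75c153_gt.Ft.MS

/-! Large time bounds for heat traces from a spectral gap outside a finite dimensional space. -/

open MeasureTheory Filter Topology Set
open scoped InnerProductSpace
open Pool.Agent.Lib.MP_570070_gt.An Pool.Agent.Lib.MP_75c153_gt.Ft

namespace Pool.Agent.Lib.MP_75c153_gt.Dc

section

variable {A K : Type} [NormedAddCommGroup A] [InnerProductSpace ℝ A] [CompleteSpace A]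
  [NormedAddCommGroup K] [InnerProductSpace ℝ K] {Γ : Submodule ℝ (A × K)}
  {P : ℝ → A →L[ℝ] A}

theorem dtail_par {x y z : ℝ} (hx : 0 ≤ x) (h : x ≤ y + z) : x ^ 2 ≤ 2 * y ^ 2 + 2 * z ^ 2 := by
  nlinarith [pow_le_pow_left₀ hx h 2, sq_nonneg (y - z)]

omit [CompleteSpace A] in
theorem dtail_cs (x y : A) : ⟪x, y⟫_ℝ ^ 2 ≤ ‖x‖ ^ 2 * ‖y‖ ^ 2 := by
  rw [← mul_pow]
  exact sq_le_sq' (abs_le.1 (abs_real_inner_le_norm _ _)).1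
    (abs_le.1 (abs_real_inner_le_norm _ _)).2

theorem dtail_proj (E : Submodule ℝ A) (v : A) : ∃ q : A, (∀ e ∈ E, ⟪e, v - q⟫_ℝ = 0) ∧
    (∀ u, (∀ e ∈ E, ⟪e, u⟫_ℝ = 0) → ⟪q, u⟫_ℝ = 0) ∧ ⟪q, v⟫_ℝ = ‖q‖ ^ 2 ∧
    ∀ M : ℝ, 0 ≤ M → (∀ e ∈ E, ⟪e, v⟫_ℝ ^ 2 ≤ M * ‖e‖ ^ 2) → ‖q‖ ^ 2 ≤ M := by
  obtain ⟨Q, e1, e2⟩ := exists_proj E
  have h1 : ∀ u, (∀ e ∈ E, ⟪e, u⟫_ℝ = 0) → ⟪Q v, u⟫_ℝ = 0 := fun u =>
    e2 v _ (isClosed_eq (continuous_id.inner continuous_const) continuous_const)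
  have h2 : ⟪Q v, v⟫_ℝ = ‖Q v‖ ^ 2 := by
    have := h1 _ (e1 v)
    rwa [inner_sub_right, real_inner_self_eq_norm_sq, sub_eq_zero] at this
  refine ⟨Q v, e1 v, h1, h2, fun M hM h => ?_⟩
  have h3 : ⟪Q v, v⟫_ℝ ^ 2 ≤ M * ‖Q v‖ ^ 2 := e2 v (fun e => ⟪e, v⟫_ℝ ^ 2 ≤ M * ‖e‖ ^ 2)
    (isClosed_le ((continuous_id.inner continuous_const).pow 2)
      (continuous_const.mul (continuous_norm.pow 2))) h
  rw [h2, sq] at h3
  rcases (sq_nonneg ‖Q v‖).eq_or_lt with h4 | h4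
  · exact h4 ▸ hM
  · exact le_of_mul_le_mul_right h3 h4

/-- Follow `tail_mix` (Ft/MT). With Q from `exists_fix` let T z = P (t + 1) (z - Q z); then
‖P (t + 1) z‖² = ‖Q z‖² + ‖T z‖², ‖Q z‖ ≤ ‖P s z‖, ‖T z‖ ≤ ‖z‖, T z is orthogonal to the harmonic
vectors and (T z, ξ) ∈ Γ with 2 t ‖ξ‖² ≤ ‖P 1 z‖² (`grad_le`). Let c be an orthonormal basis of the
image of W under the adjoint of T, z₁ = ∑ ⟪c l, z⟫ c l and z₀ = z - z₁. Then T z₀ is orthogonal to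
W, so ‖T z‖² ≤ 2 ‖T z₀‖² + 2 ‖z₁‖² and ‖T z₀‖² ≤ a / (2 t) (2 ‖P 1 z‖² + 2 ‖z₁‖²). Sum over the
orthonormal family U g (e j); the sum of ‖z₁‖² is at most the dimension of W (`bessel`). -/
theorem tail_nat (hP : IsHeat₂ Γ P) {S : Submodule ℝ A} {ι : Type} [Fintype ι] [Nonempty ι]
    (𝒯 : Tiling P S ι) (hf : ∀ t, 0 < t → trOn (S : Set A) (P t) ≠ ⊤)
    (W : Submodule ℝ A) [FiniteDimensional ℝ W] {a : ℝ} (ha : 0 ≤ a)
    (hW : ∀ v ξ, (v, ξ) ∈ Γ → (∀ w ∈ W, ⟪w, v⟫_ℝ = 0) →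
      (∀ h, (h, (0 : K)) ∈ Γ → ⟪h, v⟫_ℝ = 0) → ‖v‖ ^ 2 ≤ a * ‖ξ‖ ^ 2)
    {b : ℝ} (hb : Tendsto (fun t => (trOn (S : Set A) (P t)).toReal) atTop (𝓝 b))
    {t : ℝ} (ht : 0 < t) :
    (trOn (S : Set A) (P (2 * t + 2))).toReal - b ≤
      (2 + 2 * a / t) * Module.finrank ℝ W / Fintype.card ι +
        2 * a / t * (trOn (S : Set A) (P 2)).toReal := by
  obtain ⟨Q, q1, q2, q3, q4, q5⟩ := exists_fix hP
  have ht1 : 0 ≤ t + 1 := by positivity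
  have py : ∀ s, 0 ≤ s → ∀ z, ‖P s z‖ ^ 2 = ‖Q z‖ ^ 2 + ‖P s (z - Q z)‖ ^ 2 := fun s hs z => by
    have := norm_add_sq_real (Q (P s z)) (P s z - Q (P s z))
    rw [q3, add_sub_cancel, q2 s hs] at this
    rw [map_sub, q1 s hs]
    linarith
  obtain ⟨T, hT⟩ : ∃ T : A →L[ℝ] A, ∀ z, T z = P (t + 1) (z - Q z) :=
    ⟨P (t + 1) - Q, fun z => by rw [map_sub, q1 _ ht1]; rfl⟩
  obtain ⟨c, hc, -, hc2⟩ := exists_onb (W.map (ContinuousLinearMap.adjoint T).toLinearMap)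
  have key : ∀ z s, 0 ≤ s → ‖P (t + 1) z‖ ^ 2 ≤ ‖P s z‖ ^ 2 +
      (2 + 2 * a / t) * ∑ l, ⟪c l, z⟫_ℝ ^ 2 + 2 * a / t * ‖P 1 z‖ ^ 2 := fun z s hs => by
    have e2 := norm_sq_sum_smul hc fun l => ⟪c l, z⟫_ℝ
    have e3 : ∀ l, ⟪c l, z - ∑ l, ⟪c l, z⟫_ℝ • c l⟫_ℝ = 0 := fun l => by
      rw [inner_sub_right, hc.inner_right_fintype, sub_self]
    rw [← e2]
    generalize ∑ l, ⟪c l, z⟫_ℝ • c l = w at e3 ⊢
    obtain ⟨ξ, hξ, hle⟩ := hP.grad_le ht (P 1 (z - w - Q (z - w)))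
    rw [← hP.add ht.le zero_le_one, ← hT] at hξ
    have h1 := hW _ ξ hξ (fun u hu => by
      rw [← ContinuousLinearMap.adjoint_inner_left]
      exact atail0_zero hc2 (Submodule.mem_map_of_mem hu) e3) fun h hh => by
      rw [← q5 h hh, hT, map_sub (P _), q1 _ ht1, ← q2 _ ht1 (z - w), q3]
    have h2 := dtail_par (norm_nonneg _) (norm_le_norm_add_norm_sub' (T z) (T w))
    have h3 := dtail_par (norm_nonneg _) (norm_sub_le (P 1 z) (P 1 w))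
    rw [← map_sub] at h2 h3
    have h4 := pow_le_pow_left₀ (norm_nonneg _) (hP.norm_le zero_le_one w) 2
    have h5 := pow_le_pow_left₀ (norm_nonneg _) (hP.norm_le ht1 w) 2
    have h6 := py 1 zero_le_one (z - w)
    have h7 : ‖ξ‖ ^ 2 ≤ (‖P 1 z‖ ^ 2 + ‖w‖ ^ 2) / t := by
      rw [le_div_iff₀ ht]
      linarith [sq_nonneg ‖Q (z - w)‖]
    have h8 := h1.trans (mul_le_mul_of_nonneg_left h7 ha)
    rw [py _ ht1, ← hT] at h5 ⊢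
    rw [py s hs]
    rw [div_eq_mul_inv] at h8 ⊢
    linarith [sq_nonneg ‖Q w‖, sq_nonneg ‖P s (z - Q z)‖]
  rw [sub_le_comm]
  refine ge_of_tendsto hb ((eventually_gt_atTop 0).mono fun s hs => ?_)
  rw [sub_le_iff_le_add]
  refine hP.tr_le_of_sq (by positivity) fun m e he hS => ?_
  rw [show (2 * t + 2) / 2 = t + 1 by ring]
  have hcard : (0 : ℝ) < Fintype.card ι := Nat.cast_pos.2 Fintype.card_pos
  have hs' : ∀ s, 0 ≤ s → ∑ x : ι × Fin m, ‖P s (𝒯.U x.1 (e x.2))‖ ^ 2 =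
      Fintype.card ι * ∑ j, ‖P s (e j)‖ ^ 2 := fun s hs => by
    simp only [𝒯.comm _ s _ hs, LinearIsometryEquiv.norm_map, Fintype.sum_prod_type,
      Finset.sum_const, Finset.card_univ, nsmul_eq_mul]
  have h1 := Finset.sum_le_sum fun (x : ι × Fin m) (_ : x ∈ Finset.univ) =>
    key (𝒯.U x.1 (e x.2)) (s / 2) (by positivity)
  rw [Finset.sum_add_distrib, Finset.sum_add_distrib, ← Finset.mul_sum, ← Finset.mul_sum,
    hs' _ ht1, hs' _ zero_le_one, hs' _ (by positivity), Finset.sum_comm] at h1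
  have h2 : ∑ l, ∑ x : ι × Fin m, ⟪c l, 𝒯.U x.1 (e x.2)⟫_ℝ ^ 2 ≤ Module.finrank ℝ W := by
    refine (Finset.sum_le_card_nsmul _ _ 1 fun l _ => ?_).trans ?_
    · have h3 := bessel (𝒯.orthonormal he hS) (c l)
      rw [hc.1, one_pow] at h3
      simpa only [real_inner_comm] using h3
    · rw [Finset.card_univ, Fintype.card_fin, nsmul_one]
      exact Nat.cast_le.2 (Submodule.finrank_map_le _ _)
  have h5 := hP.sum_sq_le zero_le_two (hf 2 two_pos) he hS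
  rw [div_self two_ne_zero] at h5
  have h7 := hP.sum_sq_le hs.le (hf s hs) he hS
  refine le_of_mul_le_mul_left ?_ hcard
  rw [mul_add, mul_add, mul_div_cancel₀ _ hcard.ne']
  linarith [mul_le_mul_of_nonneg_left h7 hcard.le,
    mul_le_mul_of_nonneg_left h2 (by positivity : 0 ≤ 2 + 2 * a / t),
    mul_le_mul_of_nonneg_left h5 (by positivity : 0 ≤ 2 * a / t * Fintype.card ι)]

end

variable {H : ℕ → Type} [∀ k, NormedAddCommGroup (H k)] [∀ k, InnerProductSpace ℝ (H k)]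
  {D : ∀ k, H k → H (k + 1) → Prop}

/-- Exact test forms have bounded primitives modulo W. -/
def Prim (D : ∀ k, H k → H (k + 1) → Prop) (k : ℕ) (W : Submodule ℝ (H (k + 1))) (a : ℝ) : Prop :=
  ∀ x y, D k x y → ∃ x' y', D k x' y' ∧ y - y' ∈ W ∧ ‖x'‖ ^ 2 ≤ a * ‖y‖ ^ 2

/-- The same for the codifferentials of test forms. -/
def Cop (D : ∀ k, H k → H (k + 1) → Prop) (k : ℕ) (W : Submodule ℝ (H k)) (a : ℝ) : Prop :=
  ∀ φ ψ, (∃ x, D (k + 1) φ x) → WCod D k φ ψ → ∃ φ' ψ', (∃ x, D (k + 1) φ' x) ∧ WCod D k φ' ψ' ∧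
    ψ - ψ' ∈ W ∧ ‖φ'‖ ^ 2 ≤ a * ‖ψ‖ ^ 2

theorem dtail_C (hadd : ∀ k a b a' b', D k a b → D k a' b' → D k (a + a') (b + b'))
    (hsm : ∀ k (t : ℝ) a b, D k a b → D k (t • a) (t • b)) (hz : ∀ k, D k 0 0) (k : ℕ) :
    ∃ C : Submodule ℝ (H k), ∀ ψ, ψ ∈ C ↔ ∃ φ, (∃ x, D (k + 1) φ x) ∧ WCod D k φ ψ := by
  refine ⟨{
    carrier := {ψ | ∃ φ, (∃ x, D (k + 1) φ x) ∧ WCod D k φ ψ}
    add_mem' := ?_
    zero_mem' := ⟨0, ⟨0, hz _⟩, fun a b _ => by rw [inner_zero_right, inner_zero_right]⟩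
    smul_mem' := ?_ }, fun _ => Iff.rfl⟩
  · rintro _ _ ⟨φ, ⟨x, h1⟩, h2⟩ ⟨φ', ⟨x', h3⟩, h4⟩
    refine ⟨φ + φ', ⟨_, hadd _ _ _ _ _ h1 h3⟩, fun a b hab => ?_⟩
    rw [inner_add_right, inner_add_right, h2 a b hab, h4 a b hab]
  · rintro t _ ⟨φ, ⟨x, h1⟩, h2⟩
    refine ⟨t • φ, ⟨_, hsm _ t _ _ h1⟩, fun a b hab => ?_⟩
    rw [real_inner_smul_right, real_inner_smul_right, h2 a b hab]

theorem dtail_cop {k : ℕ} {W : Submodule ℝ (H k)} {a : ℝ} (hC : Cop D k W a) {v : H k}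
    {η : H (k + 1)} (hv : WD D k v η) (h1 : ∀ w ∈ W, ⟪w, v⟫_ℝ = 0) {ψ : H k}
    (h : ∃ φ, (∃ x, D (k + 1) φ x) ∧ WCod D k φ ψ) : ⟪ψ, v⟫_ℝ ^ 2 ≤ a * ‖η‖ ^ 2 * ‖ψ‖ ^ 2 := by
  obtain ⟨φ, p1, p2⟩ := h
  obtain ⟨φ', ψ', p3, p4, p5, p6⟩ := hC φ ψ p1 p2
  have h2 := h1 _ p5
  rw [inner_sub_left, sub_eq_zero] at h2
  rw [h2, real_inner_comm, hv φ' ψ' p3 p4]
  refine (dtail_cs _ _).trans ((mul_le_mul_of_nonneg_left p6 (sq_nonneg _)).trans_eq ?_)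
  ring

variable [∀ k, CompleteSpace (H k)]

/-- `StarPair.t'`, `StarPair.cod`, `WCod.unique`; `s * s = 1`. -/
theorem Prim.cop {k l : ℕ} {V : H k ≃ₗᵢ[ℝ] H (l + 1)} {V' : H (k + 1) ≃ₗᵢ[ℝ] H l} {s : ℝ}
    (h : StarPair D V V' s) (dense : Dense {a : H k | ∃ b, D k a b})
    {W : Submodule ℝ (H (l + 1))} {a : ℝ} (hW : Prim D l W a) :
    Cop D k (W.map V.symm.toLinearEquiv.toLinearMap) a := by
  intro φ ψ hφ hψ
  obtain ⟨x, hx⟩ := (h.t' φ).1 hφ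
  obtain ⟨x', y', h1, h2, h3⟩ := hW _ _ hx
  rw [← V'.apply_symm_apply x'] at h1
  rw [WCod.unique dense hψ (h.cod hx)]
  refine ⟨V'.symm x', _, (h.t' _).2 ⟨_, h1⟩, h.cod h1, ?_, ?_⟩
  · rw [← smul_sub, ← map_sub]
    exact Submodule.smul_mem _ _ (Submodule.mem_map_of_mem h2)
  · rwa [norm_smul, mul_pow, Real.norm_eq_abs, sq_abs, sq s, h.sq, one_mul,
      LinearIsometryEquiv.norm_map, LinearIsometryEquiv.norm_map]

/-- Degree zero. Let C be the span (in fact the set) of the codifferentials of test forms and Q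
the projection from `exists_proj`. For ψ in C, ⟪v, ψ⟫ = ⟪v, ψ'⟫ = ⟪dv, φ'⟫, so
⟪v, ψ⟫² ≤ a ‖dv‖² ‖ψ‖², also in the closure; v - Q v is harmonic, so ‖v‖² = ⟪v, Q v⟫, and
‖Q v‖ ≤ ‖v‖. -/
theorem nat_zero (hadd : ∀ k a b a' b', D k a b → D k a' b' → D k (a + a') (b + b'))
    (hsm : ∀ k (t : ℝ) a b, D k a b → D k (t • a) (t • b)) (hz : ∀ k, D k 0 0)
    {W : Submodule ℝ (H 0)} {a : ℝ} (ha : 0 ≤ a) (hC : Cop D 0 W a) (v : H 0) (ξ : KK H 0)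
    (hv : (v, ξ) ∈ domS D 0) (h1 : ∀ w ∈ W, ⟪w, v⟫_ℝ = 0)
    (h2 : ∀ h, (h, (0 : KK H 0)) ∈ domS D 0 → ⟪h, v⟫_ℝ = 0) : ‖v‖ ^ 2 ≤ a * ‖ξ‖ ^ 2 := by
  obtain ⟨C, hC'⟩ := dtail_C hadd hsm hz 0
  obtain ⟨q, c1, -, c3, c4⟩ := dtail_proj C v
  have h3 := h2 (v - q) ((mem_domS D).2 ⟨fun φ ψ p1 p2 => by
    rw [real_inner_comm, c1 ψ ((hC' ψ).2 ⟨φ, p1, p2⟩)]
    exact (inner_zero_left _).symm, rfl⟩)
  rw [inner_sub_left, real_inner_self_eq_norm_sq, c3, sub_eq_zero] at h3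
  rw [h3]
  exact (c4 _ (by positivity) fun e he =>
    dtail_cop hC ((mem_domS D).1 hv).1 h1 ((hC' e).1 he)).trans (mul_le_mul_of_nonneg_left
      (pow_le_pow_left₀ (norm_nonneg _) (WithLp.norm_fst_le _ ξ) 2) ha)

/-- Positive degree; follow `amix` (Ft/MT). E is the space of exact test forms, C as above; E and
C are orthogonal by `hdd`, also their closures; v - Q_E v - Q_C v is weakly closed and coclosed,
so ‖v‖² = ⟪v, Q_E v⟫ + ⟪v, Q_C v⟫ = ‖Q_E v‖² + ‖Q_C v‖², and ‖Q_E v‖² ≤ a ‖ξ.snd‖²,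
‖Q_C v‖² ≤ a ‖ξ.fst‖². -/
theorem nat_succ (hadd : ∀ k a b a' b', D k a b → D k a' b' → D k (a + a') (b + b'))
    (hsm : ∀ k (t : ℝ) a b, D k a b → D k (t • a) (t • b)) (hz : ∀ k, D k 0 0) {k : ℕ}
    (hdd : ∀ f b, D k f b → D (k + 1) b 0) {W W' : Submodule ℝ (H (k + 1))} {a : ℝ} (ha : 0 ≤ a)
    (hE : Prim D k W a) (hC : Cop D (k + 1) W' a) (v : H (k + 1)) (ξ : KK H (k + 1))
    (hv : (v, ξ) ∈ domS D (k + 1)) (h1 : ∀ w ∈ W ⊔ W', ⟪w, v⟫_ℝ = 0)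
    (h2 : ∀ h, (h, (0 : KK H (k + 1))) ∈ domS D (k + 1) → ⟪h, v⟫_ℝ = 0) :
    ‖v‖ ^ 2 ≤ a * ‖ξ‖ ^ 2 := by
  obtain ⟨hv1, hv2⟩ := (mem_domS D).1 hv
  obtain ⟨C, hC'⟩ := dtail_C hadd hsm hz (k + 1)
  obtain ⟨E, hE'⟩ : ∃ E : Submodule ℝ (H (k + 1)), ∀ b, b ∈ E ↔ ∃ g, D k g b := ⟨{
    carrier := {b | ∃ g, D k g b}
    add_mem' := fun ⟨_, p1⟩ ⟨_, p2⟩ => ⟨_, hadd _ _ _ _ _ p1 p2⟩
    zero_mem' := ⟨0, hz k⟩
    smul_mem' := fun t _ ⟨_, p1⟩ => ⟨_, hsm _ t _ _ p1⟩ }, fun _ => Iff.rfl⟩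
  obtain ⟨q, c1, c2, c3, c4⟩ := dtail_proj C v
  obtain ⟨p, e1, e2, e3, e4⟩ := dtail_proj E v
  have ec : ∀ e ∈ E, ∀ ψ ∈ C, ⟪e, ψ⟫_ℝ = 0 := fun e he ψ hψ => by
    obtain ⟨g, hg⟩ := (hE' e).1 he
    obtain ⟨φ, -, p2⟩ := (hC' ψ).1 hψ
    rw [← p2 e 0 (hdd g e hg), inner_zero_left]
  have h3 := h2 (v - p - q) ((mem_domS D).2 ⟨fun φ ψ p1 p2 => by
    have hψ := (hC' ψ).2 ⟨φ, p1, p2⟩
    rw [sub_right_comm, inner_sub_left, real_inner_comm, c1 ψ hψ,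
      e2 ψ fun e he => ec e he ψ hψ, sub_zero]
    exact (inner_zero_left _).symm, fun g b hb => by
    have he := (hE' b).2 ⟨g, hb⟩
    rw [inner_sub_right, e1 b he, real_inner_comm,
      c2 b fun ψ hψ => (real_inner_comm _ _).trans (ec b he ψ hψ), sub_zero]
    exact (inner_zero_right _).symm⟩)
  rw [inner_sub_left, inner_sub_left, real_inner_self_eq_norm_sq, c3, e3] at h3
  have h4 := c4 _ (by positivity) fun e he =>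
    dtail_cop hC hv1 (fun w hw => h1 w (Submodule.mem_sup_right hw)) ((hC' e).1 he)
  have h5 := e4 (a * ‖ξ.snd‖ ^ 2) (by positivity) fun e he => by
    obtain ⟨g, hg⟩ := (hE' e).1 he
    obtain ⟨x', y', p1, p2, p3⟩ := hE g e hg
    have h6 := h1 _ (Submodule.mem_sup_left p2)
    have h7 : ⟪y', v⟫_ℝ = ⟪x', (ξ.snd : H k)⟫_ℝ := hv2 x' y' p1
    rw [inner_sub_left, sub_eq_zero] at h6
    rw [h6, h7]
    refine (dtail_cs _ _).trans ((mul_le_mul_of_nonneg_right p3 (sq_nonneg _)).trans_eq ?_)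
    exact mul_right_comm _ _ _
  rw [WithLp.prod_norm_sq_eq_of_L2]
  linarith

/-- The sum over the times 2 * 4^j + 2 of `tail_nat` with t = 4^j and a = A * 2^j:
a / t ≤ A / 2^j ≤ A, and the sum of 1 / 2^j is at most 2. -/
theorem tail_sum {k : ℕ} {P : ℝ → H k →L[ℝ] H k} (hP : IsHeat (dom D k) P)
    {S : Submodule ℝ (H k)} {ι : Type} [Fintype ι] [Nonempty ι] (𝒯 : Tiling P S ι)
    (hf : ∀ t, 0 < t → trOn (S : Set (H k)) (P t) ≠ ⊤) {A B : ℝ} (hA : 0 ≤ A) (hB : 0 ≤ B)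
    {n : ℕ → ℕ} (hn : ∀ M, ∑ j ∈ Finset.range M, (n j : ℝ) ≤ B * Fintype.card ι)
    (hW : ∀ j, ∃ W : Submodule ℝ (H k), FiniteDimensional ℝ W ∧ Module.finrank ℝ W ≤ n j ∧
      ∀ v ξ, (v, ξ) ∈ domS D k → (∀ w ∈ W, ⟪w, v⟫_ℝ = 0) →
        (∀ h, (h, (0 : KK H k)) ∈ domS D k → ⟪h, v⟫_ℝ = 0) → ‖v‖ ^ 2 ≤ A * 2 ^ j * ‖ξ‖ ^ 2)
    {b : ℝ} (hb : Tendsto (fun t => (trOn (S : Set (H k)) (P t)).toReal) atTop (𝓝 b)) (M : ℕ) :
    ∑ j ∈ Finset.range M, ((trOn (S : Set (H k)) (P (2 * 4 ^ j + 2))).toReal - b) ≤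
      ((2 + 2 * A) * B + 4 * A) * (1 + (trOn (S : Set (H k)) (P 2)).toReal) := by
  have hcard : (0 : ℝ) < Fintype.card ι := Nat.cast_pos.2 Fintype.card_pos
  have hθ : 0 ≤ (trOn (S : Set (H k)) (P 2)).toReal := ENNReal.toReal_nonneg
  have h1 : ∀ j ∈ Finset.range M, (trOn (S : Set (H k)) (P (2 * 4 ^ j + 2))).toReal - b ≤
      (2 + 2 * A) / Fintype.card ι * n j +
        2 * A * (trOn (S : Set (H k)) (P 2)).toReal * (1 / 2) ^ j := fun j _ => by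
    obtain ⟨W, hW0, hW1, hW2⟩ := hW j
    refine (tail_nat (isHeat₂_of_isHeat hP) 𝒯 hf W (by positivity) hW2 hb
      (by positivity)).trans ?_
    have h2 : 2 * (A * 2 ^ j) / 4 ^ j = 2 * A * (1 / 2) ^ j := by
      rw [show (4 : ℝ) = 2 * 2 by norm_num, mul_pow, one_div, inv_pow]
      field_simp
    have h3 : 2 * A * (1 / 2) ^ j ≤ 2 * A :=
      mul_le_of_le_one_right (by positivity) (pow_le_one₀ (by norm_num) (by norm_num))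
    rw [h2, mul_right_comm (2 * A), div_mul_eq_mul_div]
    gcongr
  refine (Finset.sum_le_sum h1).trans ?_
  rw [Finset.sum_add_distrib, ← Finset.mul_sum, ← Finset.mul_sum]
  have h2 := mul_le_mul_of_nonneg_left (hn M) (by positivity : 0 ≤ (2 + 2 * A) / Fintype.card ι)
  have h3 := mul_le_mul_of_nonneg_left (sum_geometric_two_le M)
    (by positivity : 0 ≤ 2 * A * (trOn (S : Set (H k)) (P 2)).toReal)
  rw [mul_comm B, ← mul_assoc, div_mul_cancel₀ _ hcard.ne'] at h2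
  linarith [show 0 ≤ (2 + 2 * A) * B * (trOn (S : Set (H k)) (P 2)).toReal by positivity]

end Pool.Agent.Lib.MP_75c153_gt.Dc
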