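import Pool.Agent.Lib.MP_75c153_gt.Dc.DZig
import Pool.Agent.Lib.MP_75c153_gt.Dc.DTail
import Pool.Agent.Lib.MP_75c153_gt.Dc.DNum

/-! From the zig-zag to sums of heat traces. -/

open MeasureTheory Filter Topology Set
open scoped InnerProductSpace
open Pool.Agent.Lib.MP_570070_gt.An Pool.Agent.Lib.MP_75c153_gt.Ft

namespace Pool.Agent.Lib.MP_75c153_gt.Dc

section

variable {H : ℕ → Type} [∀ k, NormedAddCommGroup (H k)] [∀ k, InnerProductSpace ℝ (H k)]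

/-- Bounded primitives on all scales, modulo spaces whose dimensions have sum at most B. -/
def PrimS (D : ∀ k, H k → H (k + 1) → Prop) (l : ℕ) (C B : ℝ) : Prop :=
  ∃ n : ℕ → ℕ, (∀ M, ∑ j ∈ Finset.range M, (n j : ℝ) ≤ B) ∧
    ∀ j, ∃ W : Submodule ℝ (H (l + 1)), FiniteDimensional ℝ W ∧ Module.finrank ℝ W ≤ n j ∧
      Prim D l W (C * 2 ^ j)

variable {D : ∀ k, H k → H (k + 1) → Prop}

theorem PrimS.mono {l : ℕ} {C B C' B' : ℝ} (h : PrimS D l C B) (hC : C ≤ C') (hB : B ≤ B') :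
    PrimS D l C' B' := by
  obtain ⟨n, h1, h2⟩ := h
  refine ⟨n, fun M => (h1 M).trans hB, fun j => ?_⟩
  obtain ⟨W, h3, h4, h5⟩ := h2 j
  refine ⟨W, h3, h4, fun x y hxy => ?_⟩
  obtain ⟨x', y', h6, h7, h8⟩ := h5 x y hxy
  exact ⟨x', y', h6, h7, h8.trans (by gcongr)⟩

variable [∀ k, CompleteSpace (H k)]
  (hadd : ∀ k a b a' b', D k a b → D k a' b' → D k (a + a') (b + b'))
  (hsm : ∀ k (t : ℝ) a b, D k a b → D k (t • a) (t • b)) (hz : ∀ k, D k 0 0)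
  (dense : ∀ k, Dense {a : H k | ∃ b, D k a b})

include hadd hsm hz dense

theorem sum_zero {l : ℕ} {V : H 0 ≃ₗᵢ[ℝ] H (l + 1)} {V' : H (0 + 1) ≃ₗᵢ[ℝ] H l} {s : ℝ}
    (h : StarPair D V V' s) {P : ℝ → H 0 →L[ℝ] H 0} (hP : IsHeat (dom D 0) P)
    {S : Submodule ℝ (H 0)} {ι : Type} [Fintype ι] [Nonempty ι] (𝒯 : Tiling P S ι)
    (hf : ∀ t, 0 < t → trOn (S : Set (H 0)) (P t) ≠ ⊤) {C B : ℝ} (hC : 0 ≤ C) (hB : 0 ≤ B)
    (h1 : PrimS D l C (B * Fintype.card ι))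
    {b : ℝ} (hb : Tendsto (fun t => (trOn (S : Set (H 0)) (P t)).toReal) atTop (𝓝 b)) (M : ℕ) :
    ∑ j ∈ Finset.range M, ((trOn (S : Set (H 0)) (P (2 * 4 ^ j + 2))).toReal - b) ≤
      ((2 + 2 * C) * (2 * B) + 4 * C) * (1 + (trOn (S : Set (H 0)) (P 2)).toReal) := by
  obtain ⟨n, h2, h3⟩ := h1
  refine tail_sum hP 𝒯 hf hC (by positivity) (n := n) (fun M => (h2 M).trans (by
    nlinarith [mul_nonneg hB (Nat.cast_nonneg (Fintype.card ι))])) (fun j => ?_) hb M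
  obtain ⟨W, h4, h5, h6⟩ := h3 j
  exact ⟨_, inferInstance, (Submodule.finrank_map_le _ _).trans h5,
    nat_zero hadd hsm hz (by positivity) (h6.cop h (dense 0))⟩

theorem sum_succ {k l : ℕ} (hdd : ∀ f b, D k f b → D (k + 1) b 0)
    {V : H (k + 1) ≃ₗᵢ[ℝ] H (l + 1)} {V' : H (k + 1 + 1) ≃ₗᵢ[ℝ] H l} {s : ℝ}
    (h : StarPair D V V' s) {P : ℝ → H (k + 1) →L[ℝ] H (k + 1)} (hP : IsHeat (dom D (k + 1)) P)
    {S : Submodule ℝ (H (k + 1))} {ι : Type} [Fintype ι] [Nonempty ι] (𝒯 : Tiling P S ι)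
    (hf : ∀ t, 0 < t → trOn (S : Set (H (k + 1))) (P t) ≠ ⊤) {C B : ℝ} (hC : 0 ≤ C) (hB : 0 ≤ B)
    (h0 : PrimS D k C (B * Fintype.card ι)) (h1 : PrimS D l C (B * Fintype.card ι)) {b : ℝ}
    (hb : Tendsto (fun t => (trOn (S : Set (H (k + 1))) (P t)).toReal) atTop (𝓝 b)) (M : ℕ) :
    ∑ j ∈ Finset.range M, ((trOn (S : Set (H (k + 1))) (P (2 * 4 ^ j + 2))).toReal - b) ≤
      ((2 + 2 * C) * (2 * B) + 4 * C) * (1 + (trOn (S : Set (H (k + 1))) (P 2)).toReal) := by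
  obtain ⟨n, h2, h3⟩ := h0
  obtain ⟨n', h2', h3'⟩ := h1
  refine tail_sum hP 𝒯 hf hC (by positivity) (n := fun j => n j + n' j) (fun M => by
    push_cast
    rw [Finset.sum_add_distrib]
    linarith [h2 M, h2' M]) (fun j => ?_) hb M
  obtain ⟨W, h4, h5, h6⟩ := h3 j
  obtain ⟨W', h4', h5', h6'⟩ := h3' j
  exact ⟨_, inferInstance, (Submodule.finrank_add_le_finrank_add_finrank _ _).trans
    (add_le_add h5 ((Submodule.finrank_map_le _ _).trans h5')),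
    nat_succ hadd hsm hz hdd (by positivity) h6 (h6'.cop h (dense (k + 1)))⟩

end

/-- One pair of constants for all degrees that the number of levels allows. -/
theorem primS_of_cech {A : ℝ} (hA : 0 ≤ A) (N L : ℕ) : ∃ C B : ℝ, 0 ≤ C ∧ 0 ≤ B ∧
    ∀ {H : ℕ → Type} [∀ k, NormedAddCommGroup (H k)] [∀ k, InnerProductSpace ℝ (H k)] {ι : Type}
      [Fintype ι] (𝒞 : Cech H ι A N L) (D : ∀ k, H k → H (k + 1) → Prop),
      (∀ k a b, D k a b ↔ ∃ α, a = 𝒞.J k α ∧ b = 𝒞.J (k + 1) (𝒞.d k α)) →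
      ∀ l, 3 * l + 3 ≤ L → PrimS D l C (B * Fintype.card ι) := by
  choose C B hC hB h using solve hA N
  refine ⟨∑ l ∈ Finset.range L, C l, ∑ l ∈ Finset.range L, B l, Finset.sum_nonneg fun l _ => hC l,
    Finset.sum_nonneg fun l _ => hB l, ?_⟩
  intro H _ _ ι _ 𝒞 D hD l hl
  obtain ⟨n, h1, h2⟩ := h l 𝒞 hl
  have hl' : l ∈ Finset.range L := Finset.mem_range.2 (by omega)
  refine PrimS.mono ⟨n, h1, fun j => ?_⟩ (Finset.single_le_sum (fun l _ => hC l) hl')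
    (mul_le_mul_of_nonneg_right (Finset.single_le_sum (fun l _ => hB l) hl') (Nat.cast_nonneg _))
  obtain ⟨W, h3, h4, h5⟩ := h2 j
  refine ⟨W, h3, h4, fun x y hxy => ?_⟩
  obtain ⟨η, rfl, rfl⟩ := (hD l x y).1 hxy
  obtain ⟨β, h6, h7⟩ := h5 η
  exact ⟨_, _, (hD l _ _).2 ⟨β, rfl, rfl⟩, h6, h7⟩

end Pool.Agent.Lib.MP_75c153_gt.Dc
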