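import Mathlib

/-! An abstract form of the double complex of Cech and de Rham for a finite cover. -/

open Set

namespace Pool.Agent.Lib.MP_75c153_gt.Dc

noncomputable section

/-- The coboundary of a cochain on lists. -/
def cob {ι M : Type} [AddCommGroup M] : (List ι → M) → List ι → M
  | _, [] => 0
  | α, i :: I => α I - cob (fun J => α (i :: J)) I

/-- Test forms T k with values ev in E k at the points of X and classes J in H k; nested open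
covers O m, a partition of unity ρ with differentials w, local primitives. The numbers A and N
bound the norms of all operations and the number of neighbours, L is the number of levels. -/
structure Cech (H : ℕ → Type) [∀ k, NormedAddCommGroup (H k)] [∀ k, NormedSpace ℝ (H k)]
    (ι : Type) [Fintype ι] (A : ℝ) (N L : ℕ) where
  T : ℕ → Type
  [tg : ∀ k, AddCommGroup (T k)]
  [tm : ∀ k, Module ℝ (T k)]
  E : ℕ → Type
  [eg : ∀ k, AddCommGroup (E k)]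
  [em : ∀ k, Module ℝ (E k)]
  X : Type
  [top : TopologicalSpace X]
  J : ∀ k, T k →ₗ[ℝ] H k
  ev : ∀ k, X → T k →ₗ[ℝ] E k
  d : ∀ k, T k →ₗ[ℝ] T (k + 1)
  O : ℕ → ι → Set X
  nb : ι → Finset ι
  ρ : ι → X → ℝ
  w : ι → X → ∀ k, E k →ₗ[ℝ] E (k + 1)
  mul : ι → ∀ k, T k →ₗ[ℝ] T k
  wed : ι → ∀ k, T k →ₗ[ℝ] T (k + 1)
  cut : ι → ∀ k, T k → T k
  one : ι → T 0
  u : E 0
  J_ext : ∀ k α, (∀ x, ev k x α = 0) → J k α = 0
  isOpen : ∀ m i, IsOpen (O m i)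
  ne : ∀ i, (O 0 i).Nonempty
  d_loc : ∀ k α S, IsOpen S → (∀ x ∈ S, ev k x α = 0) → ∀ x ∈ S, ev (k + 1) x (d k α) = 0
  dd : ∀ k α x, ev (k + 1 + 1) x (d (k + 1) (d k α)) = 0
  mem_nb : ∀ i i', i' ∈ nb i ↔ (O 0 i ∩ O 0 i').Nonempty
  card_nb : ∀ i, (nb i).card ≤ N
  nest : ∀ m < L, ∀ i, ∀ i' ∈ nb i, O m i ⊆ O (m + 1) i'
  ev_mul : ∀ i k α x, ev k x (mul i k α) = ρ i x • ev k x α
  ev_wed : ∀ i k α x, ev (k + 1) x (wed i k α) = w i x k (ev k x α)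
  d_mul : ∀ i k α x, ev (k + 1) x (d k (mul i k α)) =
    ρ i x • ev (k + 1) x (d k α) + w i x k (ev k x α)
  sum_ρ : ∀ x, ∑ i, ρ i x = 1
  sum_w : ∀ x k v, ∑ i, w i x k v = 0
  supp : ∀ i x, x ∉ O 0 i → ρ i x = 0 ∧ ∀ k v, w i x k v = 0
  norm_mul : ∀ i k α, ‖J k (mul i k α)‖ ≤ ‖J k α‖
  norm_wed : ∀ i, ∀ k ≤ L, ∀ α, ‖J (k + 1) (wed i k α)‖ ≤ A * ‖J k α‖
  glue : ∀ k (β : ι → T k), ‖J k (∑ i, mul i k (β i))‖ ^ 2 ≤ ∑ i, ‖J k (β i)‖ ^ 2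
  ev_cut : ∀ i k α, ∀ x ∈ O L i, ev k x (cut i k α) = ev k x α
  norm_cut : ∀ k α, ∑ i, ‖J k (cut i k α)‖ ^ 2 ≤ A * ‖J k α‖ ^ 2
  ev_one : ∀ i, ∀ x ∈ O 0 i, ev 0 x (one i) = u
  d_one : ∀ i, ∀ x ∈ O 0 i, ev (0 + 1) x (d 0 (one i)) = 0
  norm_one : ∀ i, ‖J 0 (one i)‖ ≤ A
  const : ∀ m ≤ L, ∀ i α, (∀ x ∈ O m i, ev (0 + 1) x (d 0 α) = 0) →
    ∃ t : ℝ, ∀ x ∈ O m i, ev 0 x α = t • u
  le_norm : ∀ i α (t : ℝ), (∀ x ∈ O 0 i, ev 0 x α = t • u) → |t| ≤ A * ‖J 0 α‖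
  prim : ∀ m < L, ∀ k ≤ L, ∀ i α,
    (∀ x ∈ O (m + 1) i, ev (k + 1 + 1) x (d (k + 1) α) = 0) →
    ∃ κ, (∀ x ∈ O m i, ev (k + 1) x (d k κ) = ev (k + 1) x α) ∧ ‖J k κ‖ ≤ A * ‖J (k + 1) α‖

attribute [instance] Cech.tg Cech.tm Cech.eg Cech.em Cech.top

variable {H : ℕ → Type} [∀ k, NormedAddCommGroup (H k)] [∀ k, NormedSpace ℝ (H k)]
  {ι : Type} [Fintype ι] {A : ℝ} {N L : ℕ} (𝒞 : Cech H ι A N L) {k : ℕ}

/-- The intersection of the sets of level m. -/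
def Cech.R (m : ℕ) (I : List ι) : Set 𝒞.X := {x | ∀ i ∈ I, x ∈ 𝒞.O m i}

/-- The simplices of the nerve with q vertices. -/
def Cech.Nv (q : ℕ) : Finset (List ι) :=
  ((List.finite_length_eq ι q).subset
    (t := {I | I.length = q ∧ (𝒞.R 0 I).Nonempty}) fun _ h => h.1).toFinset

/-- The cochains α and β agree on the intersections of level m. -/
def Cech.Eq (q m : ℕ) (α β : List ι → 𝒞.T k) : Prop :=
  ∀ I ∈ 𝒞.Nv q, ∀ x ∈ 𝒞.R m I, 𝒞.ev k x (α I) = 𝒞.ev k x (β I)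

/-- The function f on the nerve is bounded by a function of the first vertex. -/
def Cech.Dom (q : ℕ) (f : List ι → ℝ) (a : ι → ℝ) : Prop :=
  (∀ i, 0 ≤ a i) ∧ ∀ i I, i :: I ∈ 𝒞.Nv q → f (i :: I) ≤ a i

/-- The sum over the neighbours. -/
def Cech.nbs (a : ι → ℝ) (i : ι) : ℝ := ∑ i' ∈ 𝒞.nb i, a i'

open Classical in
/-- The contraction by the partition of unity. -/
def Cech.hm (α : List ι → 𝒞.T k) (I : List ι) : 𝒞.T k :=
  ∑ i, if (𝒞.R 0 (i :: I)).Nonempty then 𝒞.mul i k (α (i :: I)) else 0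

open Classical in
/-- The contraction by the differentials of the partition of unity. -/
def Cech.hw (α : List ι → 𝒞.T k) (I : List ι) : 𝒞.T (k + 1) :=
  ∑ i, if (𝒞.R 0 (i :: I)).Nonempty then 𝒞.wed i k (α (i :: I)) else 0

/-- A real cochain as a cochain of 0-forms. -/
def Cech.cst (s : List ι → ℝ) : List ι → 𝒞.T 0
  | [] => 0
  | i :: I => s (i :: I) • 𝒞.one i

/-- The forms of Whitney. -/
def Cech.whit (s : List ι → ℝ) : ∀ l, List ι → 𝒞.T l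
  | 0 => 𝒞.cst s
  | l + 1 => 𝒞.hw (Cech.whit s l)

/-- Coboundaries of real cochains with q vertices have bounded primitives modulo S. -/
def Cech.Spl (q : ℕ) (S : Submodule ℝ (List ι → ℝ)) (Λ : ℝ) : Prop :=
  ∀ a₀ : List ι → ℝ, ∃ a, ∃ s ∈ S, (∀ I ∈ 𝒞.Nv (q + 1), cob a₀ I - cob a I = s I) ∧
    ∑ I ∈ 𝒞.Nv q, a I ^ 2 ≤ Λ * ∑ I ∈ 𝒞.Nv (q + 1), cob a₀ I ^ 2

end

end Pool.Agent.Lib.MP_75c153_gt.Dc
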