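import Pool.Agent.Lib.MP_75c153_gt.Dc.DMod
import Pool.Agent.Lib.MP_75c153_gt.Dc.DAbs
import Pool.Agent.Lib.MP_75c153_gt.Ft.LocMain
import Pool.Agent.Lib.MP_75c153_gt.Ft.Star

/-! The universal covers are of determinant class. -/

open MeasureTheory Filter Topology Set
open scoped ContDiff InnerProductSpace
open Pool.Agent.Lib.MP_570070_gt.An Pool.Agent.Lib.MP_75c153_gt.Dc

namespace Pool.Agent.Lib.MP_75c153_gt.Ft

theorem dmain_star {c : Par} {P : Type} {Γ : Gl c P} (U : UpL2 Γ) :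
    ∃ (U₀ : U.H 0 ≃ₗᵢ[ℝ] U.H 5) (U₁ : U.H 1 ≃ₗᵢ[ℝ] U.H 4) (U₂ : U.H 2 ≃ₗᵢ[ℝ] U.H 3)
      (U₃ : U.H 3 ≃ₗᵢ[ℝ] U.H 2) (s₀ s₁ s₂ : ℝ), StarPair (k := 0) (l := 4) U.D U₀ U₁ s₀ ∧
      StarPair (k := 1) (l := 3) U.D U₁ U₂ s₁ ∧ StarPair (k := 2) (l := 2) U.D U₂ U₃ s₂ ∧
      ∀ S, U₀ '' U.on 0 S = U.on 5 S ∧ U₁ '' U.on 1 S = U.on 4 S ∧ U₂ '' U.on 2 S = U.on 3 S := by
  obtain ⟨V₀, h₀⟩ := U.exists_star (k := 0) (l := 5) rfl
  obtain ⟨V₁, h₁⟩ := U.exists_star (k := 1) (l := 4) rfl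
  obtain ⟨V₂, h₂⟩ := U.exists_star (k := 2) (l := 3) rfl
  obtain ⟨V₃, h₃⟩ := U.exists_star (k := 3) (l := 2) rfl
  exact ⟨V₀, V₁, V₂, V₃, _, _, _, U.starPair (k := 0) (l := 4) rfl rfl h₀ h₁,
    U.starPair (k := 1) (l := 3) rfl rfl h₁ h₂, U.starPair (k := 2) (l := 2) rfl rfl h₂ h₃,
    fun S => ⟨U.star_on rfl h₀ S, U.star_on rfl h₁ S, U.star_on rfl h₂ S⟩⟩

/-- The uniform bound on the finite covers. -/
theorem sum_grp (c : Par) : ∃ C : ℝ, 0 ≤ C ∧ ∀ {Q : Type} [Group Q] [Finite Q] (g : Ed c → Q)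
    (U : UpL2 (grpGl c g)), ∀ k ≤ 2, ∀ {Pt : ℝ → U.H k →L[ℝ] U.H k}, IsHeat (dom U.D k) Pt →
      (∀ t, 0 < t → trOn (U.on k (base Q)) (Pt t) ≠ ⊤) → ∀ b,
      Tendsto (fun t => (trOn (U.on k (base Q)) (Pt t)).toReal) atTop (𝓝 b) → ∀ M,
        ∑ j ∈ Finset.range M, ((trOn (U.on k (base Q)) (Pt (2 * 4 ^ j + 2))).toReal - b) ≤
          C * (1 + (trOn (U.on k (base Q)) (Pt 2)).toReal) := by
  obtain ⟨A, N, n, hA, h1⟩ := exists_cech c 15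
  obtain ⟨C, B, hC, hB, h2⟩ := primS_of_cech hA N 15
  refine ⟨(2 + 2 * C) * (2 * (B * (2 * n))) + 4 * C, by positivity, ?_⟩
  intro Q _ _ g U k hk Pt hP hf b hb M
  have := Fintype.ofFinite Q
  obtain ⟨𝒞, hD⟩ := h1 U
  have h3 : ∀ l, 3 * l + 3 ≤ 15 → PrimS U.D l C (B * (2 * n) * Fintype.card Q) := fun l hl =>
    (h2 𝒞 U.D hD l hl).mono le_rfl (le_of_eq (by
      simp only [Fintype.card_prod, Fintype.card_bool, Fintype.card_fin]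
      push_cast
      ring))
  have hadd : ∀ k a b a' b', U.D k a b → U.D k a' b' → U.D k (a + a') (b + b') := by
    simp only [hD]
    rintro k _ _ _ _ ⟨α, rfl, rfl⟩ ⟨β, rfl, rfl⟩
    exact ⟨α + β, by simp, by simp⟩
  have hsm : ∀ k (t : ℝ) a b, U.D k a b → U.D k (t • a) (t • b) := by
    simp only [hD]
    rintro k t _ _ ⟨α, rfl, rfl⟩
    exact ⟨t • α, by simp, by simp⟩
  have hz : ∀ k, U.D k 0 0 := fun k => (hD k 0 0).2 ⟨0, by simp, by simp⟩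
  obtain ⟨U₀, U₁, U₂, U₃, s₀, s₁, s₂, p₀, p₁, p₂, -⟩ := dmain_star U
  obtain ⟨𝒯⟩ := exists_tiling c g U hP
  rw [← U.coe_onS] at hf hb ⊢
  match k, hk with
  | 0, _ =>
    exact sum_zero hadd hsm hz U.dense_test p₀ hP 𝒯 hf hC (by positivity) (h3 4 le_rfl) hb M
  | 1, _ =>
    exact sum_succ (k := 0) (l := 3) hadd hsm hz U.dense_test (fun _ _ => U.dd) p₁ hP 𝒯 hf hC
      (by positivity) (h3 0 (by norm_num)) (h3 3 (by norm_num)) hb M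
  | 2, _ =>
    exact sum_succ (k := 1) (l := 2) hadd hsm hz U.dense_test (fun _ _ => U.dd) p₂ hP 𝒯 hf hC
      (by positivity) (h3 1 (by norm_num)) (h3 2 (by norm_num)) hb M

/-- Determinant class, from the finite covers. -/
theorem det_class (c : Par) {G : Type} [Group G] (g : Ed c → G) (K : ℕ → Subgroup G)
    [∀ i, (K i).Normal] [∀ i, (K i).FiniteIndex] (ha : Antitone K) (hi : ⨅ i, K i = ⊥)
    (U : UpL2 (grpGl c g)) {Pt : ∀ k, ℝ → U.H k →L[ℝ] U.H k} (hP : ∀ k, IsHeat (dom U.D k) (Pt k))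
    (hf : ∀ k t, 0 < t → trOn (U.on k (base G)) (Pt k t) ≠ ⊤)
    (hC : ∀ k, ∃ (C : ℝ) (N : ℕ), ∀ t ∈ Ioc (0 : ℝ) 1,
      (trOn (U.on k (base G)) (Pt k t)).toReal ≤ C / t ^ N)
    (U' : ∀ i, UpL2 (grpGl c fun e => (g e : G ⧸ K i)))
    {Pt' : ∀ i k, ℝ → (U' i).H k →L[ℝ] (U' i).H k}
    (hP' : ∀ i k, IsHeat (dom (U' i).D k) (Pt' i k))
    (hf' : ∀ i k t, 0 < t → trOn ((U' i).on k (base (G ⧸ K i))) (Pt' i k t) ≠ ⊤) :
    ∀ k ≤ 5, ∀ b, Tendsto (fun t => (trOn (U.on k (base G)) (Pt k t)).toReal) atTop (𝓝 b) →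
      IntegrableOn (fun t => t⁻¹ * ((trOn (U.on k (base G)) (Pt k t)).toReal - b)) (Ioi 1) := by
  obtain ⟨C, h0, h1⟩ := sum_grp c
  have low : ∀ k ≤ 2, ∀ b,
      Tendsto (fun t => (trOn (U.on k (base G)) (Pt k t)).toReal) atTop (𝓝 b) →
      IntegrableOn (fun t => t⁻¹ * ((trOn (U.on k (base G)) (Pt k t)).toReal - b)) (Ioi 1) := by
    intro k hk b hb
    obtain ⟨C', N, h2⟩ := hC k
    exact det_limit (heat_tr_antitone (isHeat₂_of_isHeat (hP k)) _ (hf k))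
      (fun i => heat_tr_antitone (isHeat₂_of_isHeat (hP' i k)) _ (hf' i k))
      (fun _ _ => ENNReal.toReal_nonneg)
      (local_grp' c g K ha hi hk U (hP k) (hf k) h2 U' (fun i => hP' i k) fun i => hf' i k) h0
      (fun i => h1 _ (U' i) k hk (hP' i k) (hf' i k)) hb
  obtain ⟨U₀, U₁, U₂, U₃, s₀, s₁, s₂, p₀, p₁, p₂, p₃⟩ := dmain_star U
  have key : ∀ {k l}, l ≤ 2 → (∀ t, 0 ≤ t → trOn (U.on k (base G)) (Pt k t) =
      trOn (U.on l (base G)) (Pt l t)) → ∀ b,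
      Tendsto (fun t => (trOn (U.on k (base G)) (Pt k t)).toReal) atTop (𝓝 b) →
      IntegrableOn (fun t => t⁻¹ * ((trOn (U.on k (base G)) (Pt k t)).toReal - b)) (Ioi 1) :=
    fun hl e b hb => (low _ hl b (hb.congr' ((eventually_ge_atTop 0).mono fun t ht => by
      simp only [e t ht]))).congr_fun (fun t ht => by
        simp only [e t (zero_le_one.trans (le_of_lt ht))]) measurableSet_Ioi
  have hs := fun t (ht : 0 ≤ t) => star_heat5 p₀ p₁ p₂ U.dense_test (U.high_eq_zero 0) hP ht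
  intro k hk
  match k, hk with
  | 0, _ => exact low 0 (by norm_num)
  | 1, _ => exact low 1 (by norm_num)
  | 2, _ => exact low 2 le_rfl
  | 3, _ =>
    exact key (l := 2) le_rfl fun t ht => by rw [← (p₃ _).2.2, trOn_equiv U₂ (hs t ht).2.2]
  | 4, _ =>
    exact key (l := 1) (by norm_num) fun t ht => by rw [← (p₃ _).2.1, trOn_equiv U₁ (hs t ht).2.1]
  | 5, _ =>
    exact key (l := 0) (by norm_num) fun t ht => by rw [← (p₃ _).1, trOn_equiv U₀ (hs t ht).1]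

end Pool.Agent.Lib.MP_75c153_gt.Ft
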