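import Pool.Agent.Lib.MP_75c153_gt.Dc.DDefs

/-! The coboundary on lists and the nerve. -/

open Set

namespace Pool.Agent.Lib.MP_75c153_gt.Dc

section

variable {ι M M' : Type} [AddCommGroup M] [AddCommGroup M'] {α β : List ι → M} {I : List ι}

theorem cob_nil (α : List ι → M) : cob α [] = 0 := rfl

theorem cob_cons (α : List ι → M) (i : ι) (I : List ι) :
    cob α (i :: I) = α I - cob (fun J => α (i :: J)) I := rfl

theorem cob_map {F : Type} [FunLike F M M'] [AddMonoidHomClass F M M'] (f : F) (α : List ι → M)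
    (I : List ι) : f (cob α I) = cob (fun J => f (α J)) I := by
  induction I generalizing α with
  | nil => exact map_zero f
  | cons i I ih => rw [cob_cons, map_sub, ih, cob_cons]

theorem cob_sub (α β : List ι → M) (I : List ι) :
    cob (fun J => α J - β J) I = cob α I - cob β I := by
  induction I generalizing α β with
  | nil => exact (sub_zero 0).symm
  | cons i I ih =>
    rw [cob_cons, ih, cob_cons, cob_cons]
    abel

theorem cob_zero (I : List ι) : cob (fun _ => (0 : M)) I = 0 := by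
  simpa using cob_sub (fun _ => (0 : M)) (fun _ => 0) I

theorem cob_sum {κ : Type} (s : Finset κ) (α : κ → List ι → M) (I : List ι) :
    cob (fun J => ∑ x ∈ s, α x J) I = ∑ x ∈ s, cob (α x) I := by
  induction I generalizing α with
  | nil => simp [cob_nil]
  | cons i I ih => simp only [cob_cons, ih, Finset.sum_sub_distrib]

theorem cob_cob (α : List ι → M) (I : List ι) : cob (cob α) I = 0 := by
  induction I generalizing α with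
  | nil => rfl
  | cons i I ih =>
    simp only [cob_cons]
    rw [cob_sub, ih]
    abel

theorem cob_congr (h : ∀ J, J ⊆ I → J.length + 1 = I.length → α J = β J) :
    cob α I = cob β I := by
  induction I generalizing α β with
  | nil => rfl
  | cons i I ih =>
    rw [cob_cons, cob_cons, h I (List.subset_cons_self i I) rfl,
      ih fun J h1 h2 => h (i :: J) (List.cons_subset_cons i h1) (by simp [h2])]

theorem norm_cob_le {B : Type} [SeminormedAddCommGroup B] {α : List ι → B} {b : ℝ}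
    (h : ∀ J, J ⊆ I → J.length + 1 = I.length → ‖α J‖ ≤ b) : ‖cob α I‖ ≤ I.length * b := by
  induction I generalizing α with
  | nil => simp [cob_nil]
  | cons i I ih =>
    have h1 := h I (List.subset_cons_self i I) rfl
    have h2 := ih fun J h1 h2 => h (i :: J) (List.cons_subset_cons i h1) (by simp [h2])
    rw [cob_cons, List.length_cons]
    push_cast
    linarith [norm_sub_le (α I) (cob (fun J => α (i :: J)) I)]

end

variable {H : ℕ → Type} [∀ k, NormedAddCommGroup (H k)] [∀ k, NormedSpace ℝ (H k)]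
  {ι : Type} [Fintype ι] {A : ℝ} {N L : ℕ} {𝒞 : Cech H ι A N L} {k q m : ℕ} {I J : List ι}
  {i : ι} {x : 𝒞.X} {a b : ι → ℝ} {f g : List ι → ℝ}

namespace Cech

theorem mem_Nv : I ∈ 𝒞.Nv q ↔ I.length = q ∧ (𝒞.R 0 I).Nonempty := by
  simp [Nv]

theorem R_anti (h : J ⊆ I) : 𝒞.R m I ⊆ 𝒞.R m J := fun _ hx i hi => hx i (h hi)

theorem isOpen_R (m : ℕ) (I : List ι) : IsOpen (𝒞.R m I) := by
  have : 𝒞.R m I = ⋂ i ∈ {i | i ∈ I}, 𝒞.O m i := by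
    ext x
    simp [R]
  rw [this]
  exact (toFinite _).isOpen_biInter fun i _ => 𝒞.isOpen m i

theorem mem_R_cons : x ∈ 𝒞.R m (i :: I) ↔ x ∈ 𝒞.O m i ∧ x ∈ 𝒞.R m I := by
  simp [R]

theorem face (hI : I ∈ 𝒞.Nv (q + 1)) (h : J ⊆ I) (h' : J.length + 1 = I.length) :
    J ∈ 𝒞.Nv q :=
  mem_Nv.2 ⟨by have := (mem_Nv.1 hI).1; omega, (mem_Nv.1 hI).2.mono (R_anti h)⟩

theorem cons_mem (hI : I ∈ 𝒞.Nv q) (h : (𝒞.R 0 (i :: I)).Nonempty) : i :: I ∈ 𝒞.Nv (q + 1) :=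
  mem_Nv.2 ⟨by simp [(mem_Nv.1 hI).1], h⟩

theorem exists_cons (hI : I ∈ 𝒞.Nv (q + 1)) : ∃ i J, I = i :: J := by
  cases I with
  | nil => simpa using (mem_Nv.1 hI).1
  | cons i J => exact ⟨i, J, rfl⟩

theorem nb_of_mem (hI : (𝒞.R 0 I).Nonempty) {i' : ι} (h : i ∈ I) (h' : i' ∈ I) : i' ∈ 𝒞.nb i :=
  (𝒞.mem_nb i i').2 (hI.imp fun _ hx => ⟨hx i h, hx i' h'⟩)

theorem nb_self (i : ι) : i ∈ 𝒞.nb i := (𝒞.mem_nb i i).2 (by simpa using 𝒞.ne i)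

theorem nb_comm {i' : ι} : i' ∈ 𝒞.nb i ↔ i ∈ 𝒞.nb i' := by
  rw [𝒞.mem_nb, 𝒞.mem_nb, inter_comm]

theorem O_sub (hI : I ∈ 𝒞.Nv q) (h : i ∈ I) (hm : m < L) : 𝒞.O m i ⊆ 𝒞.R (m + 1) I :=
  fun _ hx i' hi' => 𝒞.nest m hm i i' (nb_of_mem (mem_Nv.1 hI).2 h hi') hx

theorem O_mono {m' : ℕ} (h : m ≤ m') (h' : m' ≤ L) (i : ι) : 𝒞.O m i ⊆ 𝒞.O m' i := by
  induction h with
  | refl => exact Subset.rfl
  | step _ ih => exact (ih (by omega)).trans (𝒞.nest _ (by omega) i i (nb_self i))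

theorem Eq.mono {α β : List ι → 𝒞.T k} {m' : ℕ} (e : 𝒞.Eq q m' α β) (h : m ≤ m') (h' : m' ≤ L) :
    𝒞.Eq q m α β := fun I hI x hx => e I hI x fun i hi => O_mono h h' i (hx i hi)

theorem d_congr {α β : 𝒞.T k} {S : Set 𝒞.X} (hS : IsOpen S)
    (h : ∀ x ∈ S, 𝒞.ev k x α = 𝒞.ev k x β) (hx : x ∈ S) :
    𝒞.ev (k + 1) x (𝒞.d k α) = 𝒞.ev (k + 1) x (𝒞.d k β) := by
  have := 𝒞.d_loc k (α - β) S hS (fun x hx => by rw [map_sub, h x hx, sub_self]) x hx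
  rwa [map_sub, map_sub, sub_eq_zero] at this

theorem Eq.d {α β : List ι → 𝒞.T k} (e : 𝒞.Eq q m α β) :
    𝒞.Eq q m (fun I => 𝒞.d k (α I)) fun I => 𝒞.d k (β I) :=
  fun I hI _ hx => d_congr (isOpen_R m I) (e I hI) hx

theorem Eq.cob {α β : List ι → 𝒞.T k} (e : 𝒞.Eq q m α β) : 𝒞.Eq (q + 1) m (cob α) (cob β) :=
  fun I hI x hx => by
    rw [cob_map, cob_map]
    exact cob_congr fun J h h' => e J (face hI h h') x (R_anti h hx)

theorem d_wed (i : ι) (α : 𝒞.T k) (x : 𝒞.X) : 𝒞.ev (k + 1 + 1) x (𝒞.d (k + 1) (𝒞.wed i k α)) =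
    -𝒞.w i x (k + 1) (𝒞.ev (k + 1) x (𝒞.d k α)) := by
  have h := d_congr (α := 𝒞.d k (𝒞.mul i k α)) (β := 𝒞.mul i (k + 1) (𝒞.d k α) + 𝒞.wed i k α)
    isOpen_univ (fun x _ => by rw [𝒞.d_mul, map_add, 𝒞.ev_mul, 𝒞.ev_wed]) (mem_univ x)
  rw [𝒞.dd, map_add, map_add, 𝒞.d_mul, 𝒞.dd, smul_zero, zero_add] at h
  exact eq_neg_of_add_eq_zero_right h.symm

theorem off (hx : x ∈ 𝒞.R 0 I) (h : ¬(𝒞.R 0 (i :: I)).Nonempty) : x ∉ 𝒞.O 0 i :=
  fun h' => h ⟨x, mem_R_cons.2 ⟨h', hx⟩⟩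

theorem ev_hm (α : List ι → 𝒞.T k) (hx : x ∈ 𝒞.R 0 I) :
    𝒞.ev k x (𝒞.hm α I) = ∑ i, 𝒞.ρ i x • 𝒞.ev k x (α (i :: I)) := by
  rw [hm, map_sum]
  refine Finset.sum_congr rfl fun i _ => ?_
  split_ifs with h
  · rw [𝒞.ev_mul]
  · rw [map_zero, (𝒞.supp i x (off hx h)).1, zero_smul]

theorem ev_hw (α : List ι → 𝒞.T k) (hx : x ∈ 𝒞.R 0 I) :
    𝒞.ev (k + 1) x (𝒞.hw α I) = ∑ i, 𝒞.w i x k (𝒞.ev k x (α (i :: I))) := by
  rw [hw, map_sum]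
  refine Finset.sum_congr rfl fun i _ => ?_
  split_ifs with h
  · rw [𝒞.ev_wed]
  · rw [map_zero, (𝒞.supp i x (off hx h)).2]

theorem d_hm (α : List ι → 𝒞.T k) (hx : x ∈ 𝒞.R 0 I) :
    𝒞.ev (k + 1) x (𝒞.d k (𝒞.hm α I)) = 𝒞.ev (k + 1) x (𝒞.hm (fun J => 𝒞.d k (α J)) I) +
      𝒞.ev (k + 1) x (𝒞.hw α I) := by
  rw [ev_hm _ hx, ev_hw _ hx, hm, map_sum, map_sum, ← Finset.sum_add_distrib]
  refine Finset.sum_congr rfl fun i _ => ?_
  split_ifs with h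
  · rw [𝒞.d_mul]
  · rw [map_zero, map_zero, (𝒞.supp i x (off hx h)).1, (𝒞.supp i x (off hx h)).2, zero_smul,
      add_zero]

theorem d_hw (α : List ι → 𝒞.T k) (hx : x ∈ 𝒞.R 0 I) :
    𝒞.ev (k + 1 + 1) x (𝒞.d (k + 1) (𝒞.hw α I)) =
      -𝒞.ev (k + 1 + 1) x (𝒞.hw (fun J => 𝒞.d k (α J)) I) := by
  rw [ev_hw _ hx, hw, map_sum, map_sum, ← Finset.sum_neg_distrib]
  refine Finset.sum_congr rfl fun i _ => ?_
  split_ifs with h
  · rw [d_wed]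
  · rw [map_zero, map_zero, (𝒞.supp i x (off hx h)).2, neg_zero]

theorem Eq.hm {α β : List ι → 𝒞.T k} (e : 𝒞.Eq (q + 1) 0 α β) : 𝒞.Eq q 0 (𝒞.hm α) (𝒞.hm β) :=
  fun I hI x hx => by
    rw [ev_hm _ hx, ev_hm _ hx]
    refine Finset.sum_congr rfl fun i _ => ?_
    by_cases h : x ∈ 𝒞.O 0 i
    · have h1 := mem_R_cons.2 ⟨h, hx⟩
      rw [e _ (cons_mem hI ⟨x, h1⟩) x h1]
    · rw [(𝒞.supp i x h).1, zero_smul, zero_smul]

theorem Eq.hw {α β : List ι → 𝒞.T k} (e : 𝒞.Eq (q + 1) 0 α β) : 𝒞.Eq q 0 (𝒞.hw α) (𝒞.hw β) :=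
  fun I hI x hx => by
    rw [ev_hw _ hx, ev_hw _ hx]
    refine Finset.sum_congr rfl fun i _ => ?_
    by_cases h : x ∈ 𝒞.O 0 i
    · have h1 := mem_R_cons.2 ⟨h, hx⟩
      rw [e _ (cons_mem hI ⟨x, h1⟩) x h1]
    · rw [(𝒞.supp i x h).2, (𝒞.supp i x h).2]

theorem hm_zero (I : List ι) : 𝒞.hm (fun _ => (0 : 𝒞.T k)) I = 0 := by
  simp [Cech.hm]

theorem hw_zero (I : List ι) : 𝒞.hw (fun _ => (0 : 𝒞.T k)) I = 0 := by
  simp [Cech.hw]

theorem cob_hm (α : List ι → 𝒞.T k) (hx : x ∈ 𝒞.R 0 I) :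
    𝒞.ev k x (cob (𝒞.hm α) I) = 𝒞.ev k x (α I) - 𝒞.ev k x (𝒞.hm (cob α) I) := by
  rw [cob_map, cob_congr (β := fun J => ∑ i, 𝒞.ρ i x • 𝒞.ev k x (α (i :: J)))
    fun J h _ => ev_hm α (R_anti h hx), cob_sum, ev_hm _ hx]
  simp only [cob_cons, map_sub, smul_sub, Finset.sum_sub_distrib, ← Finset.sum_smul, 𝒞.sum_ρ,
    one_smul, sub_sub_cancel]
  exact Finset.sum_congr rfl fun i _ =>
    (cob_map (𝒞.ρ i x • 𝒞.ev k x) (fun J => α (i :: J)) I).symm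

theorem cob_hw (α : List ι → 𝒞.T k) (hx : x ∈ 𝒞.R 0 I) :
    𝒞.ev (k + 1) x (cob (𝒞.hw α) I) = -𝒞.ev (k + 1) x (𝒞.hw (cob α) I) := by
  rw [cob_map, cob_congr (β := fun J => ∑ i, 𝒞.w i x k (𝒞.ev k x (α (i :: J))))
    fun J h _ => ev_hw α (R_anti h hx), cob_sum, ev_hw _ hx]
  simp only [cob_cons, map_sub, Finset.sum_sub_distrib, 𝒞.sum_w, zero_sub, neg_neg]
  exact Finset.sum_congr rfl fun i _ =>
    (cob_map (𝒞.w i x k ∘ₗ 𝒞.ev k x) (fun J => α (i :: J)) I).symm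

end Cech

end Pool.Agent.Lib.MP_75c153_gt.Dc
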