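import Pool.Agent.Lib.MP_75c153_gt.Ft.UAlg
import Pool.Agent.Lib.MP_75c153_gt.Ft.VS

/-! Nested covers by small balls of the charts. -/

open MeasureTheory Filter Topology Set Metric
open scoped ContDiff
open Pool.Agent.Lib.MP_570070_gt.An

namespace Pool.Agent.Lib.MP_75c153_gt.Ft

variable {c : Par} {P : Type} {Γ : Gl c P}

/-- The points that are identified with a point of S in the piece p₀. -/
def sat (Γ : Gl c P) (p₀ : P) (S : Set (Eu 5)) : Set (Σ _ : P, DR c) :=
  {x | ∃ o, ∃ y' ∈ S, Link o x.2.1 y' ∧ Γ.go o x.1 = p₀}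

/-- `isOpen_sigma_iff`, `Link.eventually`, `Link.tendsto`. -/
theorem isOpen_sat (p₀ : P) {S : Set (Eu 5)} (hS : IsOpen S) : IsOpen (sat Γ p₀ S) := by
  refine isOpen_sigma_iff.2 fun p => isOpen_iff_mem_nhds.2 ?_
  rintro y ⟨o, y', h1, h2, h3⟩
  exact (continuous_subtype_val.tendsto y).eventually
    ((h2.eventually.and (h2.tendsto.eventually (hS.mem_nhds h1))).mono
      (q := fun z => ∃ o, ∃ y' ∈ S, Link o z y' ∧ Γ.go o p = p₀)
      fun z hz => ⟨o, _, hz.2, hz.1.1, h3⟩)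

/-- The relation `Link o` is closed in DR × DR: it is given by the equations `Link.hx_eq`,
`Link.sph_eq` (or by the definitions of `Same` and `Flip`) between functions that are continuous
on DR. -/
theorem dcov_not_link {o : Option (Ed c)} {x x' : Eu 5} (hx : x ∈ DR c) (hx' : x' ∈ DR c)
    (h : ¬Link o x x') : ∀ᶠ z : Eu 5 × Eu 5 in 𝓝 (x, x'), ¬Link o z.1 z.2 := by
  have h1 : ContinuousAt (fun z : Eu 5 × Eu 5 => (xp z.2, sph z.2) - (lkX o z.1, lkV o z.1))
      (x, x') :=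
    (ContinuousAt.snd' (f := fun z => (xp z, sph z)) (contDiff_xp.continuous.continuousAt.prodMk
      (contDiffAt_sph (ne_of_zc hx'.2.1)).continuousAt)).sub
      (ContinuousAt.fst' (f := fun z => (lkX o z, lkV o z))
        ((contDiffAt_lkX hx).continuousAt.prodMk (contDiffAt_lkV hx).continuousAt))
  refine (h1.eventually_ne (y := 0) fun h2 => h ?_).mono fun z hz h2 => hz ?_
  · obtain ⟨h3, h4⟩ := Prod.ext_iff.1 (sub_eq_zero.1 h2)
    exact link_of_eq hx hx' h3 h4
  · rw [h2.xp_eq, h2.sph_eq, sub_self]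

theorem dcov_near {x x' : Eu 5} (hx : x ∈ DR c) (hx' : x' ∈ DR c) {r' : ℝ} (hr' : 0 < r') :
    ∃ V ∈ 𝓝 (x, x'), ∀ a ∈ V, ∀ b ∈ V, ∀ o : Option (Ed c), Link o a.1 a.2 →
      ∃ z' ∈ ball b.2 r', Link o b.1 z' := by
  refine eventually_prod_self_iff.1 (eventually_all.2 fun o => ?_)
  by_cases h : Link o x x'
  · have h1 := (continuous_fst.tendsto (x, x')).eventually
      (h.eventually.and (h.tendsto.eventually (ball_mem_nhds x' (half_pos hr'))))
    have h2 := (continuous_snd.tendsto (x, x')).eventually (ball_mem_nhds x' (half_pos hr'))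
    refine (tendsto_snd.eventually (h1.and h2)).mono fun z hz _ => ⟨_, ?_, hz.1.1.1⟩
    have h3 := dist_triangle_right (lkMap o (cb x') z.2.1) z.2.2 x'
    have h4 : dist (lkMap o (cb x') z.2.1) x' < r' / 2 := hz.1.2
    have h5 : dist z.2.2 x' < r' / 2 := hz.2
    exact mem_ball.2 (by linarith)
  · exact (tendsto_fst.eventually (dcov_not_link hx hx' h)).mono fun z hz t => (hz t).elim

/-- For (x, x') in K × K there is a neighbourhood V such that for all o and all (y, y'), (z, w)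
in V with `Link o y y'` there is z' in `ball w r'` with `Link o z z'` (`Link.eventually`,
`Link.tendsto`, `Link.map_eq` if `Link o x x'`, otherwise `dcov_not_link`). Take a Lebesgue
number of the cover of K × K by these neighbourhoods (`lebesgue_number_lemma_of_metric` or
`lebesgue_number_lemma_nhds`). -/
theorem exists_radius {K : Set (Eu 5)} (hK : IsCompact K) (hKD : K ⊆ DR c) {r' : ℝ}
    (hr' : 0 < r') : ∃ r, 0 < r ∧ 2 * r ≤ r' ∧ ∀ x ∈ K, ∀ x' ∈ K, ∀ o : Option (Ed c),
      ∀ y ∈ ball x r, ∀ y' ∈ ball x' r, Link o y y' →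
        ∀ z ∈ ball x r, ∃ z' ∈ ball x' r', Link o z z' := by
  choose V hV hV' using fun (q : Eu 5 × Eu 5) (hq : q ∈ K ×ˢ K) =>
    dcov_near (hKD hq.1) (hKD hq.2) hr'
  obtain ⟨δ, hδ, h⟩ := lebesgue_number_lemma_of_metric
    (c := fun q : K ×ˢ K => interior (V q.1 q.2)) (hK.prod hK) (fun _ => isOpen_interior)
    fun q hq => mem_iUnion.2 ⟨⟨q, hq⟩, mem_interior_iff_mem_nhds.2 (hV q hq)⟩
  refine ⟨min δ (r' / 2), lt_min hδ (half_pos hr'), by linarith [min_le_right δ (r' / 2)],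
    fun x hx x' hx' o y hy y' hy' hl z hz => ?_⟩
  obtain ⟨q, hq⟩ := h (x, x') ⟨hx, hx'⟩
  replace hq := hq.trans interior_subset
  rw [← ball_prod_same] at hq
  have h1 := fun w : Eu 5 => ball_subset_ball (x := w) (min_le_left δ (r' / 2))
  exact hV' _ _ (y, y') (hq ⟨h1 x hy, h1 x' hy'⟩) (z, x') (hq ⟨h1 x hz, mem_ball_self hδ⟩) o hl

/-- The radii are chosen from the top level down (induction on L, shifting the sequence); for
the top level split K into the two compact parts in `DRb c true` and `DRb c false`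
(`IsCompact.exists_cthickening_subset_open`; alternatively a closed ball in DR is convex, and the
coordinate 3 does not vanish on it). For the inclusion use `Link.trans`, `Link.symm`,
`Gl.go_go`. -/
theorem exists_radii {K : Set (Eu 5)} (hK : IsCompact K) (hKD : K ⊆ DR c) (L : ℕ) :
    ∃ r : ℕ → ℝ, (∀ m, 0 < r m) ∧ (∀ m < L, 2 * r m ≤ r (m + 1)) ∧
      (∀ x ∈ K, closedBall x (2 * r L) ⊆ DRb c (cb x)) ∧
      ∀ m < L, ∀ x ∈ K, ∀ x' ∈ K, ∀ {P : Type} (Γ : Gl c P) (p p' : P),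
        (sat Γ p (ball x (r m)) ∩ sat Γ p' (ball x' (r m))).Nonempty →
          sat Γ p (ball x (r m)) ⊆ sat Γ p' (ball x' (r (m + 1))) := by
  induction L with
  | zero =>
    obtain ⟨δ, hδ, h⟩ := lebesgue_number_lemma_of_metric hK (isOpen_DRb (c := c))
      fun x hx => mem_iUnion.2 ⟨cb x, hKD hx, rfl⟩
    refine ⟨fun _ => δ / 3, fun _ => by positivity, fun m hm => by omega, fun x hx => ?_,
      fun m hm => by omega⟩
    obtain ⟨b, hb⟩ := h x hx
    rw [(hb (mem_ball_self hδ)).2]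
    exact (closedBall_subset_ball (by linarith)).trans hb
  | succ L ih =>
    obtain ⟨r, h1, h2, h3, h4⟩ := ih
    obtain ⟨ρ, p1, p2, p3⟩ := exists_radius hK hKD (h1 0)
    refine ⟨fun m => Nat.casesOn m ρ r, fun m => by cases m <;> simp [p1, h1], fun m hm => ?_, h3,
      fun m hm => ?_⟩
    · cases m with
      | zero => exact p2
      | succ m => exact h2 m (by omega)
    · cases m with
      | succ m => exact h4 m (by omega)
      | zero =>
        rintro x hx x' hx' P Γ _ _ ⟨u, ⟨o₁, y, a1, a2, rfl⟩, o₂, y', b1, b2, rfl⟩ v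
          ⟨o₃, z, c1, c2, c3⟩
        obtain ⟨z', d1, d2⟩ := p3 x hx x' hx' _ y a1 y' b1 (a2.symm.trans b2) z c1
        refine ⟨_, z', d1, c2.trans d2, ?_⟩
        rw [c2.go_cmp d2, c3, a2.symm.go_cmp b2, Γ.go_go]

/-- A finite smooth partition of unity on K (`IsCompact.elim_nhds_subcover` or
`finite_cover_balls_of_compact` with radius r / 2, `SmoothPartitionOfUnity.exists_isSubordinate`
with the model `modelWithCornersSelf ℝ (Eu 5)`). -/
theorem exists_pou {K : Set (Eu 5)} (hK : IsCompact K) {r : ℝ} (hr : 0 < r) :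
    ∃ (n : ℕ) (x : Fin n → Eu 5) (φ : Fin n → Eu 5 → ℝ), (∀ j, x j ∈ K) ∧
      (∀ j, Sm (closedBall (x j) (r / 2)) (φ j)) ∧ (∀ j y, 0 ≤ φ j y) ∧
      ∀ y ∈ K, ∑ j, φ j y = 1 := by
  obtain ⟨t, h1, h2, h3⟩ := finite_cover_balls_of_compact hK (half_pos hr)
  have := h2.to_subtype
  obtain ⟨n, ⟨e⟩⟩ := Finite.exists_equiv_fin t
  obtain ⟨f, hf⟩ := SmoothPartitionOfUnity.exists_isSubordinate (modelWithCornersSelf ℝ (Eu 5))
    hK.isClosed (fun j => ball (e.symm j).1 (r / 2)) (fun _ => isOpen_ball) fun y hy => by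
      obtain ⟨x, hx, hy'⟩ := mem_iUnion₂.1 (h3 hy)
      exact mem_iUnion.2 ⟨e ⟨x, hx⟩, by simpa using hy'⟩
  refine ⟨n, fun j => (e.symm j).1, fun j => f j, fun j => h1 (e.symm j).2, fun j =>
    ⟨(f j).contMDiff.contDiff, fun y hy => ball_subset_closedBall (hf j (subset_tsupport _ hy))⟩,
    f.nonneg, fun y hy => ?_⟩
  rw [← finsum_eq_sum_of_fintype]
  exact f.sum_eq_one hy

end Pool.Agent.Lib.MP_75c153_gt.Ft
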