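import Mathlib

/-! Small eigenvalues of integer matrices. -/

open Matrix

namespace Pool.Agent.Lib.MP_75c153_gt.Dc

variable {μ ν : Type} [Fintype μ] [Fintype ν] [DecidableEq ν]

omit [Fintype ν] in
open Polynomial in
theorem dmat_trail (x : ν → ℝ) (s : Finset ν) :
    |(∏ i ∈ s, (X - C (x i))).trailingCoeff| = |∏ i ∈ s.filter (fun i => x i ≠ 0), x i| := by
  induction s using Finset.induction_on with
  | empty => simp [trailingCoeff]
  | insert a s ha ih =>
    rw [Finset.prod_insert ha, trailingCoeff_mul, abs_mul, ih, Finset.filter_insert]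
    split_ifs with h
    · rw [Finset.prod_insert fun h' => ha (Finset.mem_filter.1 h').1, abs_mul,
        trailingCoeff_eq_coeff_zero (by simpa using h)]
      simp
    · rw [not_not.1 h]
      simp [trailingCoeff]

/-- The product of the non-zero eigenvalues of a symmetric integer matrix is a non-zero integer:
up to sign it is the trailing coefficient of the characteristic polynomial
(`Matrix.IsHermitian.charpoly_eq`, `Matrix.charpoly_map`, `Polynomial.trailingCoeff_mul`). -/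
theorem one_le_prod (M : Matrix ν ν ℤ) (hM : (M.map (Int.cast : ℤ → ℝ)).IsHermitian) :
    1 ≤ |∏ i ∈ Finset.univ.filter (fun i => hM.eigenvalues i ≠ 0), hM.eigenvalues i| := by
  have h1 : M.charpoly.map (Int.castRingHom ℝ) =
      ∏ i, (Polynomial.X - Polynomial.C (hM.eigenvalues i)) :=
    (Matrix.charpoly_map M (Int.castRingHom ℝ)).symm.trans hM.charpoly_eq
  have h2 := Polynomial.trailingCoeff_nonzero_iff_nonzero.2
    (M.charpoly_monic.map (Int.castRingHom ℝ)).ne_zero
  rw [← dmat_trail, ← h1]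
  rw [Polynomial.trailingCoeff, Polynomial.coeff_map, eq_intCast] at h2 ⊢
  exact_mod_cast Int.one_le_abs (by exact_mod_cast h2)

theorem dmat_one {x : ℝ} (h0 : 0 ≤ x) (M : ℕ) :
    ∑ j ∈ Finset.range M, (if x ≠ 0 ∧ 2 ^ j * x < 1 then (1 : ℝ) else 0) ≤
      1 + 2 * (x - Real.log x) := by
  induction M with
  | zero => simpa using by linarith [Real.log_le_self h0]
  | succ M ih =>
    by_cases h : x ≠ 0 ∧ 2 ^ M * x < 1
    · have h1 : ∑ j ∈ Finset.range (M + 1), (if x ≠ 0 ∧ 2 ^ j * x < 1 then (1 : ℝ) else 0) ≤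
          ∑ _j ∈ Finset.range (M + 1), (1 : ℝ) :=
        Finset.sum_le_sum fun j _ => by split_ifs <;> norm_num
      have h2 := Real.log_neg (mul_pos (pow_pos two_pos M) (h0.lt_of_ne' h.1)) h.2
      rw [Real.log_mul (by positivity) h.1, Real.log_pow] at h2
      simp only [Finset.sum_const, Finset.card_range, nsmul_eq_mul, mul_one, Nat.cast_add,
        Nat.cast_one] at h1
      nlinarith [Real.log_two_gt_d9, (Nat.cast_nonneg M : (0 : ℝ) ≤ M)]
    · rwa [Finset.sum_range_succ, if_neg h, add_zero]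

/-- Counting. For x > 0 the number of j < M with 2^j x < 1 is at most 1 + log (1 / x) / log 2 if
x < 1 and zero otherwise, hence at most 1 + 2 max 0 (- log x); the sum of - log x over x < 1 is at
most the sum of log x over x ≥ 1, which is at most the sum of all x. -/
theorem sum_card_le {x : ν → ℝ} (h0 : ∀ i, 0 ≤ x i)
    (h : 1 ≤ ∏ i ∈ Finset.univ.filter (fun i => x i ≠ 0), x i) (M : ℕ) :
    ∑ j ∈ Finset.range M,
      ((Finset.univ.filter fun i => x i ≠ 0 ∧ 2 ^ j * x i < 1).card : ℝ) ≤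
        Fintype.card ν + 2 * ∑ i, x i := by
  have h1 := Real.log_nonneg h
  rw [Real.log_prod fun i hi => (Finset.mem_filter.1 hi).2, Finset.sum_filter_of_ne
    (p := fun i => x i ≠ 0) fun i _ hi h' => hi (by rw [h', Real.log_zero])] at h1
  simp only [Finset.card_filter, Nat.cast_sum, Nat.cast_ite, Nat.cast_one, Nat.cast_zero]
  rw [Finset.sum_comm]
  refine (Finset.sum_le_sum fun i _ => dmat_one (h0 i) M).trans ?_
  rw [Finset.sum_add_distrib, ← Finset.mul_sum, Finset.sum_sub_distrib]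
  simp only [Finset.sum_const, Finset.card_univ, nsmul_eq_mul, mul_one]
  linarith

theorem dmat_sq {κ : Type} [Fintype κ] {w : ν → κ → ℝ} {y : ν → ℝ}
    (h : ∀ i k, w i ⬝ᵥ w k = if i = k then y k else 0) (d : ν → ℝ) :
    ∑ J, (∑ i, d i • w i) J ^ 2 = ∑ i, d i ^ 2 * y i := by
  have : ∑ J, (∑ i, d i • w i) J ^ 2 = (∑ i, d i • w i) ⬝ᵥ ∑ i, d i • w i :=
    Finset.sum_congr rfl fun J _ => sq _
  rw [this, sum_dotProduct]
  refine Finset.sum_congr rfl fun i _ => ?_
  simp only [dotProduct_sum, smul_dotProduct, dotProduct_smul, h, smul_eq_mul, mul_ite, mul_zero,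
    Finset.sum_ite_eq, Finset.mem_univ, if_true]
  ring

/-- Spectral splitting for the matrix B with the eigenvectors e i and eigenvalues x i of Bᵀ B:
S is spanned by the B e i with x i ≠ 0 and 2^j x i < 1, and a is the part of a₀ with
1 ≤ 2^j x i. The sum of the eigenvalues is the trace, the sum of the squares of the entries. -/
theorem int_split (B : Matrix μ ν ℤ) : ∃ n : ℕ → ℕ,
    (∀ M, ∑ j ∈ Finset.range M, (n j : ℝ) ≤ Fintype.card ν + 2 * ∑ I, ∑ J, (B I J : ℝ) ^ 2) ∧
    ∀ j, ∃ S : Submodule ℝ (μ → ℝ), Module.finrank ℝ S ≤ n j ∧ ∀ a₀ : ν → ℝ, ∃ a : ν → ℝ,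
      (fun I => ∑ J, (B I J : ℝ) * a₀ J - ∑ J, (B I J : ℝ) * a J) ∈ S ∧
      ∑ J, a J ^ 2 ≤ 2 ^ j * ∑ I, (∑ J, (B I J : ℝ) * a₀ J) ^ 2 := by
  set A : Matrix μ ν ℝ := B.map (Int.cast : ℤ → ℝ) with hA
  have hm : (Bᵀ * B).map (Int.cast : ℤ → ℝ) = Aᴴ * A := by
    ext i k
    simp [hA, Matrix.mul_apply]
  have hP : ((Bᵀ * B).map (Int.cast : ℤ → ℝ)).PosSemidef :=
    hm ▸ posSemidef_conjTranspose_mul_self A
  set x := hP.1.eigenvalues
  have h0 : ∀ i, 0 ≤ x i := hP.eigenvalues_nonneg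
  have h1 := one_le_prod _ hP.1
  rw [abs_of_nonneg (Finset.prod_nonneg fun i _ => h0 i)] at h1
  have h2 : ∑ i, x i = ∑ I, ∑ J, (B I J : ℝ) ^ 2 := by
    have := hP.1.trace_eq_sum_eigenvalues
    rw [Finset.sum_comm]
    refine Eq.trans this.symm ?_
    simp [Matrix.trace, Matrix.mul_apply, sq]
  obtain ⟨e, he⟩ : ∃ e : ν → ν → ℝ, e = fun i => (hP.1.eigenvectorBasis i).ofLp := ⟨_, rfl⟩
  have ho : ∀ i k, e i ⬝ᵥ e k = if i = k then 1 else 0 := fun i k => by
    rw [← orthonormal_iff_ite.1 hP.1.eigenvectorBasis.orthonormal i k,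
      EuclideanSpace.inner_eq_star_dotProduct, he, dotProduct_comm, star_trivial]
  have hv : ∀ i k, (A *ᵥ e i) ⬝ᵥ (A *ᵥ e k) = if i = k then x k else 0 := fun i k => by
    have h3 : (Aᴴ * A) *ᵥ e k = x k • e k := hm ▸ he ▸ hP.1.mulVec_eigenvectorBasis k
    rw [conjTranspose_eq_transpose_of_trivial, ← mulVec_mulVec] at h3
    rw [dotProduct_comm, dotProduct_mulVec, ← mulVec_transpose, h3, smul_dotProduct,
      dotProduct_comm, ho]
    simp
  refine ⟨fun j => (Finset.univ.filter fun i => x i ≠ 0 ∧ 2 ^ j * x i < 1).card,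
    fun M => h2 ▸ sum_card_le h0 h1 M, fun j => ⟨Submodule.span ℝ (Set.range
      fun i : (Finset.univ.filter fun i => x i ≠ 0 ∧ 2 ^ j * x i < 1) => A *ᵥ e i),
    (finrank_range_le_card _).trans (Fintype.card_coe _).le, fun a₀ => ?_⟩⟩
  obtain ⟨c, rfl⟩ : ∃ c : ν → ℝ, a₀ = ∑ i, c i • e i := by
    refine ⟨hP.1.eigenvectorBasis.repr (WithLp.toLp 2 a₀), ?_⟩
    have := congrArg WithLp.ofLp (hP.1.eigenvectorBasis.sum_repr (WithLp.toLp 2 a₀))
    simpa [he] using this.symm
  have hB : ∀ d : ν → ℝ, (fun I => ∑ J, (B I J : ℝ) * (∑ i, d i • e i) J) =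
      ∑ i, d i • A *ᵥ e i := fun d =>
    (mulVec_sum A Finset.univ fun i => d i • e i).trans (by simp only [mulVec_smul])
  refine ⟨∑ i, (if 1 ≤ 2 ^ j * x i then c i else 0) • e i, ?_, ?_⟩
  · change (fun I => ∑ J, (B I J : ℝ) * (∑ i, c i • e i) J) - (fun I => ∑ J, (B I J : ℝ) *
      (∑ i, (if 1 ≤ 2 ^ j * x i then c i else 0) • e i) J) ∈ _
    rw [hB, hB, ← Finset.sum_sub_distrib]
    refine Submodule.sum_mem _ fun i _ => ?_
    split_ifs with h
    · simp
    · rw [zero_smul, sub_zero]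
      refine Submodule.smul_mem _ _ ?_
      by_cases hx : x i = 0
      · rw [dotProduct_self_eq_zero.1 ((hv i i).trans ((if_pos rfl).trans hx))]
        exact Submodule.zero_mem _
      · exact Submodule.subset_span ⟨⟨i, by simpa using ⟨hx, not_le.1 h⟩⟩, rfl⟩
  · simp only [congrFun (hB c)]
    rw [dmat_sq (y := fun _ => 1) ho, dmat_sq hv, Finset.mul_sum]
    refine Finset.sum_le_sum fun i _ => ?_
    split_ifs with h
    · nlinarith [sq_nonneg (c i)]
    · have := h0 i
      rw [zero_pow two_ne_zero, zero_mul]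
      positivity

end Pool.Agent.Lib.MP_75c153_gt.Dc
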