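import Pool.Agent.Lib.MP_75c153_gt.Dc.DCob
import Pool.Agent.Lib.MP_75c153_gt.Dc.DMat

/-! Norm bounds for cochains and the spectral splitting on the nerve. -/

open Set

namespace Pool.Agent.Lib.MP_75c153_gt.Dc

theorem card_lists {ι : Type} (s : Finset ι) (q : ℕ) (F : Finset (List ι))
    (h : ∀ I ∈ F, I.length = q ∧ ∀ i ∈ I, i ∈ s) : F.card ≤ s.card ^ q := by
  classical
  induction q generalizing F with
  | zero =>
    exact Finset.card_le_one.2 fun a ha b hb => by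
      rw [List.length_eq_zero_iff.1 (h a ha).1, List.length_eq_zero_iff.1 (h b hb).1]
  | succ q ih =>
    have h1 : F ⊆ (s ×ˢ F.image List.tail).image fun z => z.1 :: z.2 := fun I hI => by
      cases I with
      | nil => simpa using (h _ hI).1
      | cons i I =>
        exact Finset.mem_image.2 ⟨(i, I), Finset.mem_product.2
          ⟨(h _ hI).2 i (by simp), Finset.mem_image.2 ⟨_, hI, rfl⟩⟩, rfl⟩
    have h2 := ih (F.image List.tail) fun I hI => by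
      obtain ⟨J, hJ, rfl⟩ := Finset.mem_image.1 hI
      exact ⟨by simp [(h J hJ).1], fun i hi => (h J hJ).2 i (List.mem_of_mem_tail hi)⟩
    refine ((Finset.card_le_card h1).trans Finset.card_image_le).trans ?_
    rw [Finset.card_product, pow_succ']
    exact Nat.mul_le_mul_left _ h2

variable {H : ℕ → Type} [∀ k, NormedAddCommGroup (H k)] [∀ k, NormedSpace ℝ (H k)]
  {ι : Type} [Fintype ι] {A : ℝ} {N L : ℕ} {𝒞 : Cech H ι A N L} {k q m : ℕ}
  {a b : ι → ℝ} {f g : List ι → ℝ}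

namespace Cech

theorem le_nbs (h : ∀ i, 0 ≤ a i) {i i' : ι} (h' : i' ∈ 𝒞.nb i) : a i' ≤ 𝒞.nbs a i :=
  Finset.single_le_sum (fun i _ => h i) h'

theorem nbs_nonneg (h : ∀ i, 0 ≤ a i) (i : ι) : 0 ≤ 𝒞.nbs a i :=
  Finset.sum_nonneg fun i _ => h i

theorem sum_nbs (𝒞 : Cech H ι A N L) (a : ι → ℝ) :
    ∑ i, 𝒞.nbs a i ^ 2 ≤ N ^ 2 * ∑ i, a i ^ 2 := by
  classical
  have hN : ∀ i, ((𝒞.nb i).card : ℝ) ≤ N := fun i => by exact_mod_cast 𝒞.card_nb i
  have h1 : ∀ i, 𝒞.nbs a i ^ 2 ≤ N * ∑ i', if i ∈ 𝒞.nb i' then a i' ^ 2 else 0 := fun i => by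
    simp only [← nb_comm (i := i), Finset.sum_ite_mem, Finset.univ_inter]
    exact sq_sum_le_card_mul_sum_sq.trans
      (mul_le_mul_of_nonneg_right (hN i) (Finset.sum_nonneg fun _ _ => sq_nonneg _))
  refine (Finset.sum_le_sum fun i _ => h1 i).trans ?_
  rw [← Finset.mul_sum, Finset.sum_comm, sq (N : ℝ), mul_assoc]
  refine mul_le_mul_of_nonneg_left ?_ (Nat.cast_nonneg N)
  rw [Finset.mul_sum]
  refine Finset.sum_le_sum fun i _ => ?_
  simp only [Finset.sum_ite_mem, Finset.univ_inter, Finset.sum_const, nsmul_eq_mul]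
  exact mul_le_mul_of_nonneg_right (hN i) (by positivity)

theorem Dom.cob {B : Type} [SeminormedAddCommGroup B] {α : List ι → B}
    (h : 𝒞.Dom (q + 1) (fun I => ‖α I‖) a) :
    𝒞.Dom (q + 1 + 1) (fun I => ‖cob α I‖) fun i => (q + 2) * 𝒞.nbs a i := by
  refine ⟨fun i => mul_nonneg (by positivity) (nbs_nonneg h.1 i), fun i I hI => ?_⟩
  refine (norm_cob_le (b := 𝒞.nbs a i) fun J h1 h2 => ?_).trans_eq ?_
  · obtain ⟨i', J', rfl⟩ := exists_cons (face hI h1 h2)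
    exact (h.2 _ _ (face hI h1 h2)).trans
      (le_nbs h.1 (nb_of_mem (mem_Nv.1 hI).2 (by simp) (h1 (by simp))))
  · rw [(mem_Nv.1 hI).1]
    push_cast
    ring

open Classical in
theorem Dom.ite {B : Type} [SeminormedAddCommGroup B] (h : 𝒞.Dom (q + 1) f a) {t : ℝ}
    (ht : 0 ≤ t) {i : ι} {I : List ι} (hI : i :: I ∈ 𝒞.Nv q) {v : ι → B}
    (hv : ∀ i', ‖v i'‖ ≤ t * f (i' :: i :: I)) :
    ‖∑ i', if (𝒞.R 0 (i' :: i :: I)).Nonempty then v i' else 0‖ ≤ t * 𝒞.nbs a i := by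
  rw [nbs, Finset.mul_sum, ← Finset.univ_inter (𝒞.nb i), ← Finset.sum_ite_mem]
  refine norm_sum_le_of_le _ fun i' _ => ?_
  by_cases h1 : (𝒞.R 0 (i' :: i :: I)).Nonempty
  · rw [if_pos h1, if_pos (nb_of_mem h1 (by simp) (by simp))]
    exact (hv i').trans (mul_le_mul_of_nonneg_left (h.2 _ _ (cons_mem hI h1)) ht)
  · rw [if_neg h1, norm_zero]
    split_ifs
    · exact mul_nonneg ht (h.1 _)
    · exact le_rfl

theorem Dom.hm {α : List ι → 𝒞.T k} (h : 𝒞.Dom (q + 1) (fun I => ‖𝒞.J k (α I)‖) a) :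
    𝒞.Dom q (fun I => ‖𝒞.J k (𝒞.hm α I)‖) (𝒞.nbs a) := by
  refine ⟨nbs_nonneg h.1, fun i I hI => ?_⟩
  simp only [Cech.hm, map_sum, apply_ite (𝒞.J k), map_zero]
  simpa using h.ite zero_le_one hI (v := fun i' => 𝒞.J k (𝒞.mul i' k (α (i' :: i :: I))))
    fun i' => by simpa using 𝒞.norm_mul _ _ _

theorem Dom.hw (hA : 0 ≤ A) (hk : k ≤ L) {α : List ι → 𝒞.T k}
    (h : 𝒞.Dom (q + 1) (fun I => ‖𝒞.J k (α I)‖) a) :
    𝒞.Dom q (fun I => ‖𝒞.J (k + 1) (𝒞.hw α I)‖) fun i => A * 𝒞.nbs a i := by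
  refine ⟨fun i => mul_nonneg hA (nbs_nonneg h.1 i), fun i I hI => ?_⟩
  simp only [Cech.hw, map_sum, apply_ite (𝒞.J (k + 1)), map_zero]
  exact h.ite hA hI fun i' => 𝒞.norm_wed _ _ hk _

theorem Dom.sub {α β : List ι → 𝒞.T k} (h : 𝒞.Dom q (fun I => ‖𝒞.J k (α I)‖) a)
    (h' : 𝒞.Dom q (fun I => ‖𝒞.J k (β I)‖) b) :
    𝒞.Dom q (fun I => ‖𝒞.J k (α I - β I)‖) fun i => a i + b i :=
  ⟨fun i => add_nonneg (h.1 i) (h'.1 i), fun i I hI => by
    simp only [map_sub]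
    exact (norm_sub_le _ _).trans (add_le_add (h.2 i I hI) (h'.2 i I hI))⟩

open Classical in
theorem sum_head (F : List ι → ℝ) : ∑ I ∈ 𝒞.Nv (q + 1), F I =
    ∑ i, ∑ I ∈ (𝒞.Nv (q + 1)).filter (fun I => I.head? = some i), F I := by
  simp only [Finset.sum_filter]
  rw [Finset.sum_comm]
  refine Finset.sum_congr rfl fun I hI => ?_
  obtain ⟨i, J, rfl⟩ := exists_cons hI
  simp

theorem Dom.sum_le (h : 𝒞.Dom (q + 1) (fun I => |f I|) a) :
    ∑ I ∈ 𝒞.Nv (q + 1), f I ^ 2 ≤ N ^ (q + 1) * ∑ i, a i ^ 2 := by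
  classical
  rw [sum_head, Finset.mul_sum]
  refine Finset.sum_le_sum fun i _ => ?_
  refine (Finset.sum_le_card_nsmul _ _ (a i ^ 2) fun I hI => ?_).trans ?_
  · obtain ⟨h1, h2⟩ := Finset.mem_filter.1 hI
    obtain ⟨i', J, rfl⟩ := exists_cons h1
    obtain rfl : i' = i := by simpa using h2
    rw [← sq_abs]
    exact pow_le_pow_left₀ (abs_nonneg _) (h.2 _ _ h1) 2
  · rw [nsmul_eq_mul]
    refine mul_le_mul_of_nonneg_right ?_ (sq_nonneg _)
    exact_mod_cast (card_lists (𝒞.nb i) (q + 1) _ fun I hI => by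
      obtain ⟨h1, h2⟩ := Finset.mem_filter.1 hI
      exact ⟨(mem_Nv.1 h1).1, fun i' hi' =>
        nb_of_mem (mem_Nv.1 h1).2 (List.mem_of_mem_head? h2) hi'⟩).trans
          (Nat.pow_le_pow_left (𝒞.card_nb i) _)

theorem exists_dom (𝒞 : Cech H ι A N L) (q : ℕ) (f : List ι → ℝ) :
    ∃ a, 𝒞.Dom (q + 1) (fun I => |f I|) a ∧ ∑ i, a i ^ 2 = ∑ I ∈ 𝒞.Nv (q + 1), f I ^ 2 := by
  classical
  refine ⟨fun i => √(∑ I ∈ (𝒞.Nv (q + 1)).filter (fun I => I.head? = some i), f I ^ 2),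
    ⟨fun i => Real.sqrt_nonneg _, fun i I hI => Real.abs_le_sqrt
      (Finset.single_le_sum (f := fun I => f I ^ 2) (fun _ _ => sq_nonneg _) (by simp [hI]))⟩, ?_⟩
  rw [sum_head]
  exact Finset.sum_congr rfl fun i _ => Real.sq_sqrt (by positivity)

theorem card_Nv (𝒞 : Cech H ι A N L) (q : ℕ) :
    ((𝒞.Nv (q + 1)).card : ℝ) ≤ N ^ (q + 1) * Fintype.card ι := by
  simpa using Dom.sum_le (𝒞 := 𝒞) (q := q) (f := fun _ => 1) (a := fun _ => 1)
    ⟨fun _ => zero_le_one, fun _ _ _ => by simp⟩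

theorem exists_spl (𝒞 : Cech H ι A N L) (q : ℕ) : ∃ n : ℕ → ℕ,
    (∀ M, ∑ j ∈ Finset.range M, (n j : ℝ) ≤
      (N ^ (q + 1) + 2 * (N ^ (q + 2) * (q + 2) ^ 2)) * Fintype.card ι) ∧
    ∀ j, ∃ S : Submodule ℝ (List ι → ℝ), FiniteDimensional ℝ S ∧ Module.finrank ℝ S ≤ n j ∧
      𝒞.Spl (q + 1) S (2 ^ j) := by
  classical
  let B : Matrix (𝒞.Nv (q + 1 + 1)) (𝒞.Nv (q + 1)) ℤ := fun I J => cob (Pi.single J.1 1) I.1
  have hB : ∀ (a : List ι → ℝ) (I : 𝒞.Nv (q + 1 + 1)), ∑ J, (B I J : ℝ) * a J = cob a I := by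
    intro a I
    have h1 : ∀ J : 𝒞.Nv (q + 1), (B I J : ℝ) * a J =
        cob (fun K => ((Pi.single J.1 1 : List ι → ℤ) K : ℝ) * a J) I := fun J =>
      cob_map ((AddMonoidHom.mulRight (a J)).comp (Int.castAddHom ℝ)) _ _
    simp only [h1]
    rw [← cob_sum]
    refine cob_congr fun K h h' => ?_
    rw [Finset.sum_eq_single ⟨K, face I.2 h h'⟩ (fun J _ hJ => by
      rw [Pi.single_eq_of_ne fun e => hJ (Subtype.ext e.symm)]
      simp) (by simp)]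
    simp
  let ex := Function.ExtendByZero.linearMap ℝ (Subtype.val : 𝒞.Nv (q + 1) → List ι)
  have hex : ∀ a (J : 𝒞.Nv (q + 1)), ex a J = a J := fun a J =>
    Subtype.val_injective.extend_apply _ _ _
  obtain ⟨n, h1, h2⟩ := int_split B
  refine ⟨n, fun M => (h1 M).trans ?_, fun j => ?_⟩
  · have h3 : ∀ I, ∑ J, (B I J : ℝ) ^ 2 ≤ (q + 2) ^ 2 := fun I => by
      have h4 := hB (ex fun J => B I J) I
      simp only [hex, ← sq] at h4
      have h5 := norm_cob_le (I := I) (α := ex fun J => B I J) (b := √(∑ J, (B I J : ℝ) ^ 2))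
        fun K h h' => by
          rw [hex _ ⟨K, face I.2 h h'⟩]
          exact Real.abs_le_sqrt (Finset.single_le_sum (f := fun J => (B I J : ℝ) ^ 2)
            (fun _ _ => sq_nonneg _) (Finset.mem_univ _))
      rw [← h4, (mem_Nv.1 I.2).1] at h5
      have h6 := Real.sq_sqrt (show 0 ≤ ∑ J, (B I J : ℝ) ^ 2 by positivity)
      push_cast at h5
      nlinarith [le_abs_self (∑ J, (B I J : ℝ) ^ 2), sq_nonneg (√(∑ J, (B I J : ℝ) ^ 2) - (q + 2)),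
        Real.norm_eq_abs (∑ J, (B I J : ℝ) ^ 2)]
    have h4 := Finset.sum_le_card_nsmul _ _ _ fun I (_ : I ∈ Finset.univ) => h3 I
    rw [Finset.card_univ, Fintype.card_coe, nsmul_eq_mul] at h4
    rw [Fintype.card_coe]
    nlinarith [𝒞.card_Nv q, mul_le_mul_of_nonneg_right (𝒞.card_Nv (q + 1))
      (sq_nonneg ((q : ℝ) + 2))]
  · obtain ⟨S, h3, h4⟩ := h2 j
    refine ⟨S.map (Function.ExtendByZero.linearMap ℝ Subtype.val), inferInstance,
      (Submodule.finrank_map_le _ _).trans h3, fun a₀ => ?_⟩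
    obtain ⟨a, h5, h6⟩ := h4 fun J => a₀ J
    refine ⟨ex a, _, Submodule.mem_map_of_mem h5, fun I hI => ?_, ?_⟩
    · rw [← hB a₀ ⟨I, hI⟩, ← hB (ex a) ⟨I, hI⟩]
      simp only [hex]
      exact (Subtype.val_injective.extend_apply
        (fun I => ∑ J, (B I J : ℝ) * a₀ J - ∑ J, (B I J : ℝ) * a J) 0 ⟨I, hI⟩).symm
    · simp only [hB] at h6
      rw [← Finset.sum_coe_sort (𝒞.Nv (q + 1)), ← Finset.sum_coe_sort (𝒞.Nv (q + 1 + 1))]
      simpa only [hex] using h6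

end Cech

end Pool.Agent.Lib.MP_75c153_gt.Dc
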