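import Pool.Agent.Lib.MP_75c153_gt.Ft.Ext3

/-! Extension to all charts of a form with compact support in one chart. -/

open MeasureTheory Filter Topology Set
open scoped ContDiff InnerProductSpace

namespace Pool.Agent.Lib.MP_75c153_gt.Ft

open Pool.Agent.Lib.MP_570070_gt.An

variable {c : Par} {P : Type} {Γ : Gl c P} {k l : ℕ}

/-- Smooth with support in the compact subset K of the chart b. -/
structure IsL (c : Par) (b : Bool) (K : Set (Eu 5)) (α : Eu 5 → Alt 5 k) : Prop where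
  cpt : IsCompact K
  sub : K ⊆ DRb c b
  smooth : ContDiffOn ℝ ∞ α (DR c)
  supp : ∀ y ∈ DR c, α y ≠ 0 → y ∈ K

variable {b : Bool} {K K' : Set (Eu 5)} {α β : Eu 5 → Alt 5 k} {p₀ p : P} {y y' : Eu 5}
  {o : Option (Ed c)} {Ω Ω' : Fam P k}

theorem IsL.subDR (h : IsL c b K α) : K ⊆ DR c := h.sub.trans (DRb_subset b)

theorem comp_zero (A : Eu 5 →L[ℝ] Eu 5) : (0 : Alt 5 k).compContinuousLinearMap A = 0 := rfl

theorem comp_smul (t : ℝ) (a : Alt 5 k) (A : Eu 5 →L[ℝ] Eu 5) :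
    (t • a).compContinuousLinearMap A = t • a.compContinuousLinearMap A := rfl

theorem comp_comp (a : Alt 5 k) (A B : Eu 5 →L[ℝ] Eu 5) :
    (a.compContinuousLinearMap A).compContinuousLinearMap B =
      a.compContinuousLinearMap (A.comp B) := rfl

theorem comp_id (a : Alt 5 k) :
    a.compContinuousLinearMap (ContinuousLinearMap.id ℝ (Eu 5)) = a := rfl

theorem extC_link (hl : Link o y y') (hb : cb y' = b) (hp : Γ.go o p = p₀) :
    extC Γ p₀ b α p y = (α y').compContinuousLinearMap (lk o y y') := by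
  subst hb
  rw [extC, Finset.sum_eq_single o (fun o' _ h => if_neg fun h1 =>
    h (h1.2.eq_of_go hl (h1.1.trans hp.symm))) fun h => absurd (Finset.mem_univ o) h,
    hl.map_eq, if_pos ⟨hp, hl⟩, lk]

theorem extC_self (hy : y ∈ DRb c b) : extC Γ p₀ b α p₀ y = α y := by
  rw [extC_link (o := none) (p₀ := p₀) (p := p₀) (Link.refl hy.1) hy.2 rfl, lk_none, iv_self hy.1, comp_id]

theorem IsL.lk (h : IsL c b K α) (p₀ : P) : LK Γ p₀ K (extC Γ p₀ b α) := by
  intro p y hy h1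
  obtain ⟨o, -, h2⟩ := Finset.exists_ne_zero_of_sum_ne_zero h1
  split_ifs at h2 with h3
  · exact ⟨o, _, h.supp _ h3.2.mem' fun h4 => h2 (by rw [h4, comp_zero]), h3.2, h3.1⟩
  · exact absurd rfl h2

theorem LK.of_same (h : LK Γ p₀ K Ω) (hK : ∀ y ∈ K, ∃ y' ∈ K', Same c y y') :
    LK Γ p₀ K' Ω := fun p y hy h1 =>
  let ⟨o, y', h2, h3, h4⟩ := h p y hy h1
  let ⟨y'', h5, h6⟩ := hK y' h2
  ⟨o, y'', h5, h3.same_right h6, h4⟩

theorem IsL.isT (h : IsL c b K α) (p₀ : P) : IsT Γ (extC Γ p₀ b α) := by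
  refine IsT.of_link (fun p y hy => ContDiffAt.contDiffWithinAt ?_) (fun p o' y y'' f => ?_) ?_
  · by_cases h1 : ∃ o, ∃ y' ∈ K, Link o y y' ∧ Γ.go o p = p₀
    · obtain ⟨o, y', h2, f, h3⟩ := h1
      have hb := (h.sub h2).2
      refine (ext_contDiffAt_comp (α := α ∘ lkMap o (cb y')) (ContDiffAt.comp y ?_ f.contDiffAt)
        (f.contDiffAt.fderiv_right (m := ∞) le_rfl)).congr_of_eventuallyEq
        (f.eventually.mono fun z hz => ?_)
      · rw [f.map_eq]
        exact h.smooth.contDiffAt (isOpen_DR.mem_nhds f.mem')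
      · rw [extC_link hz.1 (hz.2.trans hb) h3, Ft.lk, hz.2]
        rfl
    · exact contDiffAt_const.congr_of_eventuallyEq ((h.lk p₀).eventually h.cpt h.subDR hy h1)
  · by_cases h1 : ∃ o, ∃ y' ∈ K, Link o y y' ∧ Γ.go o p = p₀
    · obtain ⟨o, y', h2, g, h3⟩ := h1
      have hb := (h.sub h2).2
      rw [extC_link g hb h3, extC_link (f.symm.trans g) hb
        (by rw [f.symm.go_cmp g, Γ.go_go, h3]), f.symm.lk_comp g, comp_comp,
        ContinuousLinearMap.comp_assoc, f.lk_inv, ContinuousLinearMap.comp_id]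
    · have h2 : extC Γ p₀ b α p y = 0 := by_contra fun h2 => h1 (h.lk p₀ p y f.mem h2)
      have h3 : extC Γ p₀ b α (Γ.go o' p) y'' = 0 := by_contra fun h3 => by
        obtain ⟨o, y', h4, g, h5⟩ := h.lk p₀ _ y'' f.mem' h3
        exact h1 ⟨_, y', h4, f.trans g, by rw [f.go_cmp g, h5]⟩
      rw [h2, h3, comp_zero]
  · refine (finite_range fun o => Γ.go o p₀).subset fun p ⟨y, hy, h1⟩ => ?_
    obtain ⟨o, -, -, -, h2⟩ := h.lk p₀ p y hy h1
    exact ⟨o, by rw [← h2]; exact Γ.go_go o p⟩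

theorem IsL.lkb (h : IsL c b K α) (p₀ : P) : LK Γ p₀ (DRb c b) (extC Γ p₀ b α) :=
  (h.lk p₀).mono h.sub

theorem dF_extC_self (hy : y ∈ DRb c b) : dF (extC Γ p₀ b α) p₀ y = extDeriv α y := by
  refine Filter.EventuallyEq.extDeriv_eq ?_
  filter_upwards [(isOpen_DRb b).eventually_mem hy] with z hz using extC_self hz

theorem extC_congr (h : ∀ y ∈ DR c, α y = β y) : extC Γ p₀ b α = extC Γ p₀ b β := by
  funext p y
  refine Finset.sum_congr rfl fun o _ => ?_
  split_ifs with h1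
  exacts [by rw [h _ h1.2.mem'], rfl]

/-- A cut-off function times a test form. -/
theorem IsT.isL (h : IsT Γ Ω) (p : P) {w : Eu 5 → ℝ} (hw : ContDiffOn ℝ ∞ w (DR c))
    (hK : IsCompact K) (hs : K ⊆ DRb c b) (h1 : ∀ y ∈ DR c, w y ≠ 0 → Ω p y ≠ 0 → y ∈ K) :
    IsL c b K fun y => w y • Ω p y :=
  ⟨hK, hs, hw.smul (h.smooth p), fun y hy h2 =>
    h1 y hy (fun h3 => h2 (by simp [h3])) fun h3 => h2 (by simp [h3])⟩

/-- The indicator function of the chart b. -/
noncomputable def chb (b : Bool) (y : Eu 5) : ℝ := if cb y = b then 1 else 0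

theorem chb_of_mem (hy : y ∈ DRb c b) : chb b y = 1 := if_pos hy.2

theorem cb_of_chb (h : chb b y ≠ 0) : cb y = b := by_contra fun h1 => h (if_neg h1)

theorem contDiffOn_chb (b : Bool) : ContDiffOn ℝ ∞ (chb b) (DR c) := fun y hy =>
  (contDiffAt_const.congr_of_eventuallyEq ((cb_eventually hy).mono fun z hz => by
    simp only [chb, hz]; rfl)).contDiffWithinAt

/-- The points in the support of rho that are identified with a point of K. -/
def Sat (c : Par) (K : Set (Eu 5)) (b : Bool) : Set (Eu 5) :=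
  {y | y ∈ DRb c b ∧ zsq y ≤ 3 ∧ ∃ y' ∈ K, Same c y y'}

theorem Sat_subset (K : Set (Eu 5)) (b : Bool) : Sat c K b ⊆ DRb c b := fun _ h => h.1

theorem exists_sc_bd (hK : IsCompact K) (hD : K ⊆ DR c) :
    ∃ a, -1 < a ∧ ∀ y ∈ K, ∀ e : Ed c, a ≤ sc e y := by
  have h : ∀ e : Ed c, ∃ a, -1 < a ∧ ∀ y ∈ K, a ≤ sc e y := fun e => by
    rcases K.eq_empty_or_nonempty with rfl | hne
    · exact ⟨0, by norm_num, fun _ h => absurd h (notMem_empty _)⟩
    obtain ⟨x, hx, h1⟩ := hK.exists_isMinOn hne ((contDiffOn_sc e).continuousOn.mono hD)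
    exact ⟨_, ((hD hx).1 e).2, fun y hy => h1 hy⟩
  choose a ha ha' using h
  obtain ⟨e, he⟩ := Finite.exists_min a
  exact ⟨a e, ha e, fun y hy e' => (he e').trans (ha' e' y hy)⟩

theorem isCompact_Sat (hK : IsCompact K) (hD : K ⊆ DR c) (b : Bool) : IsCompact (Sat c K b) := by
  obtain ⟨a, ha, ha'⟩ := exists_sc_bd hK hD
  have h1 := isCompact_coreb (c := c) ha (t := 2) (by norm_num) b
  refine h1.of_isClosed_subset ?_ fun y hy => ?_
  · refine isClosed_iff_nhds.2 fun y hy => ?_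
    have h2 : y ∈ {y : Eu 5 | y ∈ DRb c b ∧ (∀ e : Ed c, a ≤ sc e y) ∧ |zc y| ≤ 2 ∧ |y 4| ≤ 2} := by
      refine h1.isClosed.closure_subset (mem_closure_iff_nhds.2 fun t ht => ?_)
      obtain ⟨z, h3, h4, h5, z', h6, h7⟩ := hy t ht
      exact ⟨z, h3, h4, fun e => by rw [← h7.sc_eq e]; exact ha' z' h6 e,
        abs_le_of_zsq (by linarith)⟩
    refine ⟨h2.1, by_contra fun h3 => ?_, by_contra fun h3 => ?_⟩
    · obtain ⟨z, h4, h5⟩ := hy _ (continuousAt_const.eventually_lt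
        (contDiffOn_zsq.continuousOn.continuousAt (isOpen_DR.mem_nhds h2.1.1)) (not_le.1 h3))
      exact h5.2.1.not_gt h4
    · obtain ⟨z, h4, -, -, z', h5, h6⟩ := hy _ (eventually_not_link (o := none) hK hD h2.1.1
        fun y' h4 h5 => h3 ⟨y', h4, h5⟩)
      exact h4 z' h5 h6
  · obtain ⟨h4, h5, z', h6, h7⟩ := hy
    exact ⟨h4, fun e => by rw [← h7.sc_eq e]; exact ha' z' h6 e, abs_le_of_zsq (by linarith)⟩

/-- The part of a form in the chart b. -/
theorem LK.isL_rho (g : LK Γ p₀ K Ω) (h : IsT Γ Ω) (hK : IsCompact K) (hD : K ⊆ DR c) (b : Bool) :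
    IsL c b (Sat c K b) fun y => (chb b y * rho y) • Ω p₀ y :=
  h.isL p₀ ((contDiffOn_chb b).mul contDiffOn_rho) (isCompact_Sat hK hD b) (Sat_subset K b)
    fun _ hy h1 h2 => ⟨⟨hy, cb_of_chb (left_ne_zero_of_mul h1)⟩,
      (zsq_lt_of_rho_ne (right_ne_zero_of_mul h1)).le, g.self hy h2⟩

/-- The extension of a function times the form itself. -/
theorem extC_mul_link (h : IsT Γ Ω) (w : Eu 5 → ℝ) (hl : Link o y y') (hb : cb y' = b)
    (hp : Γ.go o p = p₀) : extC Γ p₀ b (fun y => w y • Ω p₀ y) p y = w y' • Ω p y := by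
  rw [extC_link hl hb hp, comp_smul, h.link p hl, hp]

/-- A form that lives in a piece is the sum of its parts in the two charts. -/
theorem LK.eq_add (g : LK Γ p₀ K Ω) (h : IsT Γ Ω) (hK : IsCompact K) (hD : K ⊆ DR c) (b : Bool)
    (p : P) (hy : y ∈ DR c) : Ω p y = extC Γ p₀ b (fun y => (chb b y * rho y) • Ω p₀ y) p y +
      extC Γ p₀ (!b) (fun y => (chb (!b) y * rho y) • Ω p₀ y) p y := by
  have z : ∀ b, Ω p y = 0 → extC Γ p₀ b (fun y => (chb b y * rho y) • Ω p₀ y) p y = 0 :=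
    fun b h1 => by_contra fun h2 => by
      obtain ⟨o, y', h3, f, h4⟩ := (g.isL_rho h hK hD b).lk p₀ p y hy h2
      exact h2 (by rw [extC_mul_link h _ f h3.1.2 h4, h1, smul_zero])
  by_cases h1 : Ω p y = 0
  · rw [z b h1, z _ h1, h1, add_zero]
  obtain ⟨o, y', -, f, h2⟩ := g p y hy h1
  have key : extC Γ p₀ (cb y') (fun y => (chb (cb y') y * rho y) • Ω p₀ y) p y +
      extC Γ p₀ (!cb y') (fun y => (chb (!cb y') y * rho y) • Ω p₀ y) p y = Ω p y := by
    rw [extC_mul_link h _ f rfl h2, chb_of_mem (mem_DRb f.mem'), one_mul]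
    by_cases h3 : ∃ y'', Same c y' y'' ∧ cb y'' = !cb y'
    · obtain ⟨y'', h4, h5⟩ := h3
      rw [extC_mul_link h _ (f.same_right h4) h5 h2, chb_of_mem ⟨h4.2.1, h5⟩, one_mul, ← add_smul,
        h4.rho_eq (by simp [h5]), add_sub_cancel, one_smul]
    · rw [rho_eq_one (by_contra fun h4 => h3 (exists_same f.mem' (by linarith))), one_smul,
        add_eq_left]
      by_contra h4
      obtain ⟨o', y'', h5, f', h6⟩ := (g.isL_rho h hK hD _).lk p₀ p y hy h4
      obtain rfl := f.eq_of_go f' (h2.trans h6.symm)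
      exact h3 ⟨y'', f.same f', h5.1.2⟩
  by_cases h3 : cb y' = b
  · rw [← h3, key]
  · rw [show b = !cb y' by cases b <;> simp_all, Bool.not_not, add_comm, key]

/-- A form that vanishes where sc e < a in p₀, where sc e > - a across e, and elsewhere. -/
theorem lk_Kc {a : ℝ} (ha : -1 < a) (ha' : a ≤ 2) (h : ∀ p, ∀ y ∈ DR c, Ω p y ≠ 0 →
    (p = p₀ ∧ ∀ e : Ed c, a ≤ sc e y) ∨ ∃ e, Γ.σ e p = p₀ ∧ sc e y ≤ -a) :
    LK Γ p₀ (Kc c a) Ω := fun p y hy h1 => by
  rcases h p y hy h1 with ⟨h2, h3⟩ | ⟨e, h2, h3⟩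
  · obtain ⟨y', h4, h5⟩ := exists_same_le hy
    exact ⟨none, y', ⟨h4.2.1, fun e => by rw [h4.sc_eq e]; exact h3 e, by linarith⟩, h4, h2⟩
  · have f := flip_flipPt hy (e := e) (by linarith)
    refine ⟨some e, _, ⟨f.2.1, fun e' => ?_, (zsq_flipPt hy e).trans (by norm_num)⟩, f, h2⟩
    by_cases h4 : e = e'
    · rw [← h4, f.sc_eq]
      linarith
    · linarith [sc_disj f.2.1 h4 (by linarith [f.symm.sc_lt])]

theorem Lcl.lkc (h : Lcl Γ p₀ Ω) : LK Γ p₀ (Kc c (-1 / 2)) Ω :=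
  lk_Kc (by norm_num) (by norm_num) fun p y hy h1 =>
    (h p y hy h1).imp_right fun ⟨e, h2, h3⟩ => ⟨e, h2, by linarith⟩

theorem Kc_subset (a : ℝ) : Kc c a ⊆ DR c := fun _ h => h.1

/-- Scalar products with an extension. -/
theorem IsL.inner (U : UpL2 Γ) (h : IsL c b K α) (p₀ : P) (hΩ : IsT Γ Ω) :
    ⟪U.j k (extC Γ p₀ b α), U.j k Ω⟫_ℝ = ∫ y in DRb c b, ipUp c y (α y) (Ω p₀ y) * vol c y := by
  rw [U.chart k p₀ b _ _ (h.isT p₀) hΩ (h.lkb p₀)]
  exact setIntegral_congr_fun (isOpen_DRb b).measurableSet fun y hy => by simp only [extC_self hy]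

theorem IsL.norm_sq (U : UpL2 Γ) (h : IsL c b K α) (p₀ : P) :
    ‖U.j k (extC Γ p₀ b α)‖ ^ 2 = ∫ y in DRb c b, ipUp c y (α y) (α y) * vol c y := by
  rw [← real_inner_self_eq_norm_sq, h.inner U p₀ (h.isT p₀)]
  exact setIntegral_congr_fun (isOpen_DRb b).measurableSet fun y hy => by simp only [extC_self hy]

theorem IsL.integrableOn (h : IsL c b K α) (hβ : ContinuousOn β (DR c)) :
    IntegrableOn (fun y => ipUp c y (α y) (β y) * vol c y) (DRb c b) :=
  integrableOn_of_supp (isOpen_DRb b) (((continuousOn_ipUp h.smooth.continuousOn hβ).mul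
    contDiffOn_vol.continuousOn).mono (DRb_subset b)) h.cpt h.sub fun y hy h1 =>
      h.supp y hy.1 fun h2 => h1 (by rw [h2, ipUp_zero_left, zero_mul])

end Pool.Agent.Lib.MP_75c153_gt.Ft
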