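import Pool.Agent.Lib.MP_75c153_gt.Dc.DCov
import Pool.Agent.Lib.MP_75c153_gt.Dc.DExt
import Pool.Agent.Lib.MP_75c153_gt.Ft.UOp

/-! Extension of functions with compact support in one chart. -/

open MeasureTheory Filter Topology Set Metric
open scoped ContDiff InnerProductSpace
open Pool.Agent.Lib.MP_570070_gt.An

namespace Pool.Agent.Lib.MP_75c153_gt.Ft

variable {c : Par} {P : Type} {Γ : Gl c P} {k : ℕ} {b : Bool} {K S : Set (Eu 5)} {g : Eu 5 → ℝ}
  {p₀ p : P} {y y' : Eu 5} {o : Option (Ed c)} {Ω Ω' : Fam P k}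

theorem mem_sat_self (hy : y ∈ DR c) (h : y ∈ S) : (⟨p₀, ⟨y, hy⟩⟩ : Σ _ : P, DR c) ∈ sat Γ p₀ S :=
  ⟨none, y, h, Link.refl hy, rfl⟩

theorem sat_mono (h : S ⊆ K) : sat Γ p₀ S ⊆ sat Γ p₀ K :=
  fun _ ⟨o, y, h1, h2⟩ => ⟨o, y, h h1, h2⟩

theorem eq_on_sat (h : IsT Γ Ω) (h' : IsT Γ Ω') (e : ∀ y ∈ S, Ω p₀ y = Ω' p₀ y)
    {x : Σ _ : P, DR c} (hx : x ∈ sat Γ p₀ S) : Ω x.1 x.2 = Ω' x.1 x.2 := by
  obtain ⟨o, y, h1, h2, h3⟩ := hx
  rw [h.link _ h2, h'.link _ h2, h3, e y h1]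

theorem f0_comp (t : ℝ) (A : Eu 5 →L[ℝ] Eu 5) : (f0 t).compContinuousLinearMap A = f0 t := rfl

theorem c0_comp (α : Alt 5 0) (A : Eu 5 →L[ℝ] Eu 5) :
    c0 (α.compContinuousLinearMap A) = c0 α := by
  rw [← f0_c0 α, f0_comp]

theorem const_on_sat {Ω : Fam P 0} (h : IsT Γ Ω) {t : ℝ} (e : ∀ y ∈ S, Ω p₀ y = f0 t)
    {x : Σ _ : P, DR c} (hx : x ∈ sat Γ p₀ S) : Ω x.1 x.2 = f0 t := by
  obtain ⟨o, y, h1, h2, h3⟩ := hx
  rw [h.link _ h2, h3, e y h1, f0_comp]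

/-- The extension of a function given in the chart b of the piece p₀. -/
noncomputable def extF (Γ : Gl c P) (p₀ : P) (b : Bool) (g : Eu 5 → ℝ) : Fn P :=
  fun p y => c0 (extC Γ p₀ b (fun z => f0 (g z)) p y)

/-- Smooth functions with support in a compact subset of a chart. -/
abbrev IsG (c : Par) (b : Bool) (K : Set (Eu 5)) (g : Eu 5 → ℝ) : Prop :=
  IsL c b K fun z => f0 (g z)

theorem isG_of (hK : IsCompact K) (hs : K ⊆ DRb c b) (hg : ContDiffOn ℝ ∞ g (DR c))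
    (h : ∀ y ∈ DR c, g y ≠ 0 → y ∈ K) : IsG c b K g :=
  ⟨hK, hs, contDiff_f0.comp_contDiffOn hg, fun y hy h1 => h y hy fun h2 => h1 (by simp [h2])⟩

theorem extF_link (hl : Link o y y') (hb : cb y' = b) (hp : Γ.go o p = p₀) :
    extF Γ p₀ b g p y = g y' := by
  rw [extF, extC_link hl hb hp, f0_comp, c0_f0]

theorem IsL.extF_off (h : IsG c b K g) (hy : y ∈ DR c) (h1 : ⟨p, ⟨y, hy⟩⟩ ∉ sat Γ p₀ K) :
    ∀ᶠ z in 𝓝 y, extF Γ p₀ b g p z = 0 :=
  ((h.lk p₀).eventually h.cpt h.subDR hy h1).mono fun z hz => by rw [extF, hz, c0_zero]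

theorem IsL.extF_cases (h : IsG c b K g) (p₀ p : P) (hy : y ∈ DR c) :
    extF Γ p₀ b g p y = 0 ∨ ∃ y' ∈ K, extF Γ p₀ b g p y = g y' := by
  by_cases h1 : ⟨p, ⟨y, hy⟩⟩ ∈ sat Γ p₀ K
  · obtain ⟨o, y', h2, h3, h4⟩ := h1
    exact .inr ⟨y', h2, extF_link h3 (h.sub h2).2 h4⟩
  · exact .inl (h.extF_off hy h1).self_of_nhds

theorem gsq_link (hl : Link o y y') (ℓ : Eu 5 →L[ℝ] ℝ) :
    gsq c y (ℓ.comp (lk o y y')) = gsq c y' ℓ := by
  have key : ∀ (z : Eu 5) (ℓ : Eu 5 →L[ℝ] ℝ),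
      gsq c z ℓ = ipUp c z (wedge ℓ (f0 1)) (wedge ℓ (f0 1)) := fun z ℓ => by
    simp only [ipUp_one_deg, wedge_f0_bas, c0_f0, gsq, fr, map_smul, smul_eq_mul]
    exact Finset.sum_congr rfl fun i _ => by ring
  rw [key, key, ← hl.ipUp_lk, wedge_comp, f0_comp]

theorem IsL.extF_bd (h : IsG c b K g) : ∃ B, 0 ≤ B ∧ ∀ {P : Type} (Γ : Gl c P) (p₀ p : P),
    ∀ y ∈ DR c, |extF Γ p₀ b g p y| ≤ B ∧ gsq c y (fderiv ℝ (extF Γ p₀ b g p) y) ≤ B := by
  have hg : ContDiffOn ℝ ∞ g (DR c) := contDiff_c0.comp_contDiffOn h.smooth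
  have h1 : ContinuousOn (fun y => |g y| + gsq c y (fderiv ℝ g y)) K := by
    refine (hg.continuousOn.abs.add (continuousOn_finsetSum _ fun i _ => ContinuousOn.pow
      (ContinuousOn.clm_apply (hg.continuousOn_fderiv_of_isOpen isOpen_DR (by simp))
        (contDiffOn_fr i).continuousOn) 2)).mono h.subDR
  obtain ⟨B, hB⟩ := h.cpt.exists_bound_of_continuousOn h1
  refine ⟨|B|, abs_nonneg B, fun Γ p₀ p y hy => ?_⟩
  by_cases h2 : ⟨p, ⟨y, hy⟩⟩ ∈ sat Γ p₀ K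
  · obtain ⟨o, y', h3, h4, h5⟩ := h2
    have h6 : extF Γ p₀ b g p₀ =ᶠ[𝓝 y'] g :=
      eventually_of_mem ((isOpen_DRb b).mem_nhds (h.sub h3)) fun z hz =>
        extF_link (Link.refl hz.1) hz.2 rfl
    have h7 : fderiv ℝ (extF Γ p₀ b g p) y = (fderiv ℝ g y').comp (Ft.lk o y y') := by
      rw [← h6.fderiv_eq]
      refine Link.fderiv_eq h4 (h6.differentiableAt_iff.2 ((hg.contDiffAt
        (isOpen_DR.mem_nhds h4.mem')).differentiableAt (by simp))) fun z z' hz => ?_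
      rw [extF, (h.isT p₀).link p hz, show Γ.go o p = p₀ from h5, c0_comp]
      rfl
    have h8 := (le_abs_self _).trans ((hB y' h3).trans (le_abs_self B))
    rw [extF_link h4 (h.sub h3).2 h5, h7, gsq_link h4]
    constructor <;> linarith [abs_nonneg (g y'), gsq_nonneg (c := c) (y := y') (fderiv ℝ g y')]
  · have h3 : extF Γ p₀ b g p =ᶠ[𝓝 y] fun _ => 0 := h.extF_off hy h2
    rw [h3.self_of_nhds, h3.fderiv_eq]
    simp [gsq_zero]

theorem IsL.isFn (h : IsG c b K g) (p₀ : P) : IsFn Γ (extF Γ p₀ b g) where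
  smooth p := contDiff_c0.comp_contDiffOn ((h.isT p₀).smooth p)
  same p y y' f := by
    rw [extF, (h.isT p₀).same p y y' f, c0_comp]
    rfl
  flip p e y y' f := by
    rw [extF, (h.isT p₀).flip p e y y' f, c0_comp]
    rfl
  bdd := by
    obtain ⟨B, -, hB⟩ := h.extF_bd
    exact ⟨B, hB Γ p₀⟩

open Classical in
theorem extF_eq : extF Γ p₀ b g p y =
    ∑ o, if Γ.go o p = p₀ ∧ Link o y (lkMap o b y) then g (lkMap o b y) else 0 := by
  simp only [extF, extC, c0, ContinuousAlternatingMap.sum_apply]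
  exact Finset.sum_congr rfl fun o _ => by split_ifs <;> rfl

theorem sum_extF [Fintype P] {n : ℕ} {x : Fin n → Eu 5} {φ : Fin n → Eu 5 → ℝ}
    (h1 : ∀ j y, φ j y ≠ 0 → cb y = cb (x j)) (h2 : ∀ y ∈ Kw c, ∑ j, φ j y = 1) (hy : y ∈ DR c) :
    ∑ i : P × Fin n, extF Γ i.1 (cb (x i.2)) (fun z => φ i.2 z * wg c z) p y = 1 := by
  classical
  rw [Fintype.sum_prod_type, ← sum_wt_single (Γ := Γ) Finset.univ hy (Finset.mem_univ p)
    fun _ _ => Finset.mem_univ _]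
  refine Finset.sum_congr rfl fun p₀ _ => ?_
  have hT : IsT Γ fun p y => wt Γ (indicator {p₀} 1) p y • f0 1 :=
    ((isFn_wt_ind {p₀}).isT_ofFn (toFinite _)).congr fun p y _ => by
      rw [ofFn, ← f0_smul, mul_one]
  have h3 := congrArg c0 ((lcl_wt p₀ fun _ _ => f0 1).lkc.eq_add hT (isCompact_Kc (by norm_num))
    (Kc_subset _) true p hy)
  rw [c0_smul, c0_f0, mul_one, c0_add] at h3
  have h4 : ∀ b, c0 (extC Γ p₀ b (fun y => (chb b y * rho y) •
      wt Γ (indicator {p₀} 1) p₀ y • f0 1) p y) = ∑ j, if cb (x j) = b then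
        extF Γ p₀ (cb (x j)) (fun z => φ j z * wg c z) p y else 0 := fun b => by
    rw [extC_congr (β := fun z => f0 (∑ j, if cb (x j) = b then φ j z * wg c z else 0))]
    · refine extF_eq.trans ?_
      have h5 : ∀ j, (if cb (x j) = b then extF Γ p₀ (cb (x j)) (fun z => φ j z * wg c z) p y
          else 0) = ∑ o, if Γ.go o p = p₀ ∧ Link o y (lkMap o b y) then
            if cb (x j) = b then φ j (lkMap o b y) * wg c (lkMap o b y) else 0 else 0 := fun j => by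
        split_ifs with h
        · rw [h, extF_eq]
        · simp
      simp only [h5]
      rw [Finset.sum_comm]
      exact Finset.sum_congr rfl fun o _ => by split_ifs <;> simp
    · intro z hz
      rw [smul_smul, ← f0_smul, mul_one, wt_single_self, mul_assoc, mul_comm (rho z), ← wg]
      congr 1
      by_cases h5 : wg c z = 0
      · simp [h5]
      · have h6 : ∀ j, (if cb (x j) = b then φ j z * wg c z else 0) =
            chb b z * (φ j z * wg c z) := fun j => by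
          by_cases h7 : φ j z = 0
          · simp [h7]
          · rw [chb, h1 j z h7]
            split_ifs <;> simp
        simp only [h6, ← Finset.mul_sum, ← Finset.sum_mul, h2 z (mem_Kw_of_wg hz h5), one_mul]
  rw [h3, h4, h4, ← Finset.sum_add_distrib]
  exact Finset.sum_congr rfl fun j _ => by cases cb (x j) <;> simp

end Pool.Agent.Lib.MP_75c153_gt.Ft
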