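import Pool.Agent.Lib.MP_75c153_gt.Dc.DFn
import Pool.Agent.Lib.MP_75c153_gt.Dc.DPoin

/-! Local estimates in one chart, uniform in the gluing pattern. -/

open MeasureTheory Filter Topology Set Metric
open scoped ContDiff InnerProductSpace
open Pool.Agent.Lib.MP_570070_gt.An Pool.Agent.Lib.MP_75c153_gt.Dc

namespace Pool.Agent.Lib.MP_75c153_gt.Ft

variable {c : Par} {b : Bool} {K : Set (Eu 5)} {g : Eu 5 → ℝ} {x : Eu 5} {r R : ℝ}

theorem exists_cmp (hK : IsCompact K) (hD : K ⊆ DR c) (k : ℕ) : ∃ C : ℝ, 0 ≤ C ∧ ∀ y ∈ K,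
    ∀ a : Alt 5 k, ipUp c y a a * vol c y ≤ C * ‖a‖ ^ 2 ∧
      ‖a‖ ^ 2 ≤ C * (ipUp c y a a * vol c y) := by
  obtain ⟨C, hC, h⟩ := ext3_ipUp_cmp hK hD k
  let ev : Alt 5 k →L[ℝ] ((Fin k → Fin 5) → ℝ) := ContinuousLinearMap.pi fun I =>
    ContinuousAlternatingMap.apply ℝ (Eu 5) ℝ fun l => Pi.basisFun ℝ (Fin 5) (I l)
  obtain ⟨G, hG⟩ := ContinuousLinearMap.HasLeftInverse.of_injective_of_finiteDimensional (f := ev)
    fun α β e => ContinuousAlternatingMap.toAlternatingMap_injective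
      ((Pi.basisFun ℝ (Fin 5)).ext_alternating fun I _ => congrFun e I)
  have hev : ∀ a I, ev a I = a fun l => bas (I l) := fun a I => by simp [ev, bas]
  refine ⟨C * (5 ^ k * ‖ev‖ ^ 2 + ‖G‖ ^ 2), by positivity, fun y hy a => ?_⟩
  have h0 : 0 ≤ ipUp c y a a * vol c y := mul_nonneg (ipUp_self_nonneg a) (vol_pos (hD hy)).le
  have h1 : ∑ I : Fin k → Fin 5, (a fun l => bas (I l)) ^ 2 ≤ 5 ^ k * (‖ev‖ * ‖a‖) ^ 2 := by
    refine (Finset.sum_le_card_nsmul _ _ ((‖ev‖ * ‖a‖) ^ 2) fun I _ => ?_).trans_eq (by simp)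
    rw [← hev, ← sq_abs]
    exact pow_le_pow_left₀ (abs_nonneg _) ((norm_le_pi_norm (ev a) I).trans (ev.le_opNorm a)) 2
  have h2 : ‖ev a‖ ^ 2 ≤ ∑ I : Fin k → Fin 5, (a fun l => bas (I l)) ^ 2 := by
    rw [← Real.le_sqrt (norm_nonneg _) (by positivity), pi_norm_le_iff_of_nonneg (by positivity)]
    exact fun I => Real.abs_le_sqrt (hev a I ▸ Finset.single_le_sum
      (f := fun I : Fin k → Fin 5 => (a fun l => bas (I l)) ^ 2) (fun _ _ => sq_nonneg _)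
        (Finset.mem_univ I))
  have h3 := pow_le_pow_left₀ (norm_nonneg _) (G.le_opNorm (ev a)) 2
  rw [hG a, mul_pow] at h3
  constructor
  · nlinarith [(h y hy a).1, mul_le_mul_of_nonneg_left h1 hC,
      mul_nonneg hC (mul_nonneg (sq_nonneg ‖G‖) (sq_nonneg ‖a‖))]
  · nlinarith [mul_le_mul_of_nonneg_left (h2.trans (h y hy a).2) (sq_nonneg ‖G‖),
      mul_nonneg (show 0 ≤ C * (5 ^ k * ‖ev‖ ^ 2) by positivity) h0]

theorem int_le (hK : IsCompact K) (hs : K ⊆ DRb c b) (k : ℕ) : ∃ C : ℝ, 0 ≤ C ∧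
    ∀ {P : Type} {Γ : Gl c P} (U : UpL2 Γ) (p : P) (Ω : Fam P k), IsT Γ Ω → ∀ S ⊆ K,
      ∫ y in S, ‖Ω p y‖ ^ 2 ≤ C * ‖U.j k Ω‖ ^ 2 := by
  have hD := hs.trans (DRb_subset b)
  obtain ⟨C, hC, h⟩ := exists_cmp hK hD k
  refine ⟨C, hC, fun U p Ω hΩ S hS => ?_⟩
  have h1 := (hΩ.smooth p).continuousOn
  have h2 : IntegrableOn (fun y => ‖Ω p y‖ ^ 2) K :=
    ((h1.mono hD).norm.pow 2).integrableOn_compact hK
  refine ((setIntegral_mono_set h2 (Eventually.of_forall fun y => sq_nonneg _)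
    hS.eventuallyLE).trans ?_).trans (mul_le_mul_of_nonneg_left (U.chart_le ⟨hK, hs⟩ hΩ p) hC)
  rw [← integral_const_mul]
  exact setIntegral_mono_on h2 (((((continuousOn_ipUp h1 h1).mul
    contDiffOn_vol.continuousOn).mono hD).integrableOn_compact hK).const_mul C) hK.measurableSet
      fun y hy => (h y hy _).2

theorem ext_le (hK : IsCompact K) (hs : K ⊆ DRb c b) (k : ℕ) : ∃ C : ℝ, 0 ≤ C ∧
    ∀ {P : Type} {Γ : Gl c P} (U : UpL2 Γ) (p : P) (α : Eu 5 → Alt 5 k), IsL c b K α →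
      ‖U.j k (extC Γ p b α)‖ ^ 2 ≤ C * ∫ y in K, ‖α y‖ ^ 2 := by
  have hD := hs.trans (DRb_subset b)
  obtain ⟨C, hC, h⟩ := exists_cmp hK hD k
  refine ⟨C, hC, fun U p α hα => ?_⟩
  have h1 := hα.smooth.continuousOn
  rw [hα.norm_sq U p, setIntegral_eq_of_subset_of_forall_sdiff_eq_zero
    (isOpen_DRb b).measurableSet hs fun y hy => by
      rw [of_not_not (mt (hα.supp y hy.1.1) hy.2), ipUp_zero_left, zero_mul], ← integral_const_mul]
  exact setIntegral_mono_on ((hα.integrableOn h1).mono_set hs)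
    ((((h1.mono hD).norm.pow 2).integrableOn_compact hK).const_mul C) hK.measurableSet
      fun y hy => (h y hy _).1

theorem le_of_sq {u v C A : ℝ} (hv : 0 ≤ v) (h : u ^ 2 ≤ C * v ^ 2) (hA : √C ≤ A) :
    u ≤ A * v := by
  refine (Real.le_sqrt_of_sq_le h).trans ?_
  rw [Real.sqrt_mul' _ (sq_nonneg v), Real.sqrt_sq hv]
  exact mul_le_mul_of_nonneg_right hA hv

theorem prim_chart (hr : 0 < r) (hR : r < R) (hD : closedBall x R ⊆ DRb c b) (k : ℕ) :
    ∀ᶠ A in atTop, ∀ {P : Type} {Γ : Gl c P} (U : UpL2 Γ) (p : P) (Ω : Fam P (k + 1)), IsT Γ Ω →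
      (∀ y ∈ ball x R, dF Ω p y = 0) → ∃ Θ, IsT Γ Θ ∧ (∀ y ∈ ball x r, dF Θ p y = Ω p y) ∧
        ‖U.j k Θ‖ ≤ A * ‖U.j (k + 1) Ω‖ := by
  obtain ⟨K₁, ζ₁, a1, a2, a3, -, a4⟩ := exists_cutoff (isCompact_closedBall x R) (isOpen_DRb b) hD
  obtain ⟨K₂, ζ₂, b1, b2, b3, b4, b5⟩ := exists_cutoff (isCompact_closedBall x r) isOpen_ball
    (closedBall_subset_ball hR)
  have hb := ball_subset_closedBall.trans hD
  obtain ⟨C₁, c1, c2⟩ := int_le (isCompact_closedBall x R) hD (k + 1)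
  obtain ⟨C₂, d1, d2⟩ := ext_le b1 (b2.trans hb) k
  filter_upwards [eventually_ge_atTop √(C₂ * (4 * R ^ 2 * 2 ^ 5 * C₁))] with A hA
  intro P Γ U p Ω hΩ h
  have h1 := sm_indicator (F := fun y => ζ₁ y • Ω p y) isOpen_DR
    (a3.1.contDiffOn.smul (hΩ.smooth p)) a1 (a2.trans (DRb_subset b))
    fun y _ h => a3.2 y (left_ne_zero_of_smul h)
  have h2 : ∀ y ∈ ball x R, (DR c).indicator (fun y => ζ₁ y • Ω p y) =ᶠ[𝓝 y] Ω p := fun y hy =>
    (indicator_eventuallyEq _ isOpen_DR (hb hy).1).trans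
      ((a4 y (ball_subset_closedBall hy)).mono fun z hz => by simp [hz])
  obtain ⟨κ, h3, h4, h5⟩ := poincare x (hr.trans hR) h1.1 fun y hy =>
    (h2 y hy).extDeriv_eq.trans (h y hy)
  have h6 : IsL c b K₂ fun y => ζ₂ y • κ y := ⟨b1, b2.trans hb, (b3.1.smul h3).contDiffOn,
    fun y _ h => b3.2 y (left_ne_zero_of_smul h)⟩
  refine ⟨_, h6.isT p, fun y hy => ?_, le_of_sq (norm_nonneg _) ((d2 U p _ h6).trans ?_) hA⟩
  · have h7 := ball_subset_ball hR.le hy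
    rw [dF_extC_self (hb h7), ← (h2 y h7).self_of_nhds, ← h4 y h7]
    exact EventuallyEq.extDeriv_eq ((b5 y (ball_subset_closedBall hy)).mono fun z hz => by
      simp [hz])
  · rw [mul_assoc, mul_assoc]
    refine mul_le_mul_of_nonneg_left (le_trans ?_ (h5.trans (mul_le_mul_of_nonneg_left
      (le_trans (le_of_eq ?_) (c2 U p Ω hΩ _ ball_subset_closedBall)) (by positivity)))) d1
    · have h7 : IntegrableOn (fun y => ‖κ y‖ ^ 2) (ball x R) :=
        ((h3.continuous.norm.pow 2).continuousOn.integrableOn_compact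
          (isCompact_closedBall x R)).mono_set ball_subset_closedBall
      refine (setIntegral_mono_on (((b3.1.smul h3).continuous.norm.pow
        2).continuousOn.integrableOn_compact b1) (h7.mono_set b2) b1.measurableSet
        fun y _ => ?_).trans (setIntegral_mono_set h7 (Eventually.of_forall fun y => sq_nonneg _)
          b2.eventuallyLE)
      refine pow_le_pow_left₀ (norm_nonneg (ζ₂ y • κ y)) ?_ 2
      rw [norm_smul, Real.norm_of_nonneg (b4 y).1]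
      exact mul_le_of_le_one_left (norm_nonneg _) (b4 y).2
    · exact setIntegral_congr_fun measurableSet_ball fun y hy => by
        simp only [(h2 y hy).self_of_nhds]

theorem const_le (hr : 0 < r) (hD : closedBall x r ⊆ DRb c b) :
    ∀ᶠ A in atTop, ∀ {P : Type} {Γ : Gl c P} (U : UpL2 Γ) (p : P) (Ω : Fam P 0) (t : ℝ),
      IsT Γ Ω → (∀ y ∈ ball x r, Ω p y = f0 t) → |t| ≤ A * ‖U.j 0 Ω‖ := by
  obtain ⟨C, -, h⟩ := int_le (isCompact_closedBall x r) hD 0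
  have hv : 0 < volume.real (ball x r) :=
    ENNReal.toReal_pos (measure_ball_pos _ x hr).ne' measure_ball_lt_top.ne
  filter_upwards [eventually_ge_atTop √(C / volume.real (ball x r))] with A hA
  intro P Γ U p Ω t hΩ h1
  have h2 := h U p Ω hΩ _ ball_subset_closedBall
  rw [setIntegral_congr_fun measurableSet_ball (g := fun _ => |t| ^ 2) fun y hy => by
    simp [h1 y hy, f0], setIntegral_const, smul_eq_mul] at h2
  refine le_of_sq (norm_nonneg _) ?_ hA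
  rwa [div_mul_eq_mul_div, le_div_iff₀' hv]

theorem wed_le (h : IsG c b K g) (k : ℕ) :
    ∀ᶠ A in atTop, ∀ {P : Type} {Γ : Gl c P} (U : UpL2 Γ) (p₀ : P) (Ω : Fam P k), IsT Γ Ω →
      ‖U.j (k + 1) ((Tr.ofFn (h.isFn (Γ := Γ) p₀)).wed Ω)‖ ≤ A * ‖U.j k Ω‖ := by
  obtain ⟨B, -, hB⟩ := h.extF_bd
  filter_upwards [eventually_ge_atTop √((k + 1) * B)] with A hA
  intro P Γ U p₀ Ω hΩ
  have h1 := (Tr.ofFn (h.isFn p₀)).isT_wed hΩ
  refine le_of_sq (norm_nonneg _) ?_ hA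
  rw [U.norm_sq_intF h1, U.norm_sq_intF hΩ, ← intF_const_mul (hΩ.isC_ip hΩ)]
  refine intF_mono (h1.isC_ip h1) ((hΩ.isC_ip hΩ).const_mul _) fun p y hy => ?_
  exact (ipUp_wedge_le _ _).trans (mul_le_mul_of_nonneg_right
    (mul_le_mul_of_nonneg_left (hB Γ p₀ p y hy).2 (by positivity)) (ipUp_self_nonneg _))

theorem one_le (h : IsG c b K g) :
    ∀ᶠ A in atTop, ∀ {P : Type} {Γ : Gl c P} (U : UpL2 Γ) (p : P),
      ‖U.j 0 (extC Γ p b fun z => f0 (g z))‖ ≤ A := by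
  filter_upwards [eventually_ge_atTop
    √(∫ y in DRb c b, ipUp c y (f0 (g y)) (f0 (g y)) * vol c y)] with A hA
  intro P Γ U p
  exact (Real.le_sqrt_of_sq_le (h.norm_sq U p).le).trans hA

end Pool.Agent.Lib.MP_75c153_gt.Ft
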