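import Pool.Agent.Lib.MP_75c153_gt.Dc.DDom

/-! The zig-zag: bounded primitives of exact forms modulo finite dimensional spaces. -/

open Set

namespace Pool.Agent.Lib.MP_75c153_gt.Dc

theorem sum_add_sq {ι : Type} [Fintype ι] (a b : ι → ℝ) :
    ∑ i, (a i + b i) ^ 2 ≤ 2 * ∑ i, a i ^ 2 + 2 * ∑ i, b i ^ 2 := by
  rw [Finset.mul_sum, Finset.mul_sum, ← Finset.sum_add_distrib]
  exact Finset.sum_le_sum fun i _ => by nlinarith [sq_nonneg (a i - b i)]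

theorem sum_mul_sq {ι : Type} [Fintype ι] (t : ℝ) (a : ι → ℝ) :
    ∑ i, (t * a i) ^ 2 = t ^ 2 * ∑ i, a i ^ 2 := by
  simp only [mul_pow, Finset.mul_sum]

section

variable {H : ℕ → Type} [∀ k, NormedAddCommGroup (H k)] [∀ k, NormedSpace ℝ (H k)]
  {ι : Type} [Fintype ι] {A : ℝ} {N L : ℕ} {𝒞 : Cech H ι A N L} {k q m : ℕ} {a : ι → ℝ}

namespace Cech

theorem exists_prim (hm : m < L) (hk : k ≤ L) {α : List ι → 𝒞.T (k + 1)}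
    (h : ∀ i I, i :: I ∈ 𝒞.Nv q → ∀ x ∈ 𝒞.O (m + 1) i,
      𝒞.ev (k + 1 + 1) x (𝒞.d (k + 1) (α (i :: I))) = 0) :
    ∃ κ : List ι → 𝒞.T k, ∀ i I, i :: I ∈ 𝒞.Nv q → (∀ x ∈ 𝒞.O m i,
      𝒞.ev (k + 1) x (𝒞.d k (κ (i :: I))) = 𝒞.ev (k + 1) x (α (i :: I))) ∧
      ‖𝒞.J k (κ (i :: I))‖ ≤ A * ‖𝒞.J (k + 1) (α (i :: I))‖ := by
  have key : ∀ K : List ι, ∃ κ : 𝒞.T k, ∀ i I, K = i :: I → K ∈ 𝒞.Nv q → (∀ x ∈ 𝒞.O m i,
      𝒞.ev (k + 1) x (𝒞.d k κ) = 𝒞.ev (k + 1) x (α K)) ∧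
      ‖𝒞.J k κ‖ ≤ A * ‖𝒞.J (k + 1) (α K)‖ := fun K => by
    cases K with
    | nil => exact ⟨0, fun _ _ e => by cases e⟩
    | cons i I =>
      by_cases hI : i :: I ∈ 𝒞.Nv q
      · obtain ⟨κ, hκ⟩ := 𝒞.prim m hm k hk i _ (h i I hI)
        exact ⟨κ, fun _ _ e _ => by cases e; exact hκ⟩
      · exact ⟨0, fun _ _ _ h' => (hI h').elim⟩
  choose κ hκ using key
  exact ⟨κ, fun i I hI => hκ _ i I rfl hI⟩

theorem eq_of_head {α β : List ι → 𝒞.T k} (h : ∀ i I, i :: I ∈ 𝒞.Nv (q + 1) → ∀ x ∈ 𝒞.O m i,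
    𝒞.ev k x (α (i :: I)) = 𝒞.ev k x (β (i :: I))) : 𝒞.Eq (q + 1) m α β := fun K hK x hx => by
  obtain ⟨i, I, rfl⟩ := exists_cons hK
  exact h i I hK x (mem_R_cons.1 hx).1

/-- The first step: local primitives. -/
theorem first (hA : 0 ≤ A) (hm : m + 2 ≤ L) (hk : k ≤ L) {η : List ι → 𝒞.T k}
    {Ω : List ι → 𝒞.T (k + 1)} (h1 : 𝒞.Eq (q + 1 + 1) (m + 2) (cob η) fun _ => 0)
    (h2 : 𝒞.Eq (q + 1) (m + 2) (fun I => 𝒞.d k (η I)) Ω)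
    (ha : 𝒞.Dom (q + 1) (fun I => ‖𝒞.J (k + 1) (Ω I)‖) a) :
    𝒞.Eq (q + 1 + 1) 0 (cob Ω) (fun _ => 0) ∧ ∃ κ : List ι → 𝒞.T k,
      𝒞.Eq (q + 1) 0 (fun I => 𝒞.d k (κ I)) Ω ∧
      (∀ i I, i :: I ∈ 𝒞.Nv (q + 1) → ∀ x ∈ 𝒞.O m i,
        𝒞.ev (k + 1) x (𝒞.d k (κ (i :: I) - η (i :: I))) = 0) ∧
      𝒞.Dom (q + 1) (fun I => ‖𝒞.J k (κ I)‖) fun i => A * a i := by
  obtain ⟨κ, hκ⟩ := exists_prim (q := q + 1) (m := m) (by omega) hk (α := Ω) fun i I hI x hx => by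
    rw [← d_congr (𝒞.isOpen (m + 1) i)
      (fun y hy => h2 _ hI y (O_sub hI (by simp) (by omega) hy)) hx, 𝒞.dd]
  refine ⟨fun I hI x hx => ?_, κ, (eq_of_head fun i I hI => (hκ i I hI).1).mono (by omega)
    (by omega), fun i I hI x hx => ?_, fun i => mul_nonneg hA (ha.1 i), fun i I hI =>
      (hκ i I hI).2.trans (mul_le_mul_of_nonneg_left (ha.2 i I hI) hA)⟩
  · rw [← (h2.mono (Nat.zero_le _) hm).cob I hI x hx, ← cob_map (𝒞.d k),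
      (h1.mono (Nat.zero_le _) hm).d I hI x hx, map_zero]
  · rw [map_sub, map_sub, (hκ i I hI).1 x hx,
      h2 _ hI x (O_sub hI (by simp) (by omega) (O_mono (Nat.le_succ m) (by omega) i hx)), sub_self]

/-- The last step: the primitives are corrected to a cocycle. -/
theorem last {κ : List ι → 𝒞.T k} {Ω : List ι → 𝒞.T (k + 1)}
    (h1 : 𝒞.Eq (q + 1 + 1) 0 (cob Ω) fun _ => 0) (h2 : 𝒞.Eq (q + 1) 0 (fun I => 𝒞.d k (κ I)) Ω)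
    (ha : 𝒞.Dom (q + 1) (fun I => ‖𝒞.J k (κ I)‖) a) : ∃ (β : List ι → 𝒞.T k) (b : ι → ℝ),
      𝒞.Eq (q + 1 + 1) 0 (cob β) (fun _ => 0) ∧
      𝒞.Eq (q + 1) 0 (fun I => 𝒞.d k (β I)) (fun I => Ω I - 𝒞.hw (cob κ) I) ∧
      𝒞.Dom (q + 1) (fun I => ‖𝒞.J k (β I)‖) b ∧
      ∑ i, b i ^ 2 ≤ (2 + 2 * (N ^ 2 * ((q + 2) ^ 2 * N ^ 2))) * ∑ i, a i ^ 2 := by
  have h3 := ha.cob
  simp only [← cob_map (𝒞.J k)] at h3
  refine ⟨fun I => κ I - 𝒞.hm (cob κ) I, _, fun I _ x hx => ?_, fun I hI x hx => ?_,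
    ha.sub h3.hm, (sum_add_sq _ _).trans ?_⟩
  · rw [cob_sub, map_sub, cob_hm _ hx, funext (cob_cob κ), hm_zero, sub_sub_cancel]
  · have h4 : 𝒞.Eq (q + 1 + 1) 0 (fun I => 𝒞.d k (cob κ I)) fun _ => 0 := fun I hI x hx => by
      beta_reduce
      rw [cob_map, h2.cob I hI x hx, h1 I hI x hx]
    beta_reduce
    rw [map_sub, map_sub, d_hm _ hx, h4.hm I hI x hx, hm_zero, h2 I hI x hx, map_zero, zero_add,
      map_sub]
  · have h4 := 𝒞.sum_nbs fun i => (q + 2) * 𝒞.nbs a i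
    rw [sum_mul_sq] at h4
    have h5 := mul_le_mul_of_nonneg_left (𝒞.sum_nbs a)
      (show (0 : ℝ) ≤ N ^ 2 * (q + 2) ^ 2 by positivity)
    linarith

theorem ev_cst (s : List ι → ℝ) {I : List ι} (hI : I ∈ 𝒞.Nv (q + 1)) {x : 𝒞.X}
    (hx : x ∈ 𝒞.R 0 I) : 𝒞.ev 0 x (𝒞.cst s I) = s I • 𝒞.u ∧
      𝒞.ev (0 + 1) x (𝒞.d 0 (𝒞.cst s I)) = 0 := by
  obtain ⟨i, J, rfl⟩ := exists_cons hI
  have h := (mem_R_cons.1 hx).1
  simp only [cst, map_smul, 𝒞.ev_one i x h, 𝒞.d_one i x h, smul_zero, and_self]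

theorem cob_smul (s : List ι → ℝ) (I : List ι) : cob (fun J => s J • 𝒞.u) I = cob s I • 𝒞.u :=
  (cob_map (LinearMap.toSpanSingleton ℝ _ 𝒞.u) s I).symm

theorem isLinearMap_whit (l : ℕ) : IsLinearMap ℝ fun s => 𝒞.whit s l := by
  induction l with
  | zero =>
    refine ⟨fun s s' => funext fun I => ?_, fun t s => funext fun I => ?_⟩ <;>
      cases I <;> simp [whit, cst, add_smul, mul_smul]
  | succ l ih =>
    refine ⟨fun s s' => funext fun I => ?_, fun t s => funext fun I => ?_⟩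
    · simp only [whit, ih.1, Cech.hw, Pi.add_apply, map_add, ← Finset.sum_add_distrib]
      exact Finset.sum_congr rfl fun i _ => by split_ifs <;> simp
    · simp only [whit, ih.2, Cech.hw, Pi.smul_apply, map_smul, Finset.smul_sum]
      exact Finset.sum_congr rfl fun i _ => by split_ifs <;> simp

end Cech

end

/-- The statement of the zig-zag for l-forms on simplices with q + 1 vertices. -/
def Zig (A : ℝ) (N l q : ℕ) (C : ℝ) : Prop :=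
  ∀ {H : ℕ → Type} [∀ k, NormedAddCommGroup (H k)] [∀ k, NormedSpace ℝ (H k)] {ι : Type}
    [Fintype ι] {L : ℕ} (𝒞 : Cech H ι A N L) (S : Submodule ℝ (List ι → ℝ)) (Λ : ℝ), 1 ≤ Λ →
    3 * l + 3 ≤ L → 𝒞.Spl (q + l + 1) S Λ → ∀ (η : List ι → 𝒞.T l) (Ω : List ι → 𝒞.T (l + 1))
      (a : ι → ℝ), 𝒞.Eq (q + 1 + 1) (3 * l + 3) (cob η) (fun _ => 0) →
      𝒞.Eq (q + 1) (3 * l + 3) (fun I => 𝒞.d l (η I)) Ω →
      𝒞.Dom (q + 1) (fun I => ‖𝒞.J (l + 1) (Ω I)‖) a →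
      ∃ (β : List ι → 𝒞.T l) (b : ι → ℝ), ∃ s ∈ S, 𝒞.Eq (q + 1 + 1) 0 (cob β) (fun _ => 0) ∧
        𝒞.Eq (q + 1) 0 (fun I => 𝒞.d l (β I)) (fun I => Ω I - 𝒞.whit s (l + 1) I) ∧
        𝒞.Dom (q + 1) (fun I => ‖𝒞.J l (β I)‖) b ∧ ∑ i, b i ^ 2 ≤ C * Λ * ∑ i, a i ^ 2

open Cech

theorem zig_zero {A : ℝ} (hA : 0 ≤ A) (N q : ℕ) : ∃ C, 0 ≤ C ∧ Zig A N 0 q C := by
  refine ⟨(2 + 2 * (N ^ 2 * ((q + 2) ^ 2 * N ^ 2))) * (2 * A ^ 2 + 2 * (A ^ 2 *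
    (N ^ (q + 2) * (A ^ 2 * ((q + 2) ^ 2 * (N ^ 2 * A ^ 2)))))), by positivity, ?_⟩
  intro H _ _ ι _ L 𝒞 S Λ hΛ hL hS η Ω a h1 h2 ha
  obtain ⟨h3, κ, h4, h5, h6⟩ := first (m := 1) hA hL (Nat.zero_le _) h1 h2 ha
  have key : ∀ K : List ι, ∃ t : ℝ, K ∈ 𝒞.Nv (q + 1) → ∀ x ∈ 𝒞.R 1 K,
      𝒞.ev 0 x (κ K) = 𝒞.ev 0 x (η K) + t • 𝒞.u := fun K => by
    by_cases hK : K ∈ 𝒞.Nv (q + 1)
    · obtain ⟨i, I, rfl⟩ := exists_cons hK
      obtain ⟨t, ht⟩ := 𝒞.const 1 (by omega) i _ (h5 i I hK)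
      exact ⟨t, fun _ x hx => by rw [← ht x (mem_R_cons.1 hx).1, map_sub, add_sub_cancel]⟩
    · exact ⟨0, fun h => (hK h).elim⟩
  choose a₀ h7 using key
  have h8 : ∀ I ∈ 𝒞.Nv (q + 1 + 1), ∀ x ∈ 𝒞.R 1 I, 𝒞.ev 0 x (cob κ I) = cob a₀ I • 𝒞.u := by
    intro I hI x hx
    have h9 := h1.mono (m := 1) (by omega) hL I hI x hx
    rw [← sub_zero (𝒞.ev 0 x (cob κ I)), ← map_zero (𝒞.ev 0 x), ← h9, cob_map, cob_map, ← cob_sub,
      ← cob_smul]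
    exact cob_congr fun J h h' => by rw [h7 J (face hI h h') x (R_anti h hx), add_sub_cancel_left]
  obtain ⟨a', s, hs, h9, h10⟩ := hS a₀
  obtain ⟨a'', h11, h12⟩ := 𝒞.exists_dom q a'
  have h13 := h6.cob
  simp only [← cob_map (𝒞.J 0)] at h13
  have h14 := Dom.sum_le (𝒞 := 𝒞) (q := q + 1) (f := cob a₀)
    (a := fun i => A * ((q + 2) * 𝒞.nbs (fun i => A * a i) i))
    ⟨fun i => mul_nonneg hA (h13.1 i), fun i I hI => (𝒞.le_norm i _ _ fun x hx =>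
      h8 _ hI x (O_sub hI (by simp) (by omega) hx)).trans
        (mul_le_mul_of_nonneg_left (h13.2 i I hI) hA)⟩
  have h15 : 𝒞.Dom (q + 1) (fun I => ‖𝒞.J 0 (𝒞.cst a' I)‖) fun i => A * a'' i :=
    ⟨fun i => mul_nonneg hA (h11.1 i), fun i I hI => by
      simp only [cst, map_smul, norm_smul, Real.norm_eq_abs]
      rw [mul_comm]
      exact mul_le_mul (𝒞.norm_one i) (h11.2 i I hI) (abs_nonneg _) hA⟩
  obtain ⟨β, b, h16, h17, h18, h19⟩ := last h3 (κ := fun I => κ I - 𝒞.cst a' I)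
    (fun I hI x hx => by
      beta_reduce
      rw [map_sub, map_sub, h4 I hI x hx, (ev_cst a' hI hx).2, sub_zero])
    (h6.sub h15)
  refine ⟨β, b, s, hs, h16, fun I hI x hx => ?_, h18, h19.trans ?_⟩
  · have h20 : 𝒞.Eq (q + 1 + 1) 0 (cob fun I => κ I - 𝒞.cst a' I) (𝒞.cst s) := fun K hK y hy => by
      rw [cob_sub, map_sub, h8 K hK y fun i hi => O_mono (Nat.zero_le 1) (by omega) i (hy i hi),
        (ev_cst s hK hy).1, ← h9 K hK, sub_smul, cob_map, ← cob_smul a']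
      exact congrArg _ (cob_congr fun J h h' => (ev_cst a' (face hK h h') (R_anti h hy)).1)
    rw [h17 I hI x hx, map_sub, map_sub, h20.hw I hI x hx]
    rfl
  · have h20 := sum_add_sq (fun i => A * a i) fun i => A * a'' i
    have h21 := 𝒞.sum_nbs fun i => A * a i
    rw [sum_mul_sq, sum_mul_sq] at h14 h20
    rw [sum_mul_sq] at h21
    rw [mul_assoc, mul_assoc]
    refine mul_le_mul_of_nonneg_left (h20.trans ?_) (by positivity)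
    have h22 : 0 ≤ ∑ i, a i ^ 2 := by positivity
    have h23 := h10.trans (mul_le_mul_of_nonneg_left (h14.trans (mul_le_mul_of_nonneg_left
      (mul_le_mul_of_nonneg_left (mul_le_mul_of_nonneg_left h21 (sq_nonneg _)) (sq_nonneg _))
      (by positivity))) (by positivity))
    rw [h12]
    nlinarith [mul_le_mul_of_nonneg_left h23 (sq_nonneg A),
      mul_le_mul_of_nonneg_left hΛ (mul_nonneg (sq_nonneg A) h22)]

theorem zig_succ {A : ℝ} (hA : 0 ≤ A) {N l q : ℕ} {C : ℝ} (hC : 0 ≤ C) (h : Zig A N l (q + 1) C) :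
    ∃ C', 0 ≤ C' ∧ Zig A N (l + 1) q C' := by
  refine ⟨2 * ((2 + 2 * (N ^ 2 * ((q + 2) ^ 2 * N ^ 2))) * A ^ 2) + 2 * (A ^ 2 * (N ^ 2 *
    (C * ((q + 2) ^ 2 * (N ^ 2 * A ^ 2))))), by positivity, ?_⟩
  intro H _ _ ι _ L 𝒞 S Λ hΛ hL hS η Ω a h1 h2 ha
  obtain ⟨h3, κ, h4, h5, h6⟩ := first (m := 3 * l + 3 + 1) hA hL (by omega) h1 h2 ha
  obtain ⟨σ, hσ⟩ := exists_prim (m := 3 * l + 3) (by omega) (by omega) (α := fun I => κ I - η I) h5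
  have h7 := h6.cob
  simp only [← cob_map (𝒞.J (l + 1))] at h7
  obtain ⟨β', b', s, hs, h8, h9, h10, h11⟩ := h 𝒞 S Λ hΛ (by omega)
    (by rwa [show q + 1 + l + 1 = q + (l + 1) + 1 by omega]) (cob σ) (cob κ) _
    (fun I _ x _ => by rw [cob_cob]) (fun I hI x hx => by
      beta_reduce
      rw [cob_map, (eq_of_head (α := fun I => 𝒞.d l (σ I)) (β := fun I => κ I - η I)
        fun i I hI => (hσ i I hI).1).cob I hI x hx, cob_sub, map_sub,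
        h1.mono (m := 3 * l + 3) (by omega) hL I hI x hx, map_zero, sub_zero]) h7
  obtain ⟨β, b, h12, h13, h14, h15⟩ := last h3 h4 h6
  refine ⟨fun I => β I - 𝒞.hw β' I, _, s, hs, fun I hI x hx => ?_, fun I hI x hx => ?_,
    h14.sub (h10.hw hA (by omega)), (sum_add_sq _ _).trans ?_⟩
  · rw [cob_sub, map_sub, h12 I hI x hx, cob_hw _ hx, h8.hw I hI x hx, hw_zero, map_zero,
      neg_zero, sub_zero]
  · beta_reduce
    rw [map_sub, map_sub, h13 I hI x hx, d_hw _ hx, h9.hw I hI x hx, map_sub, map_sub,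
      show 𝒞.whit s (l + 1 + 1) = 𝒞.hw (𝒞.whit s (l + 1)) from rfl, ev_hw _ hx, ev_hw _ hx,
      ev_hw _ hx]
    simp only [map_sub, Finset.sum_sub_distrib]
    abel
  · have h16 := 𝒞.sum_nbs fun i => A * a i
    have h17 := 𝒞.sum_nbs b'
    rw [sum_mul_sq] at h11 h15 h16 ⊢
    have h22 : 0 ≤ ∑ i, a i ^ 2 := by positivity
    have h23 := mul_le_mul_of_nonneg_left (h17.trans (mul_le_mul_of_nonneg_left (h11.trans
      (mul_le_mul_of_nonneg_left (mul_le_mul_of_nonneg_left h16 (sq_nonneg _)) (by positivity)))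
      (by positivity))) (sq_nonneg A)
    nlinarith [mul_le_mul_of_nonneg_left hΛ (show 0 ≤ (2 + 2 * (N ^ 2 * ((q + 2) ^ 2 * N ^ 2))) *
      (A ^ 2 * ∑ i, a i ^ 2) by positivity)]

theorem zig {A : ℝ} (hA : 0 ≤ A) (N l q : ℕ) : ∃ C, 0 ≤ C ∧ Zig A N l q C := by
  induction l generalizing q with
  | zero => exact zig_zero hA N q
  | succ l ih =>
    obtain ⟨C, hC, h⟩ := ih (q + 1)
    exact zig_succ hA hC h

/-- Exact forms have bounded primitives modulo finite dimensional spaces. -/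
theorem solve {A : ℝ} (hA : 0 ≤ A) (N l : ℕ) : ∃ C B : ℝ, 0 ≤ C ∧ 0 ≤ B ∧
    ∀ {H : ℕ → Type} [∀ k, NormedAddCommGroup (H k)] [∀ k, NormedSpace ℝ (H k)] {ι : Type}
      [Fintype ι] {L : ℕ} (𝒞 : Cech H ι A N L), 3 * l + 3 ≤ L → ∃ n : ℕ → ℕ,
      (∀ M, ∑ j ∈ Finset.range M, (n j : ℝ) ≤ B * Fintype.card ι) ∧
      ∀ j, ∃ W : Submodule ℝ (H (l + 1)), FiniteDimensional ℝ W ∧ Module.finrank ℝ W ≤ n j ∧
        ∀ η, ∃ β, 𝒞.J (l + 1) (𝒞.d l η) - 𝒞.J (l + 1) (𝒞.d l β) ∈ W ∧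
          ‖𝒞.J l β‖ ^ 2 ≤ C * 2 ^ j * ‖𝒞.J (l + 1) (𝒞.d l η)‖ ^ 2 := by
  obtain ⟨C, hC, h⟩ := zig hA N l 0
  refine ⟨C * A, N ^ (l + 1) + 2 * (N ^ (l + 2) * (l + 2) ^ 2), by positivity, by positivity, ?_⟩
  intro H _ _ ι _ L 𝒞 hL
  obtain ⟨n, h1, h2⟩ := 𝒞.exists_spl l
  refine ⟨n, h1, fun j => ?_⟩
  obtain ⟨S, hS, h3, h4⟩ := h2 j
  have hm : ∀ {k} (α : List ι → 𝒞.T k), 𝒞.hm α [] = ∑ i, 𝒞.mul i k (α [i]) := fun α =>
    Finset.sum_congr rfl fun i _ => if_pos ((𝒞.ne i).imp fun x hx => by simpa [R] using hx)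
  have hN : ∀ i, [i] ∈ 𝒞.Nv (0 + 1) := fun i =>
    mem_Nv.2 ⟨rfl, (𝒞.ne i).imp fun x hx => by simpa [R] using hx⟩
  have hR : ∀ {i x}, x ∈ 𝒞.O 0 i → x ∈ 𝒞.R 0 [i] := fun hx => by simpa [R] using hx
  let F : (List ι → ℝ) →ₗ[ℝ] H (l + 1) := 𝒞.J (l + 1) ∘ₗ
    (∑ i, 𝒞.mul i (l + 1) ∘ₗ LinearMap.proj [i]) ∘ₗ (isLinearMap_whit (𝒞 := 𝒞) (l + 1)).mk'
  refine ⟨S.map F, inferInstance, (Submodule.finrank_map_le _ _).trans h3, fun η => ?_⟩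
  obtain ⟨β, b, s, hs, h5, h6, h7, h8⟩ := h 𝒞 S (2 ^ j) (one_le_pow₀ one_le_two) hL
    (by rwa [zero_add]) (fun _ => η)
    (fun I => I.head?.elim 0 fun i => 𝒞.cut i (l + 1) (𝒞.d l η))
    (fun i => ‖𝒞.J (l + 1) (𝒞.cut i (l + 1) (𝒞.d l η))‖)
    (fun I hI x _ => by
      match I, (mem_Nv.1 hI).1 with
      | [i, i'], _ => simp [cob])
    (eq_of_head fun i I _ x hx => (𝒞.ev_cut i _ _ x (O_mono hL le_rfl i hx)).symm)
    ⟨fun _ => norm_nonneg _, fun _ _ _ => le_rfl⟩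
  refine ⟨𝒞.hm β [], ⟨s, hs, ?_⟩, ?_⟩
  · rw [← map_sub, eq_comm, ← sub_eq_zero]
    have hF : F s = 𝒞.J (l + 1) (𝒞.hm (𝒞.whit s (l + 1)) []) := by
      simp [F, hm]
    rw [hF, ← map_sub]
    refine 𝒞.J_ext _ _ fun x => ?_
    have hx : x ∈ 𝒞.R 0 [] := by simp [R]
    have h9 : 𝒞.ev (l + 1) x (𝒞.hw β []) = 0 := by
      rw [ev_hw _ hx, ← 𝒞.sum_w x l (𝒞.ev l x (𝒞.hm β []))]
      refine Finset.sum_congr rfl fun i _ => ?_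
      by_cases hi : x ∈ 𝒞.O 0 i
      · have h10 := cob_hm β (hR hi)
        rw [h5.hm _ (hN i) x (hR hi), hm_zero, map_zero, sub_zero, cob_cons, cob_nil,
          sub_zero] at h10
        rw [h10]
      · rw [(𝒞.supp i x hi).2, (𝒞.supp i x hi).2]
    rw [map_sub, map_sub, d_hm _ hx, h9, add_zero, ev_hm _ hx, ev_hm _ hx, sub_sub,
      ← Finset.sum_add_distrib, sub_eq_zero, ← one_smul ℝ (𝒞.ev (l + 1) x (𝒞.d l η)), ← 𝒞.sum_ρ x,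
      Finset.sum_smul]
    refine Finset.sum_congr rfl fun i _ => ?_
    by_cases hi : x ∈ 𝒞.O 0 i
    · rw [h6 _ (hN i) x (hR hi), map_sub, ← smul_add, sub_add_cancel]
      exact congrArg _ (𝒞.ev_cut i _ _ x (O_mono (Nat.zero_le L) le_rfl i hi)).symm
    · simp [(𝒞.supp i x hi).1]
  · rw [hm]
    refine (𝒞.glue l _).trans (((Finset.sum_le_sum fun i _ =>
      pow_le_pow_left₀ (norm_nonneg _) (h7.2 i [] (hN i)) 2).trans h8).trans ?_)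
    nlinarith [mul_le_mul_of_nonneg_left (𝒞.norm_cut (l + 1) (𝒞.d l η))
      (show 0 ≤ C * 2 ^ j by positivity)]

end Pool.Agent.Lib.MP_75c153_gt.Dc
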